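import Pool.Agent.H57.EDT.IdxDefs
import Pool.Agent.H57.EDT.IdxGroup

/-! Definitions for the proof that the first Grigorchuk group has no indexed geodesic normal
form: indexed grammars in a binary normal form, derivations, live nodes, spines, unique
geodesics. -/

namespace Pool.Agent.H51.IGN

open Pool.Agent.H57.EDT

/-- Indexed grammars in normal form over the terminals `T`, with nonterminals `N` and flags `F`:
productions `A → ε`, `A → t`, `A → B C`, `A → B f`, `A f → B`. -/
structure Gr (T N F : Type) where
  eps : N → Prop
  term : N → T → Prop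
  bin : N → N → N → Prop
  push : N → N → F → Prop
  pop : N → F → N → Prop

variable {T N F : Type}

/-- `Der G A σ w`: the nonterminal `A` with the stack `σ` derives the terminal word `w`. -/
inductive Der (G : Gr T N F) : N → List F → List T → Prop
  | eps {A : N} (h : G.eps A) (σ : List F) : Der G A σ []
  | term {A : N} {t : T} (h : G.term A t) (σ : List F) : Der G A σ [t]
  | bin {A B C : N} {σ : List F} {u v : List T} (h : G.bin A B C) (hu : Der G B σ u)
      (hv : Der G C σ v) : Der G A σ (u ++ v)
  | push {A B : N} {f : F} {σ : List F} {u : List T} (h : G.push A B f)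
      (hu : Der G B (f :: σ) u) : Der G A σ u
  | pop {A B : N} {f : F} {σ : List F} {u : List T} (h : G.pop A f B)
      (hu : Der G B σ u) : Der G A (f :: σ) u

/-- `Live G S A σ`: the nonterminal `A` with stack `σ` occurs in a derivation from the start
symbol `S` all of whose side branches are productive. -/
inductive Live (G : Gr T N F) (S : N) : N → List F → Prop
  | root : Live G S S []
  | binL {A B C : N} {σ : List F} (h : G.bin A B C) (hA : Live G S A σ)
      (hC : ∃ y, Der G C σ y) : Live G S B σ
  | binR {A B C : N} {σ : List F} (h : G.bin A B C) (hA : Live G S A σ)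
      (hB : ∃ y, Der G B σ y) : Live G S C σ
  | push {A B : N} {f : F} {σ : List F} (h : G.push A B f) (hA : Live G S A σ) :
      Live G S B (f :: σ)
  | pop {A B : N} {f : F} {σ : List F} (h : G.pop A f B) (hA : Live G S A (f :: σ)) :
      Live G S B σ

/-- A live node has a context: words derived from it are factors of words of the language. -/
theorem Live.ctx {G : Gr T N F} {S A : N} {σ : List F} (h : Live G S A σ) :
    ∃ u v, ∀ y, Der G A σ y → Der G S [] (u ++ y ++ v) := by
  induction h with
  | root => exact ⟨[], [], fun y hy => by simpa using hy⟩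
  | @binL A B C σ h _ hC ih =>
    obtain ⟨u, v, ih⟩ := ih
    obtain ⟨z, hz⟩ := hC
    refine ⟨u, z ++ v, fun y hy => ?_⟩
    have := ih _ (Der.bin h hy hz)
    simpa [List.append_assoc] using this
  | @binR A B C σ h _ hB ih =>
    obtain ⟨u, v, ih⟩ := ih
    obtain ⟨z, hz⟩ := hB
    refine ⟨u ++ z, v, fun y hy => ?_⟩
    have := ih _ (Der.bin h hz hy)
    simpa [List.append_assoc] using this
  | push h _ ih =>
    obtain ⟨u, v, ih⟩ := ih
    exact ⟨u, v, fun y hy => ih _ (Der.push h hy)⟩
  | pop h _ ih =>
    obtain ⟨u, v, ih⟩ := ih
    exact ⟨u, v, fun y hy => ih _ (Der.pop h hy)⟩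

/-- The `j`-th power of a word. -/
def pw (p : List T) (j : ℕ) : List T := (List.replicate j p).flatten

/-- Bounded powers: for every nonempty word some power of it is not a factor of a word of the
language. -/
def PB (G : Gr T N F) (S : N) : Prop :=
  ∀ p : List T, p ≠ [] → ∃ j : ℕ, ∀ w, Der G S [] w → ¬ pw p j <:+: w

/-- Descending paths in derivation trees, with side branches of output length `< h`:
`Chain G h A σ A' σ' X Y` says that from `A` with stack `σ` one reaches `A'` with stack `σ'`, the
side branches on the left giving `X` and those on the right giving `Y`. -/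
inductive Chain (G : Gr T N F) (h : ℕ) : N → List F → N → List F → List T → List T → Prop
  | refl (A : N) (σ : List F) : Chain G h A σ A σ [] []
  | binL {A B C : N} {σ : List F} {z : List T} {A' : N} {σ' : List F} {X Y : List T}
      (hb : G.bin A B C) (hz : Der G C σ z) (hh : z.length < h)
      (hc : Chain G h B σ A' σ' X Y) : Chain G h A σ A' σ' X (Y ++ z)
  | binR {A B C : N} {σ : List F} {z : List T} {A' : N} {σ' : List F} {X Y : List T}
      (hb : G.bin A B C) (hz : Der G B σ z) (hh : z.length < h)
      (hc : Chain G h C σ A' σ' X Y) : Chain G h A σ A' σ' (z ++ X) Y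
  | push {A B : N} {f : F} {σ : List F} {A' : N} {σ' : List F} {X Y : List T}
      (hp : G.push A B f) (hc : Chain G h B (f :: σ) A' σ' X Y) : Chain G h A σ A' σ' X Y
  | pop {A B : N} {f : F} {σ : List F} {A' : N} {σ' : List F} {X Y : List T}
      (hp : G.pop A f B) (hc : Chain G h B σ A' σ' X Y) : Chain G h A (f :: σ) A' σ' X Y

/-- A word is the unique geodesic of the element it represents. -/
def UG (w : List Gen) : Prop := ∀ w', pv w' = pv w → w'.length ≤ w.length → w' = w

/-- The word `a x₁ a x₂ … a xₙ` with `xᵢ = b` for `true` and `c` for `false`. -/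
def aw (s : List Bool) : List Gen := s.flatMap (fun x => [Gen.a, if x then Gen.b else Gen.c])

/-- `a x₁ a x₂ … a xₙ` is a unique geodesic -/
def Good (s : List Bool) : Prop := UG (aw s)

/-- the word `b b c c b b s₀ s'₀ b b c c b b s₁ s'₁ …` -/
def FF (s s' : List Bool) : List Bool :=
  (List.zip s s').flatMap (fun p => [true, true, false, false, true, true, p.1, p.2])

/-- the prefix of length `n` of an infinite word -/
def pre (s : ℕ → Bool) (n : ℕ) : List Bool := (List.range n).map s

end Pool.Agent.H51.IGN
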