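import Pool.Agent.H51.IGN.Defs

/-! M1: every indexed language has an indexed grammar in the binary normal form. -/

namespace Pool.Agent.H51.IGN

open Pool.Agent.H57.EDT

namespace M1

variable {T : Type} (G : IndexedGrammar T)

/-- Derivation trees of an indexed grammar, for sentential forms. -/
inductive D0 : List (T ⊕ (G.N × List G.F)) → List T → Prop
  | nil : D0 [] []
  | tcons (t : T) {φ : List (T ⊕ (G.N × List G.F))} {w : List T} (h : D0 φ w) :
      D0 (Sum.inl t :: φ) (t :: w)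
  | plain {A : G.N} {α : List (T ⊕ G.N)} (h : (A, α) ∈ G.plain) {σ : List G.F}
      {φ : List (T ⊕ (G.N × List G.F))} {u v : List T} (hu : D0 (attach σ α) u) (hv : D0 φ v) :
      D0 (Sum.inr (A, σ) :: φ) (u ++ v)
  | push {A B : G.N} {f : G.F} (h : (A, B, f) ∈ G.push) {σ : List G.F}
      {φ : List (T ⊕ (G.N × List G.F))} {u v : List T}
      (hu : D0 [Sum.inr (B, f :: σ)] u) (hv : D0 φ v) :
      D0 (Sum.inr (A, σ) :: φ) (u ++ v)
  | pop {A : G.N} {f : G.F} {α : List (T ⊕ G.N)} (h : (A, f, α) ∈ G.pop) {σ : List G.F}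
      {φ : List (T ⊕ (G.N × List G.F))} {u v : List T} (hu : D0 (attach σ α) u) (hv : D0 φ v) :
      D0 (Sum.inr (A, f :: σ) :: φ) (u ++ v)

variable {G}

theorem D0.append {φ ψ : List (T ⊕ (G.N × List G.F))} {u v : List T} (h : D0 G φ u)
    (h' : D0 G ψ v) : D0 G (φ ++ ψ) (u ++ v) := by
  induction h with
  | nil => simpa using h'
  | tcons t _ ih => exact D0.tcons t ih
  | plain h hu _ _ ih => rw [List.cons_append, List.append_assoc]; exact D0.plain h hu ih
  | push h hu _ _ ih => rw [List.cons_append, List.append_assoc]; exact D0.push h hu ih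
  | pop h hu _ _ ih => rw [List.cons_append, List.append_assoc]; exact D0.pop h hu ih

theorem D0.split {φ ψ : List (T ⊕ (G.N × List G.F))} {w : List T} (h : D0 G (φ ++ ψ) w) :
    ∃ u v, w = u ++ v ∧ D0 G φ u ∧ D0 G ψ v := by
  generalize hχ : φ ++ ψ = χ at h
  induction h generalizing φ with
  | nil =>
    rw [List.append_eq_nil_iff] at hχ
    obtain ⟨rfl, rfl⟩ := hχ
    exact ⟨[], [], rfl, D0.nil, D0.nil⟩
  | @tcons t χ' w hχ' ih =>
    cases φ with
    | nil =>
      rw [List.nil_append] at hχ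
      subst hχ
      exact ⟨[], _, rfl, D0.nil, D0.tcons t hχ'⟩
    | cons x φ =>
      rw [List.cons_append, List.cons.injEq] at hχ
      obtain ⟨rfl, hχ⟩ := hχ
      obtain ⟨u, v, rfl, hu, hv⟩ := ih hχ
      exact ⟨t :: u, v, rfl, D0.tcons t hu, hv⟩
  | plain h hu hv _ ih =>
    cases φ with
    | nil =>
      rw [List.nil_append] at hχ
      subst hχ
      exact ⟨[], _, rfl, D0.nil, D0.plain h hu hv⟩
    | cons x φ =>
      rw [List.cons_append, List.cons.injEq] at hχ
      obtain ⟨rfl, hχ⟩ := hχ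
      obtain ⟨u, v, rfl, hu', hv'⟩ := ih hχ
      exact ⟨_, v, (List.append_assoc _ _ _).symm, D0.plain h hu hu', hv'⟩
  | push h hu hv _ ih =>
    cases φ with
    | nil =>
      rw [List.nil_append] at hχ
      subst hχ
      exact ⟨[], _, rfl, D0.nil, D0.push h hu hv⟩
    | cons x φ =>
      rw [List.cons_append, List.cons.injEq] at hχ
      obtain ⟨rfl, hχ⟩ := hχ
      obtain ⟨u, v, rfl, hu', hv'⟩ := ih hχ
      exact ⟨_, v, (List.append_assoc _ _ _).symm, D0.push h hu hu', hv'⟩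
  | pop h hu hv _ ih =>
    cases φ with
    | nil =>
      rw [List.nil_append] at hχ
      subst hχ
      exact ⟨[], _, rfl, D0.nil, D0.pop h hu hv⟩
    | cons x φ =>
      rw [List.cons_append, List.cons.injEq] at hχ
      obtain ⟨rfl, hχ⟩ := hχ
      obtain ⟨u, v, rfl, hu', hv'⟩ := ih hχ
      exact ⟨_, v, (List.append_assoc _ _ _).symm, D0.pop h hu hu', hv'⟩

theorem D0.word (w : List T) : D0 G (w.map Sum.inl) w := by
  induction w with
  | nil => exact D0.nil
  | cons t w ih => exact D0.tcons t ih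

theorem D0.of_step {φ ψ : List (T ⊕ (G.N × List G.F))} {w : List T} (h : G.Step φ ψ)
    (hw : D0 G ψ w) : D0 G φ w := by
  cases h with
  | plain A α h σ u v =>
    obtain ⟨w₁, w₂, rfl, h₁, h₂⟩ := hw.split
    obtain ⟨w₃, w₄, rfl, h₃, h₄⟩ := h₁.split
    rw [List.append_assoc, List.append_assoc]
    exact h₃.append (by simpa using D0.plain h h₄ h₂)
  | push A B f h σ u v =>
    obtain ⟨w₁, w₂, rfl, h₁, h₂⟩ := hw.split
    obtain ⟨w₃, w₄, rfl, h₃, h₄⟩ := h₁.split
    rw [List.append_assoc, List.append_assoc]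
    exact h₃.append (by simpa using D0.push h h₄ h₂)
  | pop A f α h σ u v =>
    obtain ⟨w₁, w₂, rfl, h₁, h₂⟩ := hw.split
    obtain ⟨w₃, w₄, rfl, h₃, h₄⟩ := h₁.split
    rw [List.append_assoc, List.append_assoc]
    exact h₃.append (by simpa using D0.pop h h₄ h₂)

theorem step_append {φ ψ : List (T ⊕ (G.N × List G.F))} (h : G.Step φ ψ)
    (p q : List (T ⊕ (G.N × List G.F))) : G.Step (p ++ φ ++ q) (p ++ ψ ++ q) := by
  cases h with
  | plain A α h σ u v =>
    have := IndexedGrammar.Step.plain A α h σ (p ++ u) (v ++ q)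
    simpa [List.append_assoc] using this
  | push A B f h σ u v =>
    have := IndexedGrammar.Step.push A B f h σ (p ++ u) (v ++ q)
    simpa [List.append_assoc] using this
  | pop A f α h σ u v =>
    have := IndexedGrammar.Step.pop A f α h σ (p ++ u) (v ++ q)
    simpa [List.append_assoc] using this

theorem steps_append {φ ψ : List (T ⊕ (G.N × List G.F))} (h : Relation.ReflTransGen G.Step φ ψ)
    (p q : List (T ⊕ (G.N × List G.F))) :
    Relation.ReflTransGen G.Step (p ++ φ ++ q) (p ++ ψ ++ q) := by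
  induction h with
  | refl => exact Relation.ReflTransGen.refl
  | tail _ hs ih => exact ih.tail (step_append hs p q)

theorem D0.steps {φ : List (T ⊕ (G.N × List G.F))} {w : List T} (h : D0 G φ w) :
    Relation.ReflTransGen G.Step φ (w.map Sum.inl) := by
  induction h with
  | nil => exact Relation.ReflTransGen.refl
  | tcons t _ ih =>
    have := steps_append ih [Sum.inl t] []
    simpa using this
  | @plain A α h σ φ u v hu hv ihu ihv =>
    have h1 : G.Step (Sum.inr (A, σ) :: φ) (attach σ α ++ φ) := by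
      simpa using IndexedGrammar.Step.plain A α h σ [] φ
    have h2 := steps_append ihu [] φ
    have h3 := steps_append ihv (u.map Sum.inl) []
    simp only [List.nil_append, List.append_nil] at h2 h3
    rw [List.map_append]
    exact ((Relation.ReflTransGen.single h1).trans h2).trans h3
  | @push A B f h σ φ u v hu hv ihu ihv =>
    have h1 : G.Step (Sum.inr (A, σ) :: φ) ([Sum.inr (B, f :: σ)] ++ φ) := by
      simpa using IndexedGrammar.Step.push A B f h σ [] φ
    have h2 := steps_append ihu [] φ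
    have h3 := steps_append ihv (u.map Sum.inl) []
    simp only [List.nil_append, List.append_nil] at h2 h3
    rw [List.map_append]
    exact ((Relation.ReflTransGen.single h1).trans h2).trans h3
  | @pop A f α h σ φ u v hu hv ihu ihv =>
    have h1 : G.Step (Sum.inr (A, f :: σ) :: φ) (attach σ α ++ φ) := by
      simpa using IndexedGrammar.Step.pop A f α h σ [] φ
    have h2 := steps_append ihu [] φ
    have h3 := steps_append ihv (u.map Sum.inl) []
    simp only [List.nil_append, List.append_nil] at h2 h3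
    rw [List.map_append]
    exact ((Relation.ReflTransGen.single h1).trans h2).trans h3

theorem mem_language_iff (w : List T) :
    w ∈ G.language ↔ D0 G [Sum.inr (G.start, [])] w := by
  constructor
  · intro h
    have h' : Relation.ReflTransGen G.Step [Sum.inr (G.start, [])] (w.map Sum.inl) := h
    generalize ([Sum.inr (G.start, [])] : List (T ⊕ (G.N × List G.F))) = φ at h'
    induction h' using Relation.ReflTransGen.head_induction_on with
    | refl => exact D0.word w
    | head hs _ ih => exact D0.of_step hs ih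
  · exact fun h => h.steps

variable (G)

/-- right-hand sides -/
def rhs : Set (List (T ⊕ G.N)) :=
  (fun p : G.N × List (T ⊕ G.N) => p.2) '' G.plain ∪
    (fun p : G.N × G.F × List (T ⊕ G.N) => p.2.2) '' G.pop

/-- the new nonterminals -/
def nts : Set (List (T ⊕ G.N)) :=
  ({[]} ∪ Set.range (fun A : G.N => [(Sum.inr A : T ⊕ G.N)])) ∪
    ((⋃ β ∈ rhs G, {α | α ∈ β.tails}) ∪ (⋃ β ∈ rhs G, (fun x => [x]) '' {x | x ∈ β}))

theorem rhs_finite : (rhs G).Finite := (G.finPlain.image _).union (G.finPop.image _)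

theorem nts_finite : (nts G).Finite := by
  have := G.finN
  refine ((Set.finite_singleton _).union (Set.finite_range _)).union ?_
  refine ((rhs_finite G).biUnion fun β _ => ?_).union ((rhs_finite G).biUnion fun β _ => ?_)
  · exact List.finite_toSet _
  · exact (List.finite_toSet _).image _

theorem nil_mem : ([] : List (T ⊕ G.N)) ∈ nts G := Or.inl (Or.inl rfl)

theorem sing_mem (A : G.N) : [(Sum.inr A : T ⊕ G.N)] ∈ nts G := Or.inl (Or.inr ⟨A, rfl⟩)

theorem plain_mem {A : G.N} {α : List (T ⊕ G.N)} (h : (A, α) ∈ G.plain) : α ∈ nts G := by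
  refine Or.inr (Or.inl ?_)
  simp only [Set.mem_iUnion]
  exact ⟨α, Or.inl ⟨_, h, rfl⟩, by simp⟩

theorem pop_mem {A : G.N} {f : G.F} {α : List (T ⊕ G.N)} (h : (A, f, α) ∈ G.pop) :
    α ∈ nts G := by
  refine Or.inr (Or.inl ?_)
  simp only [Set.mem_iUnion]
  exact ⟨α, Or.inr ⟨_, h, rfl⟩, by simp⟩

theorem cons_mem {x : T ⊕ G.N} {d : List (T ⊕ G.N)} (h : x :: d ∈ nts G) :
    [x] ∈ nts G ∧ d ∈ nts G := by
  rcases h with (h | ⟨A, h⟩) | (h | h)
  · simp at h
  · simp only [List.cons.injEq] at h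
    obtain ⟨rfl, rfl⟩ := h
    exact ⟨sing_mem G A, nil_mem G⟩
  · simp only [Set.mem_iUnion] at h
    obtain ⟨β, hβ, hs⟩ := h
    have hs' : x :: d <:+ β := (List.mem_tails _ _).1 hs
    constructor
    · refine Or.inr (Or.inr ?_)
      simp only [Set.mem_iUnion]
      exact ⟨β, hβ, x, hs'.subset (by simp), rfl⟩
    · refine Or.inr (Or.inl ?_)
      simp only [Set.mem_iUnion]
      exact ⟨β, hβ, (List.mem_tails _ _).2 ((List.suffix_cons x d).trans hs')⟩
  · have h0 := h
    simp only [Set.mem_iUnion] at h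
    obtain ⟨β, hβ, y, hy, h⟩ := h
    simp only [List.cons.injEq] at h
    obtain ⟨rfl, rfl⟩ := h
    exact ⟨Or.inr (Or.inr h0), nil_mem G⟩

/-- the grammar in normal form -/
def nf : Gr T (nts G) G.F where
  eps A := A.1 = []
  term A t := A.1 = [Sum.inl t]
  bin A B C := (∃ x, A.1 = x :: C.1 ∧ B.1 = [x]) ∨
    (∃ a, A.1 = [Sum.inr a] ∧ (a, B.1) ∈ G.plain ∧ C.1 = [])
  push A B f := ∃ a b, A.1 = [Sum.inr a] ∧ B.1 = [Sum.inr b] ∧ (a, b, f) ∈ G.push
  pop A f B := ∃ a, A.1 = [Sum.inr a] ∧ (a, f, B.1) ∈ G.pop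

variable {G}

theorem D0_of_Der {A : nts G} {σ : List G.F} {w : List T} (h : Der (nf G) A σ w) :
    D0 G (attach σ A.1) w := by
  induction h with
  | eps h σ =>
    have h' : _ = _ := h
    rw [h']
    exact D0.nil
  | term h σ =>
    have h' : _ = _ := h
    rw [h']
    exact D0.tcons _ D0.nil
  | @bin A B C σ u v h _ _ ihu ihv =>
    rcases h with ⟨x, hA, hB⟩ | ⟨a, hA, hp, hC⟩
    · rw [hA]
      rw [hB] at ihu
      exact ihu.append ihv
    · rw [hA]
      rw [hC] at ihv
      exact D0.plain hp ihu ihv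
  | @push A B f σ u h _ ih =>
    obtain ⟨a, b, hA, hB, hp⟩ := h
    rw [hA]
    rw [hB] at ih
    have := D0.push hp ih D0.nil
    rw [List.append_nil] at this
    exact this
  | @pop A B f σ u h _ ih =>
    obtain ⟨a, hA, hp⟩ := h
    rw [hA]
    have := D0.pop hp ih D0.nil
    rw [List.append_nil] at this
    exact this

theorem Der_of_D0 {φ : List (T ⊕ (G.N × List G.F))} {w : List T} (h : D0 G φ w) :
    ∀ (σ : List G.F) (A : nts G), attach σ A.1 = φ → Der (nf G) A σ w := by
  induction h with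
  | nil =>
    intro σ A hA
    refine Der.eps ?_ σ
    exact List.map_eq_nil_iff.1 hA
  | @tcons t φ w _ ih =>
    rintro σ ⟨α, hα⟩ hA
    obtain ⟨x, d, rfl, hx, hd⟩ := List.map_eq_cons_iff.1 hA
    obtain ⟨h1, h2⟩ := cons_mem G hα
    cases x with
    | inr b => simp at hx
    | inl s =>
      simp only [Sum.map_inl, id, Sum.inl.injEq] at hx
      subst hx
      have hh := ih σ ⟨d, h2⟩ hd
      exact Der.bin (G := nf G) (A := ⟨_, hα⟩) (B := ⟨_, h1⟩) (C := ⟨d, h2⟩) (u := [s]) (v := w)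
        (Or.inl ⟨_, rfl, rfl⟩) (Der.term (t := s) rfl σ) hh
  | @plain A β h σ' φ u v _ _ ihu ihv =>
    rintro σ ⟨α, hα⟩ hA
    obtain ⟨x, d, rfl, hx, hd⟩ := List.map_eq_cons_iff.1 hA
    obtain ⟨h1, h2⟩ := cons_mem G hα
    cases x with
    | inl s => simp at hx
    | inr b =>
      simp only [Sum.map_inr, Sum.inr.injEq, Prod.mk.injEq] at hx
      obtain ⟨rfl, rfl⟩ := hx
      have hh := ihv σ ⟨d, h2⟩ hd
      have hu := ihu σ ⟨β, plain_mem G h⟩ rfl
      have h3 : Der (nf G) ⟨[Sum.inr b], h1⟩ σ (u ++ []) :=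
        Der.bin (G := nf G) (A := ⟨[Sum.inr b], h1⟩) (B := ⟨β, plain_mem G h⟩) (C := ⟨[], nil_mem G⟩)
          (Or.inr ⟨b, rfl, h, rfl⟩) hu (Der.eps rfl σ)
      rw [List.append_nil] at h3
      exact Der.bin (G := nf G) (A := ⟨_, hα⟩) (B := ⟨_, h1⟩) (C := ⟨d, h2⟩) (Or.inl ⟨_, rfl, rfl⟩) h3 hh
  | @push A B f h σ' φ u v _ _ ihu ihv =>
    rintro σ ⟨α, hα⟩ hA
    obtain ⟨x, d, rfl, hx, hd⟩ := List.map_eq_cons_iff.1 hA
    obtain ⟨h1, h2⟩ := cons_mem G hα
    cases x with
    | inl s => simp at hx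
    | inr b =>
      simp only [Sum.map_inr, Sum.inr.injEq, Prod.mk.injEq] at hx
      obtain ⟨rfl, rfl⟩ := hx
      have hh := ihv σ ⟨d, h2⟩ hd
      have hu := ihu (f :: σ) ⟨_, sing_mem G B⟩ rfl
      have h3 : Der (nf G) ⟨[Sum.inr b], h1⟩ σ u :=
        Der.push (G := nf G) (A := ⟨[Sum.inr b], h1⟩) (B := ⟨[Sum.inr B], sing_mem G B⟩)
          ⟨b, B, rfl, rfl, h⟩ hu
      exact Der.bin (G := nf G) (A := ⟨_, hα⟩) (B := ⟨_, h1⟩) (C := ⟨d, h2⟩) (Or.inl ⟨_, rfl, rfl⟩) h3 hh
  | @pop A f β h σ' φ u v _ _ ihu ihv =>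
    rintro σ ⟨α, hα⟩ hA
    obtain ⟨x, d, rfl, hx, hd⟩ := List.map_eq_cons_iff.1 hA
    obtain ⟨h1, h2⟩ := cons_mem G hα
    cases x with
    | inl s => simp at hx
    | inr b =>
      simp only [Sum.map_inr, Sum.inr.injEq, Prod.mk.injEq] at hx
      obtain ⟨rfl, rfl⟩ := hx
      have hh := ihv (f :: σ') ⟨d, h2⟩ hd
      have hu := ihu σ' ⟨β, pop_mem G h⟩ rfl
      have h3 : Der (nf G) ⟨[Sum.inr b], h1⟩ (f :: σ') u :=
        Der.pop (G := nf G) (A := ⟨[Sum.inr b], h1⟩) (B := ⟨β, pop_mem G h⟩) ⟨b, rfl, h⟩ hu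
      exact Der.bin (G := nf G) (A := ⟨_, hα⟩) (B := ⟨_, h1⟩) (C := ⟨d, h2⟩) (Or.inl ⟨_, rfl, rfl⟩) h3 hh

end M1

/-- M1: every indexed language has a grammar in normal form. -/
theorem exists_Gr {T : Type} (L : Set (List T)) (hL : IsIndexed L) :
    ∃ (N F : Type) (_ : Finite N) (_ : Finite F) (G : Gr T N F) (S : N),
      ∀ w, w ∈ L ↔ Der G S [] w := by
  obtain ⟨G, rfl⟩ := hL
  refine ⟨M1.nts G, G.F, (M1.nts_finite G).to_subtype, G.finF, M1.nf G,
    ⟨_, M1.sing_mem G G.start⟩, fun w => ?_⟩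
  rw [M1.mem_language_iff]
  exact ⟨fun h => M1.Der_of_D0 h [] _ rfl, fun h => M1.D0_of_Der h⟩

end Pool.Agent.H51.IGN
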