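import Pool.Agent.H51.IGN.Defs

/-! Transfer of productivity, of short derived words and of liveness between stacks. -/

namespace Pool.Agent.H51.IGN

variable {T N F : Type}

theorem prod_transfer {G : Gr T N F} {σ σ' : List F}
    (h : ∀ D, (∃ y, Der G D σ y) → ∃ y, Der G D σ' y) (ρ : List F) (D : N)
    (hD : ∃ y, Der G D (ρ ++ σ) y) : ∃ y, Der G D (ρ ++ σ') y := by
  obtain ⟨y, hy⟩ := hD
  generalize hτ : ρ ++ σ = τ at hy
  induction hy generalizing ρ with
  | eps h1 _ => exact ⟨_, Der.eps h1 _⟩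
  | term h1 _ => exact ⟨_, Der.term h1 _⟩
  | bin h1 _ _ ihu ihv =>
    obtain ⟨u', hu'⟩ := ihu ρ hτ
    obtain ⟨v', hv'⟩ := ihv ρ hτ
    exact ⟨_, Der.bin h1 hu' hv'⟩
  | @push A B f τ u h1 hu ih =>
    obtain ⟨u', hu'⟩ := ih (f :: ρ) (by rw [List.cons_append, hτ])
    exact ⟨_, Der.push h1 hu'⟩
  | @pop A B f τ u h1 hu ih =>
    cases ρ with
    | nil =>
      rw [List.nil_append] at hτ
      rw [List.nil_append]
      apply h
      rw [hτ]
      exact ⟨_, Der.pop h1 hu⟩
    | cons g ρ =>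
      rw [List.cons_append, List.cons.injEq] at hτ
      obtain ⟨rfl, hτ⟩ := hτ
      obtain ⟨u', hu'⟩ := ih ρ hτ
      exact ⟨_, Der.pop h1 hu'⟩

theorem small_transfer {G : Gr T N F} {σ σ' : List F} {h : ℕ}
    (hs : ∀ D y, y.length < h → Der G D σ y → Der G D σ' y) (ρ : List F) (D : N) (y : List T)
    (hy : y.length < h) (hD : Der G D (ρ ++ σ) y) : Der G D (ρ ++ σ') y := by
  generalize hτ : ρ ++ σ = τ at hD
  induction hD generalizing ρ with
  | eps h1 _ => exact Der.eps h1 _
  | term h1 _ => exact Der.term h1 _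
  | bin h1 _ _ ihu ihv =>
    rw [List.length_append] at hy
    exact Der.bin h1 (ihu ρ (by omega) hτ) (ihv ρ (by omega) hτ)
  | @push A B f τ u h1 hu ih =>
    exact Der.push h1 (ih (f :: ρ) hy (by rw [List.cons_append, hτ]))
  | @pop A B f τ u h1 hu ih =>
    cases ρ with
    | nil =>
      rw [List.nil_append] at hτ
      rw [List.nil_append]
      apply hs _ _ hy
      rw [hτ]
      exact Der.pop h1 hu
    | cons g ρ =>
      rw [List.cons_append, List.cons.injEq] at hτ
      obtain ⟨rfl, hτ⟩ := hτ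
      exact Der.pop h1 (ih ρ hy hτ)

theorem live_transfer {G : Gr T N F} {S : N} {σ σ' : List F}
    (h : ∀ D, (∃ y, Der G D σ y) → ∃ y, Der G D σ' y)
    (hl : ∀ D, Live G S D σ → Live G S D σ') (ρ : List F) (D : N)
    (hD : Live G S D (ρ ++ σ)) : Live G S D (ρ ++ σ') := by
  generalize hτ : ρ ++ σ = τ at hD
  induction hD generalizing ρ with
  | root =>
    obtain ⟨rfl, rfl⟩ := List.append_eq_nil_iff.1 hτ
    exact hl _ Live.root
  | binL h1 _ hC ih =>
    subst hτ
    exact Live.binL h1 (ih ρ rfl) (prod_transfer h ρ _ hC)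
  | binR h1 _ hB ih =>
    subst hτ
    exact Live.binR h1 (ih ρ rfl) (prod_transfer h ρ _ hB)
  | @push A B f τ h1 hA ih =>
    cases ρ with
    | nil =>
      rw [List.nil_append] at hτ
      rw [List.nil_append]
      apply hl
      rw [hτ]
      exact Live.push h1 hA
    | cons g ρ =>
      rw [List.cons_append, List.cons.injEq] at hτ
      obtain ⟨rfl, hτ⟩ := hτ
      exact Live.push h1 (ih ρ hτ)
  | @pop A B f τ h1 hA ih =>
    exact Live.pop h1 (ih (f :: ρ) (by rw [List.cons_append, hτ]))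

end Pool.Agent.H51.IGN
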