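import Pool.Agent.H51.IGN.M2
import Pool.Agent.H57.EDT.Count

/-! Shortest words of live nodes: they lie in an EDT0L language with finite-to-one evaluation,
so there are quasi-polynomially many. -/

namespace Pool.Agent.H51.IGN

open Pool.Agent.H57.EDT

variable {T N F : Type}

/-- Partial derivations: `Fd G A ρ α` says that `A` with the stack `ρ` above a bottom derives the
word `α`, the nonterminals of `α` standing at the bottom. -/
inductive Fd (G : Gr T N F) : N → List F → List (T ⊕ N) → Prop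
  | here (A : N) : Fd G A [] [Sum.inr A]
  | eps {A : N} (h : G.eps A) (ρ : List F) : Fd G A ρ []
  | term {A : N} {t : T} (h : G.term A t) (ρ : List F) : Fd G A ρ [Sum.inl t]
  | bin {A B C : N} {ρ : List F} {α β : List (T ⊕ N)} (h : G.bin A B C) (hu : Fd G B ρ α)
      (hv : Fd G C ρ β) : Fd G A ρ (α ++ β)
  | push {A B : N} {f : F} {ρ : List F} {α : List (T ⊕ N)} (h : G.push A B f)
      (hu : Fd G B (f :: ρ) α) : Fd G A ρ α
  | pop {A B : N} {f : F} {ρ : List F} {α : List (T ⊕ N)} (h : G.pop A f B)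
      (hu : Fd G B ρ α) : Fd G A (f :: ρ) α

/-- `DerW G σ α w`: the word `α`, all its nonterminals with the stack `σ`, derives `w`. -/
inductive DerW (G : Gr T N F) (σ : List F) : List (T ⊕ N) → List T → Prop
  | nil : DerW G σ [] []
  | inl {α : List (T ⊕ N)} {w : List T} (t : T) (h : DerW G σ α w) :
      DerW G σ (Sum.inl t :: α) (t :: w)
  | inr {α : List (T ⊕ N)} {u w : List T} {D : N} (hD : Der G D σ u) (h : DerW G σ α w) :
      DerW G σ (Sum.inr D :: α) (u ++ w)

theorem DerW.append {G : Gr T N F} {σ : List F} {α β : List (T ⊕ N)} {u v : List T}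
    (h1 : DerW G σ α u) (h2 : DerW G σ β v) : DerW G σ (α ++ β) (u ++ v) := by
  induction h1 with
  | nil => simpa using h2
  | inl t _ ih => exact DerW.inl t ih
  | inr hD _ ih => rw [List.append_assoc]; exact DerW.inr hD ih

theorem DerW.split {G : Gr T N F} {σ : List F} (α : List (T ⊕ N)) {β : List (T ⊕ N)}
    {w : List T} (h : DerW G σ (α ++ β) w) :
    ∃ u v, w = u ++ v ∧ DerW G σ α u ∧ DerW G σ β v := by
  induction α generalizing w with
  | nil => exact ⟨[], w, rfl, DerW.nil, h⟩
  | cons x α ih =>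
    rw [List.cons_append] at h
    cases h with
    | inl t h =>
      obtain ⟨u, v, rfl, h1, h2⟩ := ih h
      exact ⟨t :: u, v, rfl, DerW.inl t h1, h2⟩
    | @inr _ u0 _ D hD h =>
      obtain ⟨u, v, rfl, h1, h2⟩ := ih h
      exact ⟨u0 ++ u, v, by simp, DerW.inr hD h1, h2⟩

theorem Fd.der {G : Gr T N F} {A : N} {ρ : List F} {α : List (T ⊕ N)} (h : Fd G A ρ α)
    {σ : List F} : ∀ {w : List T}, DerW G σ α w → Der G A (ρ ++ σ) w := by
  induction h with
  | here A =>
    intro w hw
    cases hw with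
    | inr hD h =>
      cases h
      simpa using hD
  | eps h ρ => intro w hw; cases hw; exact Der.eps h _
  | term h ρ =>
    intro w hw
    cases hw with
    | inl t h1 => cases h1; exact Der.term h _
  | bin h _ _ ih1 ih2 =>
    intro w hw
    obtain ⟨u, v, rfl, h1, h2⟩ := hw.split
    exact Der.bin h (ih1 h1) (ih2 h2)
  | push h _ ih => intro w hw; exact Der.push h (ih hw)
  | pop h _ ih => intro w hw; exact Der.pop h (ih hw)

theorem Der.fd {G : Gr T N F} {A : N} {τ : List F} {w : List T} (h : Der G A τ w) :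
    ∀ (ρ σ : List F), τ = ρ ++ σ → ∃ α, Fd G A ρ α ∧ DerW G σ α w := by
  induction h with
  | eps h1 τ => intro ρ σ _; exact ⟨[], Fd.eps h1 ρ, DerW.nil⟩
  | @term A t h1 τ => intro ρ σ _; exact ⟨[Sum.inl t], Fd.term h1 ρ, DerW.inl t DerW.nil⟩
  | bin h1 _ _ ih1 ih2 =>
    intro ρ σ hτ
    obtain ⟨α, a1, a2⟩ := ih1 ρ σ hτ
    obtain ⟨β, b1, b2⟩ := ih2 ρ σ hτ
    exact ⟨α ++ β, Fd.bin h1 a1 b1, a2.append b2⟩
  | @push A B f τ u h1 _ ih =>
    intro ρ σ hτ
    obtain ⟨α, a1, a2⟩ := ih (f :: ρ) σ (by rw [hτ]; rfl)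
    exact ⟨α, Fd.push h1 a1, a2⟩
  | @pop A B f τ u h1 hu ih =>
    intro ρ σ hτ
    cases ρ with
    | nil =>
      rw [List.nil_append] at hτ
      subst hτ
      refine ⟨[Sum.inr A], Fd.here A, ?_⟩
      have := DerW.inr (Der.pop h1 hu) (DerW.nil (G := G) (σ := f :: τ))
      simpa using this
    | cons g ρ =>
      rw [List.cons_append, List.cons.injEq] at hτ
      obtain ⟨rfl, hτ⟩ := hτ
      obtain ⟨α, a1, a2⟩ := ih ρ σ hτ
      exact ⟨α, Fd.pop h1 a1, a2⟩

/-- substitute words for the nonterminals -/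
def sub (V : N → List T) (α : List (T ⊕ N)) : List T := α.flatMap (Sum.elim (fun t => [t]) V)

theorem sub_derW {G : Gr T N F} {σ : List F} {V : N → List T} (α : List (T ⊕ N))
    (h : ∀ D, Sum.inr D ∈ α → Der G D σ (V D)) : DerW G σ α (sub V α) := by
  induction α with
  | nil => exact DerW.nil
  | cons x α ih =>
    have h2 := ih (fun D hD => h D (by simp [hD]))
    cases x with
    | inl t =>
      have : sub V (Sum.inl t :: α) = t :: sub V α := by simp [sub]
      rw [this]
      exact DerW.inl t h2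
    | inr D =>
      have : sub V (Sum.inr D :: α) = V D ++ sub V α := by simp [sub]
      rw [this]
      exact DerW.inr (h D (by simp)) h2

theorem DerW.prod {G : Gr T N F} {σ : List F} {α : List (T ⊕ N)} {w : List T}
    (h : DerW G σ α w) : ∀ D, Sum.inr D ∈ α → ∃ y, Der G D σ y := by
  induction h with
  | nil => intro D hD; simp at hD
  | inl t _ ih =>
    intro D hD
    rcases List.mem_cons.1 hD with hD | hD
    · simp at hD
    · exact ih D hD
  | @inr α u w D' hD' _ ih =>
    intro D hD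
    rcases List.mem_cons.1 hD with hD | hD
    · rw [Sum.inr.injEq] at hD
      subst hD
      exact ⟨u, hD'⟩
    · exact ih D hD

theorem DerW.sub_le {G : Gr T N F} {σ : List F} {V : N → List T} {α : List (T ⊕ N)}
    {w : List T} (h : DerW G σ α w) (hV : ∀ D y, Der G D σ y → (V D).length ≤ y.length) :
    (sub V α).length ≤ w.length := by
  induction h with
  | nil => simp [sub]
  | @inl α w t _ ih =>
    have : sub V (Sum.inl t :: α) = t :: sub V α := by simp [sub]
    rw [this, List.length_cons, List.length_cons]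
    omega
  | @inr α u w D hD _ ih =>
    have : sub V (Sum.inr D :: α) = V D ++ sub V α := by simp [sub]
    rw [this, List.length_append, List.length_append]
    have := hV D u hD
    omega

/-- Parikh vectors -/
noncomputable def Pk (α : List (T ⊕ N)) : Option N → ℕ := by
  classical
  exact fun o => match o with
    | none => (α.filter (fun x => x.isLeft)).length
    | some D => (α.filter (fun x => decide (x = Sum.inr D))).length

theorem sub_length [Fintype N] (V : N → List T) (α : List (T ⊕ N)) :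
    (sub V α).length = Pk α none + ∑ D, Pk α (some D) * (V D).length := by
  classical
  induction α with
  | nil => simp [sub, Pk]
  | cons x α ih =>
    cases x with
    | inl t =>
      have h1 : sub V (Sum.inl t :: α) = t :: sub V α := by simp [sub]
      have h2 : Pk (Sum.inl t :: α) none = Pk (N := N) α none + 1 := by simp [Pk]
      have h3 : ∀ D : N, Pk (Sum.inl t :: α) (some D) = Pk α (some D) := by
        intro D; simp [Pk]
      rw [h1, List.length_cons, ih, h2]
      simp only [h3]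
      ring
    | inr E =>
      have h1 : sub V (Sum.inr E :: α) = V E ++ sub V α := by simp [sub]
      have h2 : Pk (Sum.inr E :: α) none = Pk α none := by simp [Pk]
      have h3 : ∀ D : N, Pk (Sum.inr E :: α) (some D) * (V D).length =
          Pk α (some D) * (V D).length + if D = E then (V D).length else 0 := by
        intro D
        by_cases hD : D = E
        · subst hD; simp [Pk, Nat.add_mul]
        · have : ¬ (E = D) := fun h => hD h.symm
          simp [Pk, hD, this]
      rw [h1, List.length_append, ih, h2]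
      simp only [h3, Finset.sum_add_distrib]
      simp
      ring

theorem Pk_mem {α : List (T ⊕ N)} (D : N) : Sum.inr D ∈ α ↔ 0 < Pk α (some D) := by
  classical
  simp only [Pk, List.length_pos_iff_exists_mem, List.mem_filter, decide_eq_true_eq]
  constructor
  · intro h; exact ⟨_, h, rfl⟩
  · rintro ⟨_, h, rfl⟩; exact h

theorem Pk_mono [Finite N] {α β : List (T ⊕ N)} (h : Pk β ≤ Pk α) (V : N → List T) :
    (sub V β).length ≤ (sub V α).length := by
  classical
  have := Fintype.ofFinite N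
  rw [sub_length, sub_length]
  apply Nat.add_le_add (h none)
  apply Finset.sum_le_sum
  intro D _
  exact Nat.mul_le_mul_right _ (h (some D))

theorem dickson {ι α : Type} [Finite ι] (P : α → ι → ℕ) (S : Set α) :
    ∃ Φ ⊆ S, Φ.Finite ∧ ∀ a ∈ S, ∃ b ∈ Φ, P b ≤ P a := by
  classical
  rcases isEmpty_or_nonempty α with hα | hα
  · exact ⟨∅, by simp, by simp, fun a => hα.elim a⟩
  set I : Set (ι → ℕ) := P '' S with hI
  set Mn : Set (ι → ℕ) := {x | Minimal (· ∈ I) x} with hMn
  have hanti : IsAntichain (· ≤ ·) Mn := by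
    intro x hx y hy hne hle
    exact hne (le_antisymm hle (hy.2 hx.1 hle))
  have hfin : Mn.Finite :=
    hanti.finite_of_partiallyWellOrderedOn (Set.isPWO_of_wellQuasiOrderedLE _)
  have hch : ∀ x : ι → ℕ, x ∈ Mn → ∃ a, a ∈ S ∧ P a = x := fun x hx => hx.1
  choose! g hg using hch
  refine ⟨g '' Mn, ?_, hfin.image g, ?_⟩
  · rintro _ ⟨x, hx, rfl⟩; exact (hg x hx).1
  · intro a ha
    obtain ⟨x, hxa, hx⟩ := exists_minimal_le_of_wellFoundedLT (· ∈ I) (P a) ⟨a, ha, rfl⟩
    exact ⟨g x, ⟨x, hx, rfl⟩, by rw [(hg x hx).2]; exact hxa⟩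

section tables

variable {Ω : Set (List (T ⊕ N))}

/-- Tables: an optional flag and a word of `Ω` for every nonterminal. -/
abbrev TabL (F : Type) (Ω : Set (List (T ⊕ N))) : Type :=
  Option F × {h : N → List (T ⊕ N) // ∀ D, h D ∈ Ω}

/-- the action of a table on letters -/
def act1 (x : TabL F Ω) : T ⊕ N → List (T ⊕ N)
  | Sum.inl t => [Sum.inl t]
  | Sum.inr D => x.2.1 D

/-- Valid sequences of tables for a stack. -/
inductive Val (G : Gr T N F) : List (TabL F Ω) → List F → Prop
  | bot (x : TabL F Ω) (hx : x.1 = none)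
      (h : ∀ D, (∃ y, Der G D [] y) → ∃ w, x.2.1 D = w.map Sum.inl ∧ Der G D [] w) :
      Val G [x] []
  | cons (x : TabL F Ω) (f : F) (hx : x.1 = some f) {r : List (TabL F Ω)} {σ : List F}
      (hr : Val G r σ)
      (h : ∀ D, (∃ y, Der G D (f :: σ) y) → Fd G D [f] (x.2.1 D) ∧
        ∀ E, Sum.inr E ∈ x.2.1 D → ∃ y, Der G E σ y) :
      Val G (x :: r) (f :: σ)

theorem Val.func {G : Gr T N F} {r : List (TabL F Ω)} {σ : List F} (h : Val G r σ) :
    ∀ {σ' : List F}, Val G r σ' → σ = σ' := by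
  induction h with
  | bot x hx _ =>
    intro σ' h'
    cases h' with
    | bot => rfl
    | cons _ f hx' hr _ => rw [hx] at hx'; simp at hx'
  | cons x f hx _ _ ih =>
    intro σ' h'
    cases h' with
    | bot _ hx' _ => rw [hx] at hx'; simp at hx'
    | cons _ f' hx' hr _ =>
      rw [hx, Option.some.injEq] at hx'
      subst hx'
      rw [ih hr]

theorem run_inl (r : List (TabL F Ω)) (t : T) :
    run act1 r [(Sum.inl t : T ⊕ N)] = [Sum.inl t] := by
  induction r with
  | nil => rfl
  | cons x r ih => simpa [run, act1] using ih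

theorem run_words {G : Gr T N F} {σ : List F} (r : List (TabL F Ω))
    (h : ∀ D, (∃ y, Der G D σ y) → ∃ w, run act1 r [Sum.inr D] = w.map Sum.inl ∧ Der G D σ w)
    (α : List (T ⊕ N)) (hα : ∀ D, Sum.inr D ∈ α → ∃ y, Der G D σ y) :
    ∃ w, run act1 r α = w.map Sum.inl ∧ DerW G σ α w := by
  induction α with
  | nil => exact ⟨[], by rw [run_nil]; rfl, DerW.nil⟩
  | cons x α ih =>
    obtain ⟨w, h1, h2⟩ := ih (fun D hD => hα D (by simp [hD]))
    have e : x :: α = [x] ++ α := rfl
    rw [e, run_word, h1]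
    cases x with
    | inl t =>
      refine ⟨t :: w, ?_, DerW.inl t h2⟩
      rw [run_inl]
      simp
    | inr D =>
      obtain ⟨u, u1, u2⟩ := h D (hα D (by simp))
      refine ⟨u ++ w, ?_, DerW.inr u2 h2⟩
      rw [u1]
      simp

theorem Val.out {G : Gr T N F} {r : List (TabL F Ω)} {σ : List F} (h : Val G r σ) :
    ∀ D, (∃ y, Der G D σ y) → ∃ w, run act1 r [Sum.inr D] = w.map Sum.inl ∧ Der G D σ w := by
  induction h with
  | bot x hx h =>
    intro D hD
    obtain ⟨w, h1, h2⟩ := h D hD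
    exact ⟨w, by simp [run, act1, h1], h2⟩
  | @cons x f hx r σ _ h ih =>
    intro D hD
    obtain ⟨h1, h2⟩ := h D hD
    obtain ⟨w, w1, w2⟩ := run_words r ih _ h2
    refine ⟨w, ?_, h1.der w2⟩
    have : run act1 (x :: r) [Sum.inr D] = run act1 r (x.2.1 D) := by simp [run, act1]
    rw [this, w1]

/-- productive nonterminals -/
def PS (G : Gr T N F) (σ : List F) : Set N := {D | ∃ y, Der G D σ y}

/-- live nonterminals -/
def LS (G : Gr T N F) (S : N) (σ : List F) : Set N := {D | Live G S D σ}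

theorem PS_append {G : Gr T N F} {σ σ' : List F} (h : PS G σ = PS G σ') (ρ : List F) :
    PS G (ρ ++ σ) = PS G (ρ ++ σ') := by
  ext D
  constructor
  · intro hD
    exact prod_transfer (fun E hE => by
      have : E ∈ PS G σ := hE
      rw [h] at this; exact this) ρ D hD
  · intro hD
    exact prod_transfer (fun E hE => by
      have : E ∈ PS G σ' := hE
      rw [← h] at this; exact this) ρ D hD

theorem LS_append {G : Gr T N F} {S : N} {σ σ' : List F} (h : PS G σ = PS G σ')
    (hl : LS G S σ = LS G S σ') (ρ : List F) : LS G S (ρ ++ σ) = LS G S (ρ ++ σ') := by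
  ext D
  constructor
  · intro hD
    exact live_transfer (fun E hE => by
      have : E ∈ PS G σ := hE
      rw [h] at this; exact this) (fun E hE => by
      have : E ∈ LS G S σ := hE
      rw [hl] at this; exact this) ρ D hD
  · intro hD
    exact live_transfer (fun E hE => by
      have : E ∈ PS G σ' := hE
      rw [← h] at this; exact this) (fun E hE => by
      have : E ∈ LS G S σ' := hE
      rw [← hl] at this; exact this) ρ D hD

theorem Val.exch {G : Gr T N F} {s s' : List (TabL F Ω)} {σ σ' : List F}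
    (hs : Val G s σ) (hs' : Val G s' σ') (h : PS G σ = PS G σ') :
    ∀ (r : List (TabL F Ω)) (τ' : List F), Val G (r ++ s') τ' →
      ∃ ρ, τ' = ρ ++ σ' ∧ Val G (r ++ s) (ρ ++ σ)
  | [], τ', hτ => ⟨[], by rw [List.nil_append]; exact (hτ.func hs'), by simpa using hs⟩
  | x :: r, τ', hτ => by
    rw [List.cons_append] at hτ
    generalize hq : r ++ s' = q at hτ
    cases hτ with
    | bot =>
      have : s' = [] := (List.append_eq_nil_iff.1 hq).2
      subst this
      cases hs'
    | @cons _ f hx _ τ'' hr hc =>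
      subst hq
      obtain ⟨ρ, rfl, h2⟩ := Val.exch hs hs' h r τ'' hr
      refine ⟨f :: ρ, rfl, ?_⟩
      rw [List.cons_append, List.cons_append]
      refine Val.cons x f hx h2 ?_
      intro D hD
      have e1 : PS G ((f :: ρ) ++ σ) = PS G ((f :: ρ) ++ σ') := PS_append h _
      have hD' : D ∈ PS G ((f :: ρ) ++ σ) := hD
      rw [e1] at hD'
      obtain ⟨c1, c2⟩ := hc D hD'
      refine ⟨c1, fun E hE => ?_⟩
      have hE' : E ∈ PS G (ρ ++ σ') := c2 E hE
      rw [← PS_append h ρ] at hE'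
      exact hE'

/-- The sequences of tables for live productive nodes with nonterminal `A`. -/
def RA (Ω : Set (List (T ⊕ N))) (G : Gr T N F) (S A : N) : Language (TabL F Ω) :=
  {r | ∃ σ, Val G r σ ∧ A ∈ LS G S σ ∧ A ∈ PS G σ}

theorem RA_exch {G : Gr T N F} {S A : N} {s s' : List (TabL F Ω)} {σ σ' : List F}
    (hs : Val G s σ) (hs' : Val G s' σ') (h : PS G σ = PS G σ') (hl : LS G S σ = LS G S σ')
    (r : List (TabL F Ω)) (hr : r ++ s' ∈ RA Ω G S A) : r ++ s ∈ RA Ω G S A := by
  obtain ⟨τ', h1, h2, h3⟩ := hr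
  obtain ⟨ρ, rfl, h4⟩ := hs.exch hs' h r τ' h1
  refine ⟨ρ ++ σ, h4, ?_, ?_⟩
  · rw [LS_append h hl ρ]; exact h2
  · rw [PS_append h ρ]; exact h3

theorem Val.suffix {G : Gr T N F} : ∀ (r : List (TabL F Ω)) {s : List (TabL F Ω)} {τ : List F},
    Val G (r ++ s) τ → s ≠ [] → ∃ σ, Val G s σ
  | [], s, τ, h, _ => ⟨τ, h⟩
  | x :: r, s, τ, h, hs => by
    rw [List.cons_append] at h
    generalize hq : r ++ s = q at h
    cases h with
    | bot => exact absurd (List.append_eq_nil_iff.1 hq).2 hs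
    | cons _ f hx hr _ =>
      subst hq
      exact Val.suffix r hr hs

theorem RA_regular [Finite N] (G : Gr T N F) (S A : N) : (RA Ω G S A).IsRegular := by
  classical
  apply Language.IsRegular.of_finite_range_leftQuotient
  -- the invariant of a sequence
  let g : List (TabL F Ω) → Set (Set N × Set N) × Prop := fun r =>
    ({τ | ∃ s σ, Val G s σ ∧ (PS G σ, LS G S σ) = τ ∧ r ++ s ∈ RA Ω G S A}, r ∈ RA Ω G S A)
  have hg : ∀ r r', g r = g r' → ∀ s, s ∈ (RA Ω G S A).leftQuotient r →
      s ∈ (RA Ω G S A).leftQuotient r' := by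
    intro r r' he s hs
    rw [Language.mem_leftQuotient] at hs ⊢
    have e1 := congrArg Prod.fst he
    have e2 := congrArg Prod.snd he
    simp only [g] at e1 e2
    rcases eq_or_ne s [] with rfl | hne
    · rw [List.append_nil] at hs ⊢
      exact e2 ▸ hs
    · obtain ⟨τ, h1, h2, h3⟩ := hs
      obtain ⟨σ, hσ⟩ := Val.suffix r h1 hne
      have hmem : (PS G σ, LS G S σ) ∈ {τ | ∃ s σ, Val G s σ ∧ (PS G σ, LS G S σ) = τ ∧
          r ++ s ∈ RA Ω G S A} := ⟨s, σ, hσ, rfl, τ, h1, h2, h3⟩
      rw [e1] at hmem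
      obtain ⟨s', σ', k1, k2, k3⟩ := hmem
      rw [Prod.mk.injEq] at k2
      exact RA_exch hσ k1 k2.1.symm k2.2.symm r' k3
  have hfin : (Set.range g).Finite := Set.toFinite _
  have hch : ∀ z ∈ Set.range g, ∃ r, g r = z := fun z hz => hz
  choose! c hc using hch
  apply (hfin.image (fun z => (RA Ω G S A).leftQuotient (c z))).subset
  rintro _ ⟨r, rfl⟩
  refine ⟨g r, ⟨r, rfl⟩, ?_⟩
  have e := hc (g r) ⟨r, rfl⟩
  apply le_antisymm
  · exact fun s hs => hg _ _ e s hs
  · exact fun s hs => hg _ _ e.symm s hs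

/-- The words produced by the sequences of tables. -/
def KA (Ω : Set (List (T ⊕ N))) (G : Gr T N F) (S A : N) : Set (List T) :=
  {w | ∃ r ∈ RA Ω G S A, run act1 r [Sum.inr A] = w.map Sum.inl}

theorem KA_EDT0L [Finite T] [Finite N] [Finite F] (hΩ : Ω.Finite) (G : Gr T N F) (S A : N) :
    IsEDT0L (KA Ω G S A) := by
  classical
  have f1 : Fintype (T ⊕ N) := Fintype.ofFinite _
  have f2 : Finite {h : N → List (T ⊕ N) // ∀ D, h D ∈ Ω} := by
    have : {h : N → List (T ⊕ N) | ∀ D, h D ∈ Ω}.Finite := by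
      have := Set.Finite.pi' (t := fun _ : N => Ω) (fun _ => hΩ)
      exact this
    exact this.to_subtype
  have f3 : Fintype (TabL F Ω) := Fintype.ofFinite _
  exact ⟨T ⊕ N, TabL F Ω, f1, f3, Sum.inl, act1, Sum.inr A, RA Ω G S A, Sum.inl_injective,
    RA_regular G S A, rfl⟩

theorem KA_sub (G : Gr T N F) (S A : N) {w : List T} (hw : w ∈ KA Ω G S A) :
    ∃ σ, Live G S A σ ∧ Der G A σ w := by
  obtain ⟨r, ⟨σ, h1, h2, h3⟩, h4⟩ := hw
  obtain ⟨w', a1, a2⟩ := h1.out A h3
  rw [h4] at a1
  have : w = w' := List.map_injective_iff.2 Sum.inl_injective a1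
  subst this
  exact ⟨σ, h2, a2⟩

end tables

/-- every word derived has a shortest word -/
theorem exists_shortest {G : Gr T N F} {D : N} {σ : List F} (h : ∃ y, Der G D σ y) :
    ∃ w, Der G D σ w ∧ ∀ y, Der G D σ y → w.length ≤ y.length := by
  classical
  have hex : ∃ n, ∃ w, Der G D σ w ∧ w.length = n := by
    obtain ⟨y, hy⟩ := h
    exact ⟨_, y, hy, rfl⟩
  obtain ⟨w, hw, hl⟩ := Nat.find_spec hex
  refine ⟨w, hw, fun y hy => ?_⟩
  rw [hl]
  exact Nat.find_min' hex ⟨y, hy, rfl⟩

theorem exists_tables [Finite T] [Finite N] [Finite F] (G : Gr T N F) :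
    ∃ Ω : Set (List (T ⊕ N)), Ω.Finite ∧ ∀ σ : List F, ∃ r : List (TabL F Ω), Val G r σ ∧
      ∀ D, (∃ y, Der G D σ y) → ∀ w : List T, run act1 r [Sum.inr D] = w.map Sum.inl →
        ∀ y, Der G D σ y → w.length ≤ y.length := by
  classical
  -- the finite sets of frontier words
  have hΦ : ∀ D : N, ∀ f : F, ∃ Φ ⊆ {α : List (T ⊕ N) | Fd G D [f] α}, Φ.Finite ∧
      ∀ a ∈ {α : List (T ⊕ N) | Fd G D [f] α}, ∃ b ∈ Φ, Pk b ≤ Pk a :=
    fun D f => dickson Pk _
  choose Φ hΦ1 hΦ2 hΦ3 using hΦ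
  -- bottom words
  have hV0 : ∀ D : N, ∃ w : List T, (∃ y, Der G D [] y) →
      Der G D [] w ∧ ∀ y, Der G D [] y → w.length ≤ y.length := by
    intro D
    by_cases h : ∃ y, Der G D [] y
    · obtain ⟨w, hw⟩ := exists_shortest h
      exact ⟨w, fun _ => hw⟩
    · exact ⟨[], fun h' => absurd h' h⟩
  choose V0 hV0 using hV0
  set Ω : Set (List (T ⊕ N)) := {[]} ∪ Set.range (fun D => (V0 D).map Sum.inl) ∪
    ⋃ D, ⋃ f, Φ D f with hΩ
  have hΩfin : Ω.Finite := by
    apply Set.Finite.union
    · exact (Set.finite_singleton _).union (Set.finite_range _)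
    · exact Set.finite_iUnion (fun D => Set.finite_iUnion (fun f => hΦ2 D f))
  refine ⟨Ω, hΩfin, fun σ => ?_⟩
  induction σ with
  | nil =>
    let x : TabL F Ω := (none, ⟨fun D => (V0 D).map Sum.inl, fun D => by
      left; right; exact ⟨D, rfl⟩⟩)
    refine ⟨[x], Val.bot x rfl (fun D hD => ⟨V0 D, rfl, (hV0 D hD).1⟩), ?_⟩
    intro D hD w hw y hy
    have : run act1 [x] [Sum.inr D] = (V0 D).map Sum.inl := by simp [run, act1, x]
    rw [this] at hw
    have : V0 D = w := List.map_injective_iff.2 Sum.inl_injective hw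
    rw [← this]
    exact (hV0 D hD).2 y hy
  | cons f σ ih =>
    obtain ⟨r, hr, hmin⟩ := ih
    -- the words of the nonterminals at `σ`
    have hV : ∀ D : N, ∃ w : List T, (∃ y, Der G D σ y) →
        run act1 r [Sum.inr D] = w.map Sum.inl ∧ Der G D σ w := by
      intro D
      by_cases h : ∃ y, Der G D σ y
      · obtain ⟨w, hw⟩ := hr.out D h
        exact ⟨w, fun _ => hw⟩
      · exact ⟨[], fun h' => absurd h' h⟩
    choose V hV using hV
    -- the words of the table
    have hβ : ∀ D : N, ∃ β ∈ Ω, (∃ y, Der G D (f :: σ) y) →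
        Fd G D [f] β ∧ (∀ E, Sum.inr E ∈ β → ∃ y, Der G E σ y) ∧
        ∀ y, Der G D (f :: σ) y → (sub V β).length ≤ y.length := by
      intro D
      by_cases h : ∃ y, Der G D (f :: σ) y
      · obtain ⟨w, hw, hwm⟩ := exists_shortest h
        obtain ⟨α, a1, a2⟩ := hw.fd [f] σ rfl
        obtain ⟨β, b1, b2⟩ := hΦ3 D f α a1
        refine ⟨β, ?_, fun _ => ⟨hΦ1 D f b1, ?_, ?_⟩⟩
        · right
          exact Set.mem_iUnion.2 ⟨D, Set.mem_iUnion.2 ⟨f, b1⟩⟩
        · intro E hE
          apply a2.prod E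
          rw [Pk_mem] at hE ⊢
          exact lt_of_lt_of_le hE (b2 (some E))
        · intro y hy
          refine le_trans (le_trans (Pk_mono b2 V) ?_) (hwm y hy)
          apply a2.sub_le
          intro E z hz
          exact hmin E ⟨z, hz⟩ (V E) (hV E ⟨z, hz⟩).1 z hz
      · exact ⟨[], by left; left; rfl, fun h' => absurd h' h⟩
    choose β hβ1 hβ2 using hβ
    let x : TabL F Ω := (some f, ⟨β, hβ1⟩)
    have hval : Val G (x :: r) (f :: σ) := by
      refine Val.cons x f rfl hr ?_
      intro D hD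
      exact ⟨(hβ2 D hD).1, (hβ2 D hD).2.1⟩
    refine ⟨x :: r, hval, ?_⟩
    intro D hD w hw y hy
    have h1 : run act1 (x :: r) [Sum.inr D] = run act1 r (β D) := by simp [run, act1, x]
    have h2 : ∀ γ : List (T ⊕ N), (∀ E, Sum.inr E ∈ γ → ∃ y, Der G E σ y) →
        run act1 r γ = (sub V γ).map Sum.inl := by
      intro γ
      induction γ with
      | nil => intro _; rw [run_nil]; rfl
      | cons z γ ihγ =>
        intro hγ
        have e : z :: γ = [z] ++ γ := rfl
        have e2 := ihγ (fun E hE => hγ E (by simp [hE]))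
        rw [e, run_word, e2]
        cases z with
        | inl t => rw [run_inl]; simp [sub]
        | inr E =>
          rw [(hV E (hγ E (by simp))).1]
          simp [sub]
    rw [h1, h2 _ (hβ2 D hD).2.1] at hw
    have : sub V (β D) = w := List.map_injective_iff.2 Sum.inl_injective hw
    rw [← this]
    exact (hβ2 D hD).2.2 y hy

/-- M3: the shortest words. -/
theorem min_words [Finite T] [Finite N] [Finite F] {Γ : Type} [Group Γ]
    (htors : ∀ g : Γ, ∃ n : ℕ, 0 < n ∧ g ^ n = 1) (ev : T → Γ) (G : Gr T N F) (S : N)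
    (hfin : ∀ A : N, ∀ g : Γ,
      {y | (∃ σ, Live G S A σ ∧ Der G A σ y) ∧ (y.map ev).prod = g}.Finite) :
    ∃ M : Set (List T), (∃ k D : ℕ, ∀ n : ℕ, {y | y ∈ M ∧ y.length ≤ n}.Finite ∧
        {y | y ∈ M ∧ y.length ≤ n}.ncard ≤ 2 ^ (D * (Nat.log 2 n + 1) ^ k)) ∧
      ∀ A σ, Live G S A σ → (∃ y, Der G A σ y) →
        ∃ V ∈ M, Der G A σ V ∧ ∀ y, Der G A σ y → V.length ≤ y.length := by
  classical
  have fN : Fintype N := Fintype.ofFinite N
  obtain ⟨Ω, hΩ, htab⟩ := exists_tables G
  refine ⟨⋃ A, KA Ω G S A, ?_, ?_⟩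
  · have hgr : ∀ A : N, ∃ k D : ℕ, ∀ n : ℕ, {w | w ∈ KA Ω G S A ∧ w.length ≤ n}.Finite ∧
        {w | w ∈ KA Ω G S A ∧ w.length ≤ n}.ncard ≤ 2 ^ (D * (Nat.log 2 n + 1) ^ k) := by
      intro A
      apply growth_EDT0L htors ev (KA Ω G S A) (KA_EDT0L hΩ G S A)
      intro g
      apply (hfin A g).subset
      rintro w ⟨hw, hg⟩
      exact ⟨KA_sub G S A hw, hg⟩
    choose k D hkD using hgr
    refine ⟨∑ A, k A, Fintype.card N + ∑ A, D A, fun n => ⟨List.finite_length_le T n |>.subset
      (fun y hy => hy.2), ?_⟩⟩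
    have hL : 1 ≤ Nat.log 2 n + 1 := by omega
    have hsub : {y | y ∈ ⋃ A, KA Ω G S A ∧ y.length ≤ n} ⊆
        ⋃ A ∈ (Finset.univ : Finset N), {w | w ∈ KA Ω G S A ∧ w.length ≤ n} := by
      rintro y ⟨hy, hyn⟩
      obtain ⟨A, hA⟩ := Set.mem_iUnion.1 hy
      simp only [Set.mem_iUnion]
      exact ⟨A, Finset.mem_univ A, hA, hyn⟩
    have hf : (⋃ A ∈ (Finset.univ : Finset N), {w | w ∈ KA Ω G S A ∧ w.length ≤ n}).Finite := by
      apply (List.finite_length_le T n).subset
      intro y hy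
      simp only [Set.mem_iUnion] at hy
      obtain ⟨A, -, -, hA⟩ := hy
      exact hA
    calc {y | y ∈ ⋃ A, KA Ω G S A ∧ y.length ≤ n}.ncard
        ≤ (⋃ A ∈ (Finset.univ : Finset N), {w | w ∈ KA Ω G S A ∧ w.length ≤ n}).ncard :=
          Set.ncard_le_ncard hsub hf
      _ ≤ ∑ A : N, {w | w ∈ KA Ω G S A ∧ w.length ≤ n}.ncard :=
          Finset.set_ncard_biUnion_le _ _
      _ ≤ ∑ A : N, 2 ^ ((∑ A, D A) * (Nat.log 2 n + 1) ^ (∑ A, k A)) := by
          apply Finset.sum_le_sum
          intro A _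
          refine le_trans (hkD A n).2 (Nat.pow_le_pow_right (by norm_num) ?_)
          apply Nat.mul_le_mul
          · exact Finset.single_le_sum (f := D) (fun _ _ => Nat.zero_le _) (Finset.mem_univ A)
          · apply Nat.pow_le_pow_right hL
            exact Finset.single_le_sum (f := k) (fun _ _ => Nat.zero_le _) (Finset.mem_univ A)
      _ = Fintype.card N * 2 ^ ((∑ A, D A) * (Nat.log 2 n + 1) ^ (∑ A, k A)) := by
          rw [Finset.sum_const, Finset.card_univ, smul_eq_mul]
      _ ≤ 2 ^ Fintype.card N * 2 ^ ((∑ A, D A) * (Nat.log 2 n + 1) ^ (∑ A, k A)) :=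
          Nat.mul_le_mul_right _ (Nat.lt_two_pow_self).le
      _ ≤ 2 ^ ((Fintype.card N + ∑ A, D A) * (Nat.log 2 n + 1) ^ (∑ A, k A)) := by
          rw [← pow_add]
          apply Nat.pow_le_pow_right (by norm_num)
          rw [Nat.add_mul]
          apply Nat.add_le_add_right
          exact Nat.le_mul_of_pos_right _ (by positivity)
  · intro A σ hl hp
    obtain ⟨r, hr, hmin⟩ := htab σ
    obtain ⟨w, h1, h2⟩ := hr.out A hp
    exact ⟨w, Set.mem_iUnion.2 ⟨A, r, ⟨σ, hr, hl, hp⟩, h1⟩, h2, hmin A hp w h1⟩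

end Pool.Agent.H51.IGN
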