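import Pool.Agent.H51.IGN.M2

/-! Spines: a descending path in a derivation from a live node to a productive node, all side
branches of which have output of length `< h`, has bounded total side output. -/

namespace Pool.Agent.H51.IGN

namespace Sp

/-- the abstract nesting argument -/
theorem nest_bound {Node Lab : Type*} [Finite Lab] (lab : Node → Lab) (W : Node → ℕ)
    (R : Node → Node → Prop) (htr : ∀ a b c, R a b → R b c → R a c)
    (hne : ∀ a b, R a b → lab a ≠ lab b) (c : ℕ)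
    (hstep : ∀ a, c < W a → ∃ b, R a b ∧ W a ≤ 2 * W b + c) :
    ∃ H, ∀ a, W a ≤ H := by
  classical
  have key : ∀ k : ℕ, ∃ H, ∀ a (Q : Set Lab), Q.ncard ≤ k → (∀ b, R a b → lab b ∈ Q) → W a ≤ H := by
    intro k
    induction k with
    | zero =>
      refine ⟨c, fun a Q hQ hs => ?_⟩
      by_contra hc
      obtain ⟨b, hb, -⟩ := hstep a (not_le.1 hc)
      have h0 : Q = ∅ := (Set.ncard_eq_zero (Set.toFinite Q)).1 (Nat.le_zero.1 hQ)
      have := hs b hb
      rw [h0] at this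
      exact this
    | succ k ih =>
      obtain ⟨H, hH⟩ := ih
      refine ⟨2 * H + c, fun a Q hQ hs => ?_⟩
      by_cases hc : c < W a
      · obtain ⟨b, hb, hab⟩ := hstep a hc
        have hbQ := hs b hb
        have h1 : (Q \ {lab b}).ncard ≤ k := by
          rw [Set.ncard_sdiff_singleton_of_mem hbQ]
          omega
        have h2 := hH b (Q \ {lab b}) h1 (fun d hd => ⟨hs d (htr _ _ _ hb hd), fun he =>
          hne b d hd (by simpa using he.symm)⟩)
        omega
      · omega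
  obtain ⟨H, hH⟩ := key (Set.univ : Set Lab).ncard
  exact ⟨H, fun a => hH a Set.univ le_rfl (fun _ _ => Set.mem_univ _)⟩

variable {T N F : Type}

theorem pw_succ (p : List T) (j : ℕ) : pw p (j + 1) = p ++ pw p j := by
  simp [pw, List.replicate_succ]

theorem pw_zero (p : List T) : pw p 0 = [] := by simp [pw]

theorem pw_succ' (p : List T) (j : ℕ) : pw p (j + 1) = pw p j ++ p := by
  induction j with
  | zero => simp [pw]
  | succ j ih => rw [pw_succ, ih, ← List.append_assoc, ← pw_succ, ih]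

theorem PB_nil {G : Gr T N F} {S : N} (hPB : PB G S) {p : List T}
    (h : ∀ m, ∃ u v, Der G S [] (u ++ pw p m ++ v)) : p = [] := by
  by_contra hp
  obtain ⟨j, hj⟩ := hPB p hp
  obtain ⟨u, v, huv⟩ := h j
  exact hj _ huv ⟨u, v, rfl⟩

/-- the type of a stack: productive nonterminals, live nonterminals, short derived words -/
def typ (G : Gr T N F) (S : N) (h : ℕ) (σ : List F) :
    Set N × Set N × Set (N × {y : List T // y.length < h}) :=
  ({D | ∃ y, Der G D σ y}, {D | Live G S D σ}, {x | Der G x.1 σ x.2.1})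

theorem typ_eq {G : Gr T N F} {S : N} {h : ℕ} {σ σ' : List F} :
    typ G S h σ = typ G S h σ' ↔
      (∀ D, (∃ y, Der G D σ y) ↔ ∃ y, Der G D σ' y) ∧ (∀ D, Live G S D σ ↔ Live G S D σ') ∧
      ∀ D y, y.length < h → (Der G D σ y ↔ Der G D σ' y) := by
  unfold typ
  rw [Prod.mk.injEq, Prod.mk.injEq]
  constructor
  · rintro ⟨h1, h2, h3⟩
    refine ⟨fun D => ?_, fun D => ?_, fun D y hy => ?_⟩
    · exact Set.ext_iff.1 h1 D
    · exact Set.ext_iff.1 h2 D
    · exact Set.ext_iff.1 h3 (D, ⟨y, hy⟩)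
  · rintro ⟨h1, h2, h3⟩
    refine ⟨Set.ext fun D => h1 D, Set.ext fun D => h2 D, Set.ext fun x => h3 x.1 x.2.1 x.2.2⟩

theorem typ_append {G : Gr T N F} {S : N} {h : ℕ} {σ σ' : List F}
    (he : typ G S h σ = typ G S h σ') (ρ : List F) :
    typ G S h (ρ ++ σ) = typ G S h (ρ ++ σ') := by
  rw [typ_eq] at he ⊢
  obtain ⟨h1, h2, h3⟩ := he
  refine ⟨fun D => ⟨?_, ?_⟩, fun D => ⟨?_, ?_⟩, fun D y hy => ⟨?_, ?_⟩⟩
  · exact prod_transfer (fun D => (h1 D).1) ρ D
  · exact prod_transfer (fun D => (h1 D).2) ρ D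
  · exact live_transfer (fun D => (h1 D).1) (fun D => (h2 D).1) ρ D
  · exact live_transfer (fun D => (h1 D).2) (fun D => (h2 D).2) ρ D
  · exact small_transfer (fun D y hy => (h3 D y hy).1) ρ D y hy
  · exact small_transfer (fun D y hy => (h3 D y hy).2) ρ D y hy

theorem typ_pw {G : Gr T N F} {S : N} {h : ℕ} {σ ρ : List F}
    (he : typ G S h (ρ ++ σ) = typ G S h σ) (m : ℕ) :
    typ G S h (pw ρ m ++ σ) = typ G S h σ := by
  induction m with
  | zero => simp [pw_zero]
  | succ m ih =>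
    rw [pw_succ, List.append_assoc, typ_append ih ρ, he]

/-- `Sm G h σ σ'`: short words derived with the stack `σ` are derived with `σ'` -/
def Sm (G : Gr T N F) (h : ℕ) (σ σ' : List F) : Prop :=
  ∀ D y, y.length < h → Der G D σ y → Der G D σ' y

theorem Sm_of_typ {G : Gr T N F} {S : N} {h : ℕ} {σ σ' : List F}
    (he : typ G S h σ = typ G S h σ') : Sm G h σ σ' :=
  fun D y hy => ((typ_eq.1 he).2.2 D y hy).1

theorem Sm_append {G : Gr T N F} {h : ℕ} {σ σ' : List F} (hs : Sm G h σ σ') (ρ : List F) :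
    Sm G h (ρ ++ σ) (ρ ++ σ') := fun D y hy => small_transfer hs ρ D y hy

/-- paths which start and end on the level `σ` and never go below it -/
inductive E (G : Gr T N F) (h : ℕ) : N → List F → N → List T → List T → Prop
  | refl (A : N) (σ : List F) : E G h A σ A [] []
  | binL {A B C : N} {σ : List F} {z : List T} {A' : N} {X Y : List T}
      (hb : G.bin A B C) (hz : Der G C σ z) (hh : z.length < h)
      (hc : E G h B σ A' X Y) : E G h A σ A' X (Y ++ z)
  | binR {A B C : N} {σ : List F} {z : List T} {A' : N} {X Y : List T}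
      (hb : G.bin A B C) (hz : Der G B σ z) (hh : z.length < h)
      (hc : E G h C σ A' X Y) : E G h A σ A' (z ++ X) Y
  | mnt {A B C D : N} {f : F} {σ : List F} {A' : N} {X Y X' Y' : List T}
      (hp : G.push A B f) (h1 : E G h B (f :: σ) C X Y) (hq : G.pop C f D)
      (h2 : E G h D σ A' X' Y') : E G h A σ A' (X ++ X') (Y' ++ Y)

theorem E.der {G : Gr T N F} {h : ℕ} {A A' : N} {σ : List F} {X Y : List T}
    (he : E G h A σ A' X Y) {z : List T} (hz : Der G A' σ z) : Der G A σ (X ++ z ++ Y) := by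
  induction he generalizing z with
  | refl A σ => simpa using hz
  | binL hb hz' hh _ ih =>
    have := Der.bin hb (ih hz) hz'
    simpa [List.append_assoc] using this
  | binR hb hz' hh _ ih =>
    have := Der.bin hb hz' (ih hz)
    simpa [List.append_assoc] using this
  | mnt hp _ hq _ ih1 ih2 =>
    have := Der.push hp (ih1 (Der.pop hq (ih2 hz)))
    simpa [List.append_assoc] using this

theorem E.live {G : Gr T N F} {S : N} {h : ℕ} {A A' : N} {σ : List F} {X Y : List T}
    (he : E G h A σ A' X Y) (hl : Live G S A σ) : Live G S A' σ := by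
  induction he with
  | refl A σ => exact hl
  | binL hb hz' hh _ ih => exact ih (Live.binL hb hl ⟨_, hz'⟩)
  | binR hb hz' hh _ ih => exact ih (Live.binR hb hl ⟨_, hz'⟩)
  | mnt hp _ hq _ ih1 ih2 => exact ih2 (Live.pop hq (ih1 (Live.push hp hl)))

theorem E.comp {G : Gr T N F} {h : ℕ} {A B C : N} {σ : List F} {X Y X' Y' : List T}
    (he : E G h A σ B X Y) (he' : E G h B σ C X' Y') : E G h A σ C (X ++ X') (Y' ++ Y) := by
  induction he with
  | refl A σ => simpa using he'
  | binL hb hz' hh _ ih =>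
    have := E.binL hb hz' hh (ih he')
    simpa [List.append_assoc] using this
  | binR hb hz' hh _ ih =>
    have := E.binR hb hz' hh (ih he')
    simpa [List.append_assoc] using this
  | mnt hp h1 hq _ ih1 ih2 =>
    have := E.mnt hp h1 hq (ih2 he')
    simpa [List.append_assoc] using this

theorem E.transfer {G : Gr T N F} {h : ℕ} {A A' : N} {σ σ' : List F} {X Y : List T}
    (he : E G h A σ A' X Y) (hs : Sm G h σ σ') : E G h A σ' A' X Y := by
  induction he generalizing σ' with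
  | refl A σ => exact E.refl _ _
  | binL hb hz' hh _ ih => exact E.binL hb (hs _ _ hh hz') hh (ih hs)
  | binR hb hz' hh _ ih => exact E.binR hb (hs _ _ hh hz') hh (ih hs)
  | @mnt _ _ _ _ f _ _ _ _ _ _ hp _ hq _ ih1 ih2 =>
    exact E.mnt hp (ih1 (Sm_append hs [f])) hq (ih2 hs)

/-- nesting of level paths, uniformly in the stack -/
def Nest (G : Gr T N F) (h : ℕ) (A : N) (σ : List F) (A' B : N) (ρ : List F) (B' : N)
    (p q z r : List T) : Prop :=
  ∀ σ', Sm G h σ σ' → ∀ x y, E G h B (ρ ++ σ') B' x y →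
    E G h A σ' A' (p ++ x ++ q) (z ++ y ++ r)

theorem Nest.trans {G : Gr T N F} {h : ℕ} {A A' B B' C C' : N} {σ ρ ρ' : List F}
    {p q z r p' q' z' r' : List T} (h1 : Nest G h A σ A' B ρ B' p q z r)
    (h2 : Nest G h B (ρ ++ σ) B' C ρ' C' p' q' z' r') :
    Nest G h A σ A' C (ρ' ++ ρ) C' (p ++ p') (q' ++ q) (z ++ z') (r' ++ r) := by
  intro σ' hs x y he
  have h3 := h2 (ρ ++ σ') (Sm_append hs ρ) x y (by rwa [← List.append_assoc])
  have h4 := h1 σ' hs _ _ h3
  simpa [List.append_assoc] using h4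

/-- level paths between a live and a productive node -/
structure ENode (G : Gr T N F) (S : N) (h : ℕ) where
  A : N
  σ : List F
  A' : N
  X : List T
  Y : List T
  path : E G h A σ A' X Y
  live : Live G S A σ
  prod : ∃ z, Der G A' σ z

def ELab (N T : Type) (h : ℕ) : Type :=
  N × N × (Set N × Set N × Set (N × {y : List T // y.length < h}))

instance (h : ℕ) [Finite N] [Finite T] : Finite (ELab N T h) := by
  have : Finite {y : List T // y.length < h} := (List.finite_length_lt T h).to_subtype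
  unfold ELab
  infer_instance

def ENode.lab {G : Gr T N F} {S : N} {h : ℕ} (n : ENode G S h) : ELab N T h :=
  (n.A, n.A', typ G S h n.σ)

def ENode.W {G : Gr T N F} {S : N} {h : ℕ} (n : ENode G S h) : ℕ := n.X.length + n.Y.length

def ENode.R {G : Gr T N F} {S : N} {h : ℕ} (n n' : ENode G S h) : Prop :=
  ∃ (ρ : List F) (p q z r : List T), n'.σ = ρ ++ n.σ ∧ n.X = p ++ n'.X ++ q ∧
    n.Y = z ++ n'.Y ++ r ∧ ¬ (p = [] ∧ q = [] ∧ z = [] ∧ r = []) ∧
    Nest G h n.A n.σ n.A' n'.A ρ n'.A' p q z r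

theorem ENode.R_trans {G : Gr T N F} {S : N} {h : ℕ} (a b c : ENode G S h)
    (h1 : a.R b) (h2 : b.R c) : a.R c := by
  obtain ⟨ρ, p, q, z, r, e1, e2, e3, e4, e5⟩ := h1
  obtain ⟨ρ', p', q', z', r', f1, f2, f3, f4, f5⟩ := h2
  refine ⟨ρ' ++ ρ, p ++ p', q' ++ q, z ++ z', r' ++ r, ?_, ?_, ?_, ?_, ?_⟩
  · rw [f1, e1, List.append_assoc]
  · rw [e2, f2]; simp [List.append_assoc]
  · rw [e3, f3]; simp [List.append_assoc]
  · rintro ⟨g1, g2, g3, g4⟩
    rw [List.append_eq_nil_iff] at g1 g2 g3 g4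
    exact e4 ⟨g1.1, g2.2, g3.1, g4.2⟩
  · rw [e1] at f5
    exact e5.trans f5

/-- iteration of a nesting with equal labels -/
theorem Nest.iter {G : Gr T N F} {S : N} {h : ℕ} {A A' : N} {σ ρ : List F} {p q z r x y : List T}
    (hn : Nest G h A σ A' A ρ A' p q z r) (ht : typ G S h (ρ ++ σ) = typ G S h σ)
    (he : E G h A σ A' x y) (m : ℕ) :
    E G h A σ A' (pw p m ++ x ++ pw q m) (pw z m ++ y ++ pw r m) := by
  -- on every level `ρ ^ i σ`
  have key : ∀ m i, E G h A (pw ρ i ++ σ) A' (pw p m ++ x ++ pw q m) (pw z m ++ y ++ pw r m) := by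
    intro m
    induction m with
    | zero =>
      intro i
      simp only [pw_zero, List.nil_append, List.append_nil]
      exact he.transfer (Sm_of_typ (typ_pw ht i).symm)
    | succ m ih =>
      intro i
      have h1 := hn (pw ρ i ++ σ) (Sm_of_typ (typ_pw ht i).symm) _ _
        (by
          have := ih (i + 1)
          rw [pw_succ, List.append_assoc] at this
          exact this)
      rw [pw_succ p, pw_succ' q, pw_succ z, pw_succ' r]
      simpa [List.append_assoc] using h1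
  simpa [pw_zero] using key m 0

theorem ENode.R_lab {G : Gr T N F} {S : N} {h : ℕ} (hPB : PB G S) (a b : ENode G S h)
    (hR : a.R b) : a.lab ≠ b.lab := by
  intro hlab
  obtain ⟨ρ, p, q, z, r, e1, e2, e3, e4, e5⟩ := hR
  obtain ⟨A, σ, A', X, Y, path, live, prod⟩ := a
  obtain ⟨B, τ, B', X', Y', path', live', prod'⟩ := b
  simp only [ENode.lab] at hlab
  simp only at e1 e2 e3 e4 e5
  subst e1
  have hl1 : A = B := congrArg (fun x : ELab N T h => x.1) hlab
  have hl2 : A' = B' := congrArg (fun x : ELab N T h => x.2.1) hlab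
  have hl3 : typ G S h σ = typ G S h (ρ ++ σ) := congrArg (fun x : ELab N T h => x.2.2) hlab
  subst hl1
  subst hl2
  obtain ⟨w, hw⟩ := prod
  obtain ⟨u, v, huv⟩ := live.ctx
  have key : ∀ m, Der G S [] (u ++ ((pw p m ++ X ++ pw q m) ++ w ++ (pw z m ++ Y ++ pw r m)) ++ v) :=
    fun m => huv _ ((e5.iter hl3.symm path m).der hw)
  apply e4
  refine ⟨?_, ?_, ?_, ?_⟩
  · refine PB_nil hPB fun m => ⟨u, X ++ pw q m ++ w ++ (pw z m ++ Y ++ pw r m) ++ v, ?_⟩
    simpa [List.append_assoc] using key m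
  · refine PB_nil hPB fun m => ⟨u ++ (pw p m ++ X), w ++ (pw z m ++ Y ++ pw r m) ++ v, ?_⟩
    simpa [List.append_assoc] using key m
  · refine PB_nil hPB fun m => ⟨u ++ ((pw p m ++ X ++ pw q m) ++ w), Y ++ pw r m ++ v, ?_⟩
    simpa [List.append_assoc] using key m
  · refine PB_nil hPB fun m => ⟨u ++ ((pw p m ++ X ++ pw q m) ++ w ++ (pw z m ++ Y)), v, ?_⟩
    simpa [List.append_assoc] using key m

theorem E.step {G : Gr T N F} {S : N} {h : ℕ} {A A' : N} {σ : List F} {X Y : List T}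
    (he : E G h A σ A' X Y) (hl : Live G S A σ) (hp : ∃ z, Der G A' σ z)
    (hW : h < X.length + Y.length) :
    ∃ (B : N) (ρ : List F) (B' : N) (x y p q z r : List T), E G h B (ρ ++ σ) B' x y ∧
      Live G S B (ρ ++ σ) ∧ (∃ w, Der G B' (ρ ++ σ) w) ∧ X = p ++ x ++ q ∧ Y = z ++ y ++ r ∧
      ¬ (p = [] ∧ q = [] ∧ z = [] ∧ r = []) ∧ Nest G h A σ A' B ρ B' p q z r ∧
      X.length + Y.length ≤ 2 * (x.length + y.length) + h := by
  induction he with
  | refl A σ => simp at hW
  | @binL A B C σ z A' X Y hb hz hh hc ih =>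
    have hlB : Live G S B σ := Live.binL hb hl ⟨_, hz⟩
    by_cases hz0 : z = []
    · subst hz0
      rw [List.append_nil] at hW
      obtain ⟨B1, ρ, B1', x, y, p, q, z, r, h1, h2, h3, h4, h5, h6, h7, h8⟩ := ih hlB hp hW
      refine ⟨B1, ρ, B1', x, y, p, q, z, r, h1, h2, h3, h4, ?_, h6, ?_, ?_⟩
      · rw [List.append_nil]; exact h5
      · intro σ' hs x y hxy
        have := E.binL hb (hs _ _ hh hz) hh (h7 σ' hs x y hxy)
        simpa using this
      · rw [List.append_nil]; exact h8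
    · refine ⟨B, [], A', X, Y, [], [], [], z, hc, hlB, hp, by simp, by simp, fun h => hz0 h.2.2.2,
        ?_, ?_⟩
      · intro σ' hs x y hxy
        have := E.binL hb (hs _ _ hh hz) hh hxy
        simpa using this
      · rw [List.length_append] at hW ⊢
        omega
  | @binR A B C σ z A' X Y hb hz hh hc ih =>
    have hlC : Live G S C σ := Live.binR hb hl ⟨_, hz⟩
    by_cases hz0 : z = []
    · subst hz0
      rw [List.nil_append] at hW
      obtain ⟨B1, ρ, B1', x, y, p, q, z, r, h1, h2, h3, h4, h5, h6, h7, h8⟩ := ih hlC hp hW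
      refine ⟨B1, ρ, B1', x, y, p, q, z, r, h1, h2, h3, ?_, h5, h6, ?_, ?_⟩
      · rw [List.nil_append]; exact h4
      · intro σ' hs x y hxy
        have := E.binR hb (hs _ _ hh hz) hh (h7 σ' hs x y hxy)
        simpa using this
      · rw [List.nil_append]; exact h8
    · refine ⟨C, [], A', X, Y, z, [], [], [], hc, hlC, hp, by simp, by simp, fun h => hz0 h.1,
        ?_, ?_⟩
      · intro σ' hs x y hxy
        have := E.binR hb (hs _ _ hh hz) hh hxy
        simpa using this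
      · rw [List.length_append] at hW ⊢
        omega
  | @mnt A B C D f σ A' X Y X' Y' hpu h1 hq h2 ih1 ih2 =>
    have hlB : Live G S B (f :: σ) := Live.push hpu hl
    have hlC : Live G S C (f :: σ) := h1.live hlB
    have hlD : Live G S D σ := Live.pop hq hlC
    have hpC : ∃ z, Der G C (f :: σ) z := by
      obtain ⟨z, hz⟩ := hp
      exact ⟨_, Der.pop hq (h2.der hz)⟩
    have nest1 : Nest G h A σ A' B [f] C [] X' Y' [] := by
      intro σ' hs x y hxy
      have := E.mnt hpu hxy hq (h2.transfer hs)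
      simpa using this
    have nest2 : Nest G h A σ A' D [] A' X [] [] Y := by
      intro σ' hs x y hxy
      have := E.mnt hpu (h1.transfer (Sm_append hs [f])) hq hxy
      simpa using this
    rw [List.length_append, List.length_append] at hW
    by_cases hcmp : X'.length + Y'.length ≤ X.length + Y.length
    · by_cases h0 : X' = [] ∧ Y' = []
      · obtain ⟨rfl, rfl⟩ := h0
        obtain ⟨B1, ρ, B1', x, y, p, q, z, r, g1, g2, g3, g4, g5, g6, g7, g8⟩ :=
          ih1 hlB hpC (by simpa using hW)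
        refine ⟨B1, ρ ++ [f], B1', x, y, p, q, z, r, ?_, ?_, ?_, ?_, ?_, g6, ?_, ?_⟩
        · simpa [List.append_assoc] using g1
        · simpa [List.append_assoc] using g2
        · simpa [List.append_assoc] using g3
        · simpa using g4
        · simpa using g5
        · have := nest1.trans g7
          simpa using this
        · simpa using g8
      · refine ⟨B, [f], C, X, Y, [], X', Y', [], h1, hlB, hpC, by simp, by simp,
          fun h => h0 ⟨h.2.1, h.2.2.1⟩, nest1, ?_⟩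
        simp only [List.length_append]
        omega
    · by_cases h0 : X = [] ∧ Y = []
      · obtain ⟨rfl, rfl⟩ := h0
        obtain ⟨B1, ρ, B1', x, y, p, q, z, r, g1, g2, g3, g4, g5, g6, g7, g8⟩ :=
          ih2 hlD hp (by simpa using hW)
        refine ⟨B1, ρ, B1', x, y, p, q, z, r, g1, g2, g3, ?_, ?_, g6, ?_, ?_⟩
        · simpa using g4
        · simpa using g5
        · have := nest2.trans g7
          simpa using this
        · simpa using g8
      · refine ⟨D, [], A', X', Y', X, [], [], Y, h2, hlD, hp, by simp, by simp,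
          fun h => h0 ⟨h.1, h.2.2.2⟩, nest2, ?_⟩
        simp only [List.length_append]
        omega

theorem E_bound [Finite T] [Finite N] (G : Gr T N F) (S : N) (hPB : PB G S) (h : ℕ) :
    ∃ H : ℕ, ∀ n : ENode G S h, n.W ≤ H := by
  refine nest_bound ENode.lab ENode.W ENode.R ENode.R_trans (ENode.R_lab hPB) h ?_
  intro a ha
  obtain ⟨B, ρ, B', x, y, p, q, z, r, h1, h2, h3, h4, h5, h6, h7, h8⟩ :=
    a.path.step a.live a.prod ha
  exact ⟨⟨B, ρ ++ a.σ, B', x, y, h1, h2, h3⟩, ⟨ρ, p, q, z, r, rfl, h4, h5, h6, h7⟩, h8⟩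

/-- descending paths from the stack `ρ ++ σ` to the level `σ`, never below it -/
inductive Down (G : Gr T N F) (h : ℕ) : N → List F → List F → N → List T → List T → Prop
  | nil {A A' : N} {σ : List F} {X Y : List T} (he : E G h A σ A' X Y) : Down G h A [] σ A' X Y
  | cons {A B C : N} {f : F} {ρ σ : List F} {A' : N} {X Y X' Y' : List T}
      (he : E G h A (f :: (ρ ++ σ)) B X Y) (hp : G.pop B f C)
      (hd : Down G h C ρ σ A' X' Y') : Down G h A (f :: ρ) σ A' (X ++ X') (Y' ++ Y)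

theorem Down.der {G : Gr T N F} {h : ℕ} {A A' : N} {ρ σ : List F} {X Y : List T}
    (hd : Down G h A ρ σ A' X Y) {z : List T} (hz : Der G A' σ z) :
    Der G A (ρ ++ σ) (X ++ z ++ Y) := by
  induction hd generalizing z with
  | nil he => exact he.der hz
  | cons he hp _ ih =>
    have := he.der (Der.pop hp (ih hz))
    simpa [List.append_assoc] using this

theorem Down.live {G : Gr T N F} {S : N} {h : ℕ} {A A' : N} {ρ σ : List F} {X Y : List T}
    (hd : Down G h A ρ σ A' X Y) (hl : Live G S A (ρ ++ σ)) : Live G S A' σ := by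
  induction hd with
  | nil he => exact he.live hl
  | cons he hp _ ih => exact ih (Live.pop hp (he.live hl))

theorem Down.transfer {G : Gr T N F} {h : ℕ} {A A' : N} {ρ σ σ' : List F} {X Y : List T}
    (hd : Down G h A ρ σ A' X Y) (hs : Sm G h σ σ') : Down G h A ρ σ' A' X Y := by
  induction hd with
  | nil he => exact Down.nil (he.transfer hs)
  | @cons _ _ _ f ρ σ _ _ _ _ _ he hp _ ih =>
    exact Down.cons (he.transfer (Sm_append hs (f :: ρ))) hp (ih hs)

theorem E.down {G : Gr T N F} {h : ℕ} {A B C : N} {ρ σ : List F} {X Y X' Y' : List T}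
    (he : E G h A (ρ ++ σ) B X Y) (hd : Down G h B ρ σ C X' Y') :
    Down G h A ρ σ C (X ++ X') (Y' ++ Y) := by
  cases hd with
  | nil he' => exact Down.nil (he.comp he')
  | cons he' hp hd' =>
    have := Down.cons (he.comp he') hp hd'
    simpa [List.append_assoc] using this

theorem Down.comp {G : Gr T N F} {h : ℕ} {A B C : N} {ρ τ σ : List F} {X Y X' Y' : List T}
    (h1 : Down G h A ρ (τ ++ σ) B X Y) (h2 : Down G h B τ σ C X' Y') :
    Down G h A (ρ ++ τ) σ C (X ++ X') (Y' ++ Y) := by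
  generalize hυ : τ ++ σ = υ at h1
  induction h1 with
  | nil he =>
    subst hυ
    exact he.down h2
  | @cons _ _ _ f ρ σ' _ _ _ _ _ he hp _ ih =>
    subst hυ
    have he' := he
    rw [← List.append_assoc] at he'
    have := Down.cons he' hp (ih h2 rfl)
    simpa [List.append_assoc] using this

/-- descending paths from a live node to a productive node -/
structure DNode (G : Gr T N F) (S : N) (h : ℕ) where
  A : N
  ρ : List F
  σ : List F
  A' : N
  X : List T
  Y : List T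
  path : Down G h A ρ σ A' X Y
  live : Live G S A (ρ ++ σ)
  prod : ∃ z, Der G A' σ z

def DLab (N T : Type) (h : ℕ) : Type :=
  N × (Set N × Set N × Set (N × {y : List T // y.length < h}))

instance (h : ℕ) [Finite N] [Finite T] : Finite (DLab N T h) := by
  have : Finite {y : List T // y.length < h} := (List.finite_length_lt T h).to_subtype
  unfold DLab
  infer_instance

def DNode.lab {G : Gr T N F} {S : N} {h : ℕ} (n : DNode G S h) : DLab N T h :=
  (n.A, typ G S h (n.ρ ++ n.σ))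

def DNode.W {G : Gr T N F} {S : N} {h : ℕ} (n : DNode G S h) : ℕ := n.X.length + n.Y.length

def DNode.R {G : Gr T N F} {S : N} {h : ℕ} (n n' : DNode G S h) : Prop :=
  ∃ (τ : List F) (p r : List T), n'.σ = n.σ ∧ n.ρ = τ ++ n'.ρ ∧ n.X = p ++ n'.X ∧
    n.Y = n'.Y ++ r ∧ ¬ (p = [] ∧ r = []) ∧ Down G h n.A τ (n'.ρ ++ n.σ) n'.A p r

theorem DNode.R_trans {G : Gr T N F} {S : N} {h : ℕ} (a b c : DNode G S h)
    (h1 : a.R b) (h2 : b.R c) : a.R c := by
  obtain ⟨τ, p, r, e1, e2, e3, e4, e5, e6⟩ := h1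
  obtain ⟨τ', p', r', f1, f2, f3, f4, f5, f6⟩ := h2
  refine ⟨τ ++ τ', p ++ p', r' ++ r, ?_, ?_, ?_, ?_, ?_, ?_⟩
  · rw [f1, e1]
  · rw [e2, f2, List.append_assoc]
  · rw [e3, f3, List.append_assoc]
  · rw [e4, f4, List.append_assoc]
  · rintro ⟨g1, g2⟩
    rw [List.append_eq_nil_iff] at g1 g2
    exact e5 ⟨g1.1, g2.2⟩
  · rw [f2, List.append_assoc] at e6
    rw [e1] at f6
    exact e6.comp f6

theorem Down.iter {G : Gr T N F} {S : N} {h : ℕ} {A : N} {τ υ : List F} {p r : List T}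
    (hd : Down G h A τ υ A p r) (ht : typ G S h (τ ++ υ) = typ G S h υ) (m : ℕ) :
    Down G h A (pw τ m) υ A (pw p m) (pw r m) := by
  induction m with
  | zero =>
    simp only [pw_zero]
    exact Down.nil (E.refl _ _)
  | succ m ih =>
    have h1 := (hd.transfer (Sm_of_typ (typ_pw ht m).symm)).comp ih
    rw [pw_succ τ, pw_succ p, pw_succ' r]
    exact h1

theorem DNode.R_lab {G : Gr T N F} {S : N} {h : ℕ} (hPB : PB G S) (a b : DNode G S h)
    (hR : a.R b) : a.lab ≠ b.lab := by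
  intro hlab
  obtain ⟨τ, p, r, e1, e2, e3, e4, e5, e6⟩ := hR
  obtain ⟨A, ρ, σ, A', X, Y, path, live, prod⟩ := a
  obtain ⟨B, ρ', σ', B', X', Y', path', live', prod'⟩ := b
  simp only [DNode.lab] at hlab
  simp only at e1 e2 e3 e4 e5 e6
  subst e1
  subst e2
  have hl1 : A = B := congrArg (fun x : DLab N T h => x.1) hlab
  have hl3 : typ G S h (τ ++ ρ' ++ σ') = typ G S h (ρ' ++ σ') :=
    congrArg (fun x : DLab N T h => x.2) hlab
  subst hl1
  rw [List.append_assoc] at hl3 live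
  obtain ⟨w0, hw0⟩ := prod'
  have hw := path'.der hw0
  set υ := ρ' ++ σ' with hυ
  set w := X' ++ w0 ++ Y' with hwdef
  have key : ∀ m, ∃ u v, Der G S [] (u ++ (pw p m ++ w ++ pw r m) ++ v) := by
    intro m
    have hlv : Live G S A (pw τ m ++ υ) := by
      have h1 := typ_pw hl3 m
      rw [← hl3] at h1
      exact ((typ_eq.1 h1).2.1 A).2 live
    obtain ⟨u, v, huv⟩ := hlv.ctx
    exact ⟨u, v, huv _ ((e6.iter hl3 m).der hw)⟩
  apply e5
  refine ⟨?_, ?_⟩
  · refine PB_nil hPB fun m => ?_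
    obtain ⟨u, v, huv⟩ := key m
    exact ⟨u, w ++ pw r m ++ v, by simpa [List.append_assoc] using huv⟩
  · refine PB_nil hPB fun m => ?_
    obtain ⟨u, v, huv⟩ := key m
    exact ⟨u ++ (pw p m ++ w), v, by simpa [List.append_assoc] using huv⟩

theorem Down.step {G : Gr T N F} {S : N} {h H : ℕ} (hH : ∀ n : ENode G S h, n.W ≤ H)
    {A A' : N} {ρ σ : List F} {X Y : List T}
    (hd : Down G h A ρ σ A' X Y) (hl : Live G S A (ρ ++ σ)) (hp : ∃ z, Der G A' σ z)
    (hW : H < X.length + Y.length) :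
    ∃ (B : N) (τ ρ' : List F) (x y p r : List T), ρ = τ ++ ρ' ∧ Down G h B ρ' σ A' x y ∧
      Live G S B (ρ' ++ σ) ∧ X = p ++ x ∧ Y = y ++ r ∧ ¬ (p = [] ∧ r = []) ∧
      Down G h A τ (ρ' ++ σ) B p r ∧ X.length + Y.length ≤ 2 * (x.length + y.length) + H := by
  induction hd with
  | @nil A A' σ X Y he =>
    exact absurd (hH ⟨A, σ, A', X, Y, he, hl, hp⟩) (not_le.2 hW)
  | @cons A B C f ρ σ A' X Y X' Y' he hpop hd ih =>
    have hlC : Live G S C (ρ ++ σ) := Live.pop hpop (he.live hl)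
    have hseg : Down G h A [f] (ρ ++ σ) C X Y := by
      have h1 : E G h A (f :: ([] ++ (ρ ++ σ))) B X Y := he
      have := Down.cons h1 hpop (Down.nil (E.refl C (ρ ++ σ)))
      simpa using this
    have hpB : ∃ z, Der G B (f :: (ρ ++ σ)) z := by
      obtain ⟨z, hz⟩ := hp
      exact ⟨_, Der.pop hpop (hd.der hz)⟩
    have hb : X.length + Y.length ≤ H := hH ⟨A, f :: (ρ ++ σ), B, X, Y, he, hl, hpB⟩
    by_cases h0 : X = [] ∧ Y = []
    · obtain ⟨rfl, rfl⟩ := h0
      obtain ⟨B1, τ, ρ', x, y, p, r, g1, g2, g3, g4, g5, g6, g7, g8⟩ :=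
        ih hlC hp (by simpa using hW)
      subst g1
      rw [List.append_assoc] at hseg
      refine ⟨B1, f :: τ, ρ', x, y, p, r, rfl, g2, g3, ?_, ?_, g6, ?_, ?_⟩
      · simpa using g4
      · simpa using g5
      · have := hseg.comp g7
        simpa using this
      · simpa using g8
    · refine ⟨C, [f], ρ, X', Y', X, Y, rfl, hd, hlC, rfl, rfl, h0, hseg, ?_⟩
      simp only [List.length_append]
      omega

theorem D_bound [Finite T] [Finite N] (G : Gr T N F) (S : N) (hPB : PB G S) (h : ℕ) :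
    ∃ H : ℕ, ∀ n : DNode G S h, n.W ≤ H := by
  obtain ⟨H, hH⟩ := E_bound G S hPB h
  refine nest_bound DNode.lab DNode.W DNode.R DNode.R_trans (DNode.R_lab hPB) H ?_
  intro a ha
  obtain ⟨B, τ, ρ', x, y, p, r, h1, h2, h3, h4, h5, h6, h7, h8⟩ :=
    a.path.step hH a.live a.prod ha
  exact ⟨⟨B, ρ', a.σ, a.A', x, y, h2, h3, a.prod⟩, ⟨τ, p, r, rfl, h1, h4, h5, h6, h7⟩, h8⟩

/-- ascending paths from the level `σ` to the stack `ρ ++ σ`, never below a level once left for
the last time -/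
inductive Up (G : Gr T N F) (h : ℕ) : N → List F → List F → N → List T → List T → Prop
  | nil {A A' : N} {σ : List F} {X Y : List T} (he : E G h A σ A' X Y) : Up G h A σ [] A' X Y
  | cons {A B C : N} {f : F} {ρ σ : List F} {A' : N} {X Y X' Y' : List T}
      (he : E G h A σ B X Y) (hp : G.push B C f)
      (hu : Up G h C (f :: σ) ρ A' X' Y') : Up G h A σ (ρ ++ [f]) A' (X ++ X') (Y' ++ Y)

theorem Up.der {G : Gr T N F} {h : ℕ} {A A' : N} {ρ σ : List F} {X Y : List T}
    (hu : Up G h A σ ρ A' X Y) {z : List T} (hz : Der G A' (ρ ++ σ) z) :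
    Der G A σ (X ++ z ++ Y) := by
  induction hu generalizing z with
  | nil he => exact he.der hz
  | cons he hp _ ih =>
    have := he.der (Der.push hp (ih (by simpa using hz)))
    simpa [List.append_assoc] using this

theorem Up.live {G : Gr T N F} {S : N} {h : ℕ} {A A' : N} {ρ σ : List F} {X Y : List T}
    (hu : Up G h A σ ρ A' X Y) (hl : Live G S A σ) : Live G S A' (ρ ++ σ) := by
  induction hu with
  | nil he => exact he.live hl
  | cons he hp _ ih =>
    have := ih (Live.push hp (he.live hl))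
    simpa using this

theorem Up.transfer {G : Gr T N F} {h : ℕ} {A A' : N} {ρ σ σ' : List F} {X Y : List T}
    (hu : Up G h A σ ρ A' X Y) (hs : Sm G h σ σ') : Up G h A σ' ρ A' X Y := by
  induction hu generalizing σ' with
  | nil he => exact Up.nil (he.transfer hs)
  | @cons _ _ _ f ρ σ _ _ _ _ _ he hp _ ih =>
    exact Up.cons (he.transfer hs) hp (ih (Sm_append hs [f]))

theorem E.up {G : Gr T N F} {h : ℕ} {A B C : N} {ρ σ : List F} {X Y X' Y' : List T}
    (he : E G h A σ B X Y) (hu : Up G h B σ ρ C X' Y') :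
    Up G h A σ ρ C (X ++ X') (Y' ++ Y) := by
  cases hu with
  | nil he' => exact Up.nil (he.comp he')
  | cons he' hp hu' =>
    have := Up.cons (he.comp he') hp hu'
    simpa [List.append_assoc] using this

theorem Up.comp {G : Gr T N F} {h : ℕ} {A B C : N} {ρ τ σ : List F} {X Y X' Y' : List T}
    (h1 : Up G h A σ ρ B X Y) (h2 : Up G h B (ρ ++ σ) τ C X' Y') :
    Up G h A σ (τ ++ ρ) C (X ++ X') (Y' ++ Y) := by
  induction h1 with
  | nil he => simpa using he.up h2
  | @cons _ _ _ f ρ σ _ _ _ _ _ he hp _ ih =>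
    have h3 := ih (by simpa using h2)
    have := Up.cons he hp h3
    simpa [List.append_assoc] using this

/-- ascending paths from a live node to a productive node -/
structure UNode (G : Gr T N F) (S : N) (h : ℕ) where
  A : N
  σ : List F
  ρ : List F
  A' : N
  X : List T
  Y : List T
  path : Up G h A σ ρ A' X Y
  live : Live G S A σ
  prod : ∃ z, Der G A' (ρ ++ σ) z

def UNode.lab {G : Gr T N F} {S : N} {h : ℕ} (n : UNode G S h) : DLab N T h :=
  (n.A, typ G S h n.σ)

def UNode.W {G : Gr T N F} {S : N} {h : ℕ} (n : UNode G S h) : ℕ := n.X.length + n.Y.length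

def UNode.R {G : Gr T N F} {S : N} {h : ℕ} (n n' : UNode G S h) : Prop :=
  ∃ (τ : List F) (p r : List T), n'.σ = τ ++ n.σ ∧ n.ρ = n'.ρ ++ τ ∧ n.X = p ++ n'.X ∧
    n.Y = n'.Y ++ r ∧ ¬ (p = [] ∧ r = []) ∧ Up G h n.A n.σ τ n'.A p r

theorem UNode.R_trans {G : Gr T N F} {S : N} {h : ℕ} (a b c : UNode G S h)
    (h1 : a.R b) (h2 : b.R c) : a.R c := by
  obtain ⟨τ, p, r, e1, e2, e3, e4, e5, e6⟩ := h1
  obtain ⟨τ', p', r', f1, f2, f3, f4, f5, f6⟩ := h2
  refine ⟨τ' ++ τ, p ++ p', r' ++ r, ?_, ?_, ?_, ?_, ?_, ?_⟩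
  · rw [f1, e1, List.append_assoc]
  · rw [e2, f2, List.append_assoc]
  · rw [e3, f3, List.append_assoc]
  · rw [e4, f4, List.append_assoc]
  · rintro ⟨g1, g2⟩
    rw [List.append_eq_nil_iff] at g1 g2
    exact e5 ⟨g1.1, g2.2⟩
  · rw [e1] at f6
    exact e6.comp f6

theorem Up.iter {G : Gr T N F} {S : N} {h : ℕ} {A : N} {τ σ : List F} {p r : List T}
    (hu : Up G h A σ τ A p r) (ht : typ G S h (τ ++ σ) = typ G S h σ) (m : ℕ) :
    Up G h A σ (pw τ m) A (pw p m) (pw r m) := by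
  induction m with
  | zero =>
    simp only [pw_zero]
    exact Up.nil (E.refl _ _)
  | succ m ih =>
    have h1 := ih.comp (hu.transfer (Sm_of_typ (typ_pw ht m).symm))
    rw [pw_succ τ, pw_succ' p, pw_succ r]
    exact h1

theorem UNode.R_lab {G : Gr T N F} {S : N} {h : ℕ} (hPB : PB G S) (a b : UNode G S h)
    (hR : a.R b) : a.lab ≠ b.lab := by
  intro hlab
  obtain ⟨τ, p, r, e1, e2, e3, e4, e5, e6⟩ := hR
  obtain ⟨A, σ, ρ, A', X, Y, path, live, prod⟩ := a
  obtain ⟨B, σ', ρ', B', X', Y', path', live', prod'⟩ := b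
  simp only [UNode.lab] at hlab
  simp only at e1 e2 e3 e4 e5 e6
  subst e1
  have hl1 : A = B := congrArg (fun x : DLab N T h => x.1) hlab
  have hl3 : typ G S h (τ ++ σ) = typ G S h σ :=
    (congrArg (fun x : DLab N T h => x.2) hlab).symm
  subst hl1
  obtain ⟨w0, hw0⟩ := prod'
  have hw := path'.der hw0
  obtain ⟨u, v, huv⟩ := live.ctx
  have key : ∀ m, ∃ w, Der G S [] (u ++ (pw p m ++ w ++ pw r m) ++ v) := by
    intro m
    have hpr : ∃ w, Der G A (pw τ m ++ σ) w := by
      have h1 := typ_pw hl3 m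
      rw [← hl3] at h1
      exact ((typ_eq.1 h1).1 A).2 ⟨_, hw⟩
    obtain ⟨w, hw⟩ := hpr
    exact ⟨w, huv _ ((e6.iter hl3 m).der hw)⟩
  apply e5
  refine ⟨?_, ?_⟩
  · refine PB_nil hPB fun m => ?_
    obtain ⟨w, hw⟩ := key m
    exact ⟨u, w ++ pw r m ++ v, by simpa [List.append_assoc] using hw⟩
  · refine PB_nil hPB fun m => ?_
    obtain ⟨w, hw⟩ := key m
    exact ⟨u ++ (pw p m ++ w), v, by simpa [List.append_assoc] using hw⟩

theorem Up.step {G : Gr T N F} {S : N} {h H : ℕ} (hH : ∀ n : ENode G S h, n.W ≤ H)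
    {A A' : N} {ρ σ : List F} {X Y : List T}
    (hu : Up G h A σ ρ A' X Y) (hl : Live G S A σ) (hp : ∃ z, Der G A' (ρ ++ σ) z)
    (hW : H < X.length + Y.length) :
    ∃ (B : N) (τ ρ' : List F) (x y p r : List T), ρ = ρ' ++ τ ∧ Up G h B (τ ++ σ) ρ' A' x y ∧
      Live G S B (τ ++ σ) ∧ X = p ++ x ∧ Y = y ++ r ∧ ¬ (p = [] ∧ r = []) ∧
      Up G h A σ τ B p r ∧ X.length + Y.length ≤ 2 * (x.length + y.length) + H := by
  induction hu with
  | @nil A A' σ X Y he =>
    exact absurd (hH ⟨A, σ, A', X, Y, he, hl, hp⟩) (not_le.2 hW)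
  | @cons A B C f ρ σ A' X Y X' Y' he hpush hu ih =>
    have hlC : Live G S C (f :: σ) := Live.push hpush (he.live hl)
    have hp' : ∃ z, Der G A' (ρ ++ f :: σ) z := by simpa using hp
    have hseg : Up G h A σ [f] C X Y := by
      have := Up.cons he hpush (Up.nil (E.refl C (f :: σ)))
      simpa using this
    have hpB : ∃ z, Der G B σ z := by
      obtain ⟨z, hz⟩ := hp'
      exact ⟨_, Der.push hpush (hu.der hz)⟩
    have hb : X.length + Y.length ≤ H := hH ⟨A, σ, B, X, Y, he, hl, hpB⟩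
    by_cases h0 : X = [] ∧ Y = []
    · obtain ⟨rfl, rfl⟩ := h0
      obtain ⟨B1, τ, ρ', x, y, p, r, g1, g2, g3, g4, g5, g6, g7, g8⟩ :=
        ih hlC hp' (by simpa using hW)
      subst g1
      refine ⟨B1, τ ++ [f], ρ', x, y, p, r, ?_, ?_, ?_, ?_, ?_, g6, ?_, ?_⟩
      · simp
      · simpa using g2
      · simpa using g3
      · simpa using g4
      · simpa using g5
      · have := hseg.comp g7
        simpa using this
      · simpa using g8
    · refine ⟨C, [f], ρ, X', Y', X, Y, rfl, hu, hlC, rfl, rfl, h0, hseg, ?_⟩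
      simp only [List.length_append]
      omega

theorem U_bound [Finite T] [Finite N] (G : Gr T N F) (S : N) (hPB : PB G S) (h : ℕ) :
    ∃ H : ℕ, ∀ n : UNode G S h, n.W ≤ H := by
  obtain ⟨H, hH⟩ := E_bound G S hPB h
  refine nest_bound UNode.lab UNode.W UNode.R UNode.R_trans (UNode.R_lab hPB) H ?_
  intro a ha
  obtain ⟨B, τ, ρ', x, y, p, r, h1, h2, h3, h4, h5, h6, h7, h8⟩ :=
    a.path.step hH a.live a.prod ha
  refine ⟨⟨B, τ ++ a.σ, ρ', a.A', x, y, h2, h3, ?_⟩, ⟨τ, p, r, rfl, h1, h4, h5, h6, h7⟩, h8⟩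
  have := a.prod
  rw [h1] at this
  simpa using this

/-- a path splits at its lowest level -/
theorem chain_split {G : Gr T N F} {h : ℕ} {A A' : N} {σ σ' : List F} {X Y : List T}
    (hc : Chain G h A σ A' σ' X Y) :
    ∃ (B : N) (τ ρ₁ ρ₂ : List F) (X₁ Y₁ X₂ Y₂ : List T), σ = ρ₁ ++ τ ∧ σ' = ρ₂ ++ τ ∧
      Down G h A ρ₁ τ B X₁ Y₁ ∧ Up G h B τ ρ₂ A' X₂ Y₂ ∧ X = X₁ ++ X₂ ∧ Y = Y₂ ++ Y₁ := by
  induction hc with
  | refl A σ =>
    exact ⟨A, σ, [], [], [], [], [], [], rfl, rfl, Down.nil (E.refl _ _), Up.nil (E.refl _ _),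
      rfl, rfl⟩
  | @binL A B C σ z A' σ' X Y hb hz hh _ ih =>
    obtain ⟨D, τ, ρ₁, ρ₂, X₁, Y₁, X₂, Y₂, e1, e2, hd, hu, e3, e4⟩ := ih
    have he := (E.binL hb hz hh (E.refl B σ))
    rw [e1] at he
    refine ⟨D, τ, ρ₁, ρ₂, _, _, X₂, Y₂, e1, e2, he.down hd, hu, ?_, ?_⟩
    · simp [e3]
    · simp [e4]
  | @binR A B C σ z A' σ' X Y hb hz hh _ ih =>
    obtain ⟨D, τ, ρ₁, ρ₂, X₁, Y₁, X₂, Y₂, e1, e2, hd, hu, e3, e4⟩ := ih
    have he := (E.binR hb hz hh (E.refl C σ))
    rw [e1] at he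
    refine ⟨D, τ, ρ₁, ρ₂, _, _, X₂, Y₂, e1, e2, he.down hd, hu, ?_, ?_⟩
    · simp [e3]
    · simp [e4]
  | @push A B f σ A' σ' X Y hp _ ih =>
    obtain ⟨D, τ, ρ₁, ρ₂, X₁, Y₁, X₂, Y₂, e1, e2, hd, hu, e3, e4⟩ := ih
    cases hd with
    | nil he =>
      rw [List.nil_append] at e1
      subst e1
      have hu' := he.up hu
      have hu2 := Up.cons (E.refl A σ) hp hu'
      refine ⟨A, σ, [], ρ₂ ++ [f], [], [], _, _, rfl, ?_, Down.nil (E.refl _ _), hu2, ?_, ?_⟩
      · rw [e2]; simp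
      · simp [e3]
      · simp [e4]
    | @cons _ B1 C1 g ρ _ _ X' Y' X'' Y'' he hpop hd' =>
      rw [List.cons_append, List.cons.injEq] at e1
      obtain ⟨rfl, rfl⟩ := e1
      have hm := E.mnt hp he hpop (E.refl C1 (ρ ++ τ))
      refine ⟨D, τ, ρ, ρ₂, _, _, X₂, Y₂, rfl, e2, hm.down hd', hu, ?_, ?_⟩
      · simp [e3]
      · simp [e4]
  | @pop A B f σ A' σ' X Y hp _ ih =>
    obtain ⟨D, τ, ρ₁, ρ₂, X₁, Y₁, X₂, Y₂, e1, e2, hd, hu, e3, e4⟩ := ih
    subst e1
    refine ⟨D, τ, f :: ρ₁, ρ₂, _, _, X₂, Y₂, rfl, e2, Down.cons (E.refl _ _) hp hd, hu, ?_, ?_⟩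
    · simp [e3]
    · simp [e4]

end Sp

variable {T N F : Type}

/-- M4: spines have bounded side output. -/
theorem spine [Finite T] [Finite N] [Finite F] (G : Gr T N F) (S : N) (hPB : PB G S) (h : ℕ) :
    ∃ H : ℕ, ∀ A σ A' σ' X Y, Live G S A σ → Chain G h A σ A' σ' X Y →
      (∃ z, Der G A' σ' z) → X.length + Y.length ≤ H := by
  obtain ⟨H1, hH1⟩ := Sp.D_bound G S hPB h
  obtain ⟨H2, hH2⟩ := Sp.U_bound G S hPB h
  refine ⟨H1 + H2, ?_⟩
  intro A σ A' σ' X Y hl hc hz
  obtain ⟨B, τ, ρ₁, ρ₂, X₁, Y₁, X₂, Y₂, rfl, rfl, hd, hu, rfl, rfl⟩ := Sp.chain_split hc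
  have hpB : ∃ z, Der G B τ z := by
    obtain ⟨z, hz⟩ := hz
    exact ⟨_, hu.der hz⟩
  have h1 : X₁.length + Y₁.length ≤ H1 := hH1 ⟨A, ρ₁, τ, B, X₁, Y₁, hd, hl, hpB⟩
  have h2 : X₂.length + Y₂.length ≤ H2 := hH2 ⟨B, τ, ρ₂, A', X₂, Y₂, hu, hd.live hl, hz⟩
  simp only [List.length_append]
  omega

end Pool.Agent.H51.IGN
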