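import Pool.Agent.H51.IGN.Defs

/-! Main lemma: long words of the language have a factor which is a shortest word of a live
node. -/

namespace Pool.Agent.H51.IGN

variable {T N F : Type}

theorem Chain.der {G : Gr T N F} {h : ℕ} {A : N} {σ : List F} {A' : N} {σ' : List F}
    {X Y : List T} (hc : Chain G h A σ A' σ' X Y) :
    ∀ z, Der G A' σ' z → Der G A σ (X ++ z ++ Y) := by
  induction hc with
  | refl A σ => intro z hz; simpa using hz
  | binL hb hz _ _ ih =>
    intro z h1
    have := Der.bin hb (ih z h1) hz
    simpa [List.append_assoc] using this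
  | binR hb hz _ _ ih =>
    intro z h1
    have := Der.bin hb hz (ih z h1)
    simpa [List.append_assoc] using this
  | push hp _ ih => intro z h1; exact Der.push hp (ih z h1)
  | pop hp _ ih => intro z h1; exact Der.pop hp (ih z h1)

/-- the word of a list of blocks `(t, y, V)`: each block contributes `t ++ y` or `t ++ V`
according to the choice -/
def flat : List (List T × List T × List T) → List Bool → List T
  | [], _ => []
  | b :: bs, c => b.1 ++ ((if c.headD false then b.2.2 else b.2.1) ++ flat bs c.tail)

/-- put a word in front of the first block -/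
def pre1 (x : List T) : List (List T × List T × List T) → List (List T × List T × List T)
  | [] => []
  | b :: bs => (x ++ b.1, b.2.1, b.2.2) :: bs

theorem pre1_length (x : List T) (bs : List (List T × List T × List T)) :
    (pre1 x bs).length = bs.length := by
  cases bs <;> rfl

theorem flat_pre1 (x : List T) (bs : List (List T × List T × List T)) (hb : bs ≠ [])
    (c : List Bool) : flat (pre1 x bs) c = x ++ flat bs c := by
  cases bs with
  | nil => exact absurd rfl hb
  | cons b bs => simp [pre1, flat]

theorem flat_append (bs1 bs2 : List (List T × List T × List T)) (c : List Bool) :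
    flat (bs1 ++ bs2) c = flat bs1 c ++ flat bs2 (c.drop bs1.length) := by
  induction bs1 generalizing c with
  | nil => simp [flat]
  | cons b bs1 ih =>
    simp only [List.cons_append, flat, ih, List.append_assoc, List.length_cons]
    cases c <;> simp

theorem flat_false (bs : List (List T × List T × List T)) (k : ℕ) (hk : bs.length ≤ k)
    (c : List Bool) : flat bs (List.replicate k false ++ c) = flat bs [] := by
  induction bs generalizing k with
  | nil => simp [flat]
  | cons b bs ih =>
    cases k with
    | zero => simp at hk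
    | succ k =>
      simp only [List.length_cons, Nat.add_le_add_iff_right] at hk
      simp [flat, List.replicate_succ, ih k hk]

/-- the conditions on a block -/
def OKb (h : ℕ) (b : List T × List T × List T) : Prop :=
  h ≤ b.2.1.length ∧ b.2.1.length ≤ 2 * h ∧ b.2.2.length ≤ b.2.1.length ∧ b.2.2 ≠ b.2.1

theorem OKb_pre1 (h : ℕ) (x : List T) (bs : List (List T × List T × List T))
    (hb : ∀ b ∈ bs, OKb h b) : ∀ b ∈ pre1 x bs, OKb h b := by
  cases bs with
  | nil => intro b hb; exact absurd hb (by simp [pre1])
  | cons b0 bs =>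
    intro b hb'
    simp only [pre1, List.mem_cons] at hb'
    rcases hb' with rfl | hb'
    · exact hb b0 (by simp)
    · exact hb b (by simp [hb'])

theorem flat_length_le {h : ℕ} (bs : List (List T × List T × List T))
    (hb : ∀ b ∈ bs, OKb h b) (c : List Bool) : (flat bs c).length ≤ (flat bs []).length := by
  induction bs generalizing c with
  | nil => simp [flat]
  | cons b bs ih =>
    have h1 := ih (fun b' hb' => hb b' (by simp [hb'])) c.tail
    have h2 := (hb b (by simp)).2.2.1
    simp only [flat, List.length_append, List.headD_nil, List.tail_nil]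
    split <;> simp <;> omega

theorem blocks {G : Gr T N F} {S : N} {h H : ℕ} (hh : 2 ≤ h)
    (hsp : ∀ A σ A' σ' X Y, Live G S A σ → Chain G h A σ A' σ' X Y →
      (∃ z, Der G A' σ' z) → X.length + Y.length ≤ H)
    {M : Set (List T)}
    (hM : ∀ A σ, Live G S A σ → (∃ y, Der G A σ y) →
        ∃ V ∈ M, Der G A σ V ∧ ∀ y, Der G A σ y → V.length ≤ y.length)
    {A : N} {σ : List F} {w : List T} (hd : Der G A σ w) :
    Live G S A σ → h ≤ w.length →
    (∀ y ∈ M, h ≤ y.length → y.length ≤ 2 * h → ¬ y <:+: w) →
    ∃ A' σ' X Y bs tl, Chain G h A σ A' σ' X Y ∧ w = X ++ (flat bs [] ++ tl) ++ Y ∧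
      (∀ c, Der G A' σ' (flat bs c ++ tl)) ∧ bs ≠ [] ∧ (∀ b ∈ bs, OKb h b) ∧
      (flat bs [] ++ tl).length + 2 * H ≤ (2 * h + 2 * H) * bs.length := by
  induction hd with
  | eps _ _ => intro _ h1 _; simp at h1; omega
  | term _ _ => intro _ h1 _; simp at h1; omega
  | @push A B f σ u hp hu ih =>
    intro hl h1 h2
    obtain ⟨A', σ', X, Y, bs, tl, a1, a2⟩ := ih (Live.push hp hl) h1 h2
    exact ⟨A', σ', X, Y, bs, tl, Chain.push hp a1, a2⟩
  | @pop A B f σ u hp hu ih =>
    intro hl h1 h2
    obtain ⟨A', σ', X, Y, bs, tl, a1, a2⟩ := ih (Live.pop hp hl) h1 h2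
    exact ⟨A', σ', X, Y, bs, tl, Chain.pop hp a1, a2⟩
  | @bin A B C σ u v hb hu hv ihu ihv =>
    intro hl h1 h2
    have hlB : Live G S B σ := Live.binL hb hl ⟨v, hv⟩
    have hlC : Live G S C σ := Live.binR hb hl ⟨u, hu⟩
    have h2u : ∀ y ∈ M, h ≤ y.length → y.length ≤ 2 * h → ¬ y <:+: u :=
      fun y hy a b hc => h2 y hy a b (hc.trans (List.prefix_append u v).isInfix)
    have h2v : ∀ y ∈ M, h ≤ y.length → y.length ≤ 2 * h → ¬ y <:+: v :=
      fun y hy a b hc => h2 y hy a b (hc.trans (List.suffix_append u v).isInfix)
    rcases Nat.lt_or_ge u.length h with hus | hub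
    · rcases Nat.lt_or_ge v.length h with hvs | hvb
      · -- minimal big node
        have hlen : (u ++ v).length ≤ 2 * h := by rw [List.length_append]; omega
        obtain ⟨V, hV1, hV2, hV3⟩ := hM A σ hl ⟨_, Der.bin hb hu hv⟩
        refine ⟨A, σ, [], [], [([], u ++ v, V)], [], Chain.refl _ _, ?_, ?_, ?_, ?_, ?_⟩
        · simp [flat]
        · intro c
          simp only [flat, List.nil_append, List.append_nil]
          split
          · exact hV2
          · exact Der.bin hb hu hv
        · simp
        · intro b hb'
          simp only [List.mem_singleton] at hb'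
          subst hb'
          refine ⟨h1, hlen, hV3 _ (Der.bin hb hu hv), ?_⟩
          intro he
          simp only at he
          exact h2 V hV1 (by rw [he]; exact h1) (by rw [he]; exact hlen)
            (by rw [he])
        · simp [flat]
          rw [List.length_append] at hlen
          omega
      · -- right child big
        obtain ⟨A', σ', X, Y, bs, tl, a1, a2, a3⟩ := ihv hlC hvb h2v
        refine ⟨A', σ', u ++ X, Y, bs, tl, Chain.binR hb hu hus a1, ?_, a3⟩
        rw [a2]
        simp [List.append_assoc]
    · rcases Nat.lt_or_ge v.length h with hvs | hvb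
      · obtain ⟨A', σ', X, Y, bs, tl, a1, a2, a3⟩ := ihu hlB hub h2u
        refine ⟨A', σ', X, Y ++ v, bs, tl, Chain.binL hb hv hvs a1, ?_, a3⟩
        rw [a2]
        simp [List.append_assoc]
      · obtain ⟨A1, σ1, X1, Y1, bs1, tl1, a1, a2, a3, a4, a5, a6⟩ := ihu hlB hub h2u
        obtain ⟨A2, σ2, X2, Y2, bs2, tl2, b1, b2, b3, b4, b5, b6⟩ := ihv hlC hvb h2v
        have s1 := hsp _ _ _ _ _ _ hlB a1 ⟨_, a3 []⟩
        have s2 := hsp _ _ _ _ _ _ hlC b1 ⟨_, b3 []⟩
        have hform : ∀ c, flat (pre1 X1 bs1 ++ pre1 (tl1 ++ Y1 ++ X2) bs2) c ++ (tl2 ++ Y2) =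
            (X1 ++ (flat bs1 c ++ tl1) ++ Y1) ++
              (X2 ++ (flat bs2 (c.drop bs1.length) ++ tl2) ++ Y2) := by
          intro c
          rw [flat_append, flat_pre1 _ _ a4, flat_pre1 _ _ b4, pre1_length]
          simp [List.append_assoc]
        refine ⟨A, σ, [], [], pre1 X1 bs1 ++ pre1 (tl1 ++ Y1 ++ X2) bs2, tl2 ++ Y2,
          Chain.refl _ _, ?_, ?_, ?_, ?_, ?_⟩
        · rw [hform []]
          simp only [List.drop_nil]
          rw [← a2, ← b2]
          simp
        · intro c
          rw [hform c]
          exact Der.bin hb (a1.der _ (a3 c)) (b1.der _ (b3 _))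
        · intro he
          have := congrArg List.length he
          simp only [List.length_append, pre1_length, List.length_nil] at this
          have := List.length_pos_iff.2 a4
          omega
        · intro b hb'
          rcases List.mem_append.1 hb' with hb' | hb'
          · exact OKb_pre1 h _ _ a5 b hb'
          · exact OKb_pre1 h _ _ b5 b hb'
        · rw [hform []]
          simp only [List.drop_nil, List.length_append, pre1_length, Nat.mul_add] at a6 b6 ⊢
          omega

/-- a word which is its own shift by `p` has a power of `p` as a prefix -/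
theorem pow_prefix (p Z R R' : List T) (K : ℕ) (he : Z ++ R = p ++ (Z ++ R'))
    (hK : K * p.length ≤ Z.length) : pw p K <+: Z := by
  induction K with
  | zero => simp [pw]
  | succ K ih =>
    have h1 : K * p.length ≤ Z.length := by
      have : K * p.length ≤ (K + 1) * p.length := Nat.mul_le_mul_right _ (by omega)
      omega
    have h2 := ih h1
    have h3 : pw p (K + 1) = p ++ pw p K := by simp [pw, List.replicate_succ]
    have h4 : pw p (K + 1) <+: Z ++ R := by
      rw [he, h3]
      exact (List.prefix_append_right_inj p).2 (h2.trans (List.prefix_append _ _))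
    apply List.prefix_of_prefix_length_le h4 (List.prefix_append _ _)
    have : (pw p (K + 1)).length = (K + 1) * p.length := by simp [pw]
    omega

/-- expanded choices: every `J`-th block may be changed -/
def ex (J : ℕ) : List Bool → List Bool
  | [] => []
  | b :: c => List.replicate (J - 1) false ++ b :: ex J c

/-- no `K`-th power of a word of length `≤ 2 h` is a factor -/
def NoPow (h K : ℕ) (z : List T) : Prop :=
  ∀ p : List T, p ≠ [] → p.length ≤ 2 * h → ¬ pw p K <:+: z

theorem flat_long {h : ℕ} (bs : List (List T × List T × List T))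
    (hb : ∀ b ∈ bs, OKb h b) : bs.length * h ≤ (flat bs []).length := by
  induction bs with
  | nil => simp
  | cons b bs ih =>
    have h1 := ih (fun b' hb' => hb b' (by simp [hb']))
    have h2 := (hb b (by simp)).1
    simp only [flat, List.length_append, List.headD_nil, List.tail_nil, List.length_cons,
      Nat.add_mul]
    simp
    omega

theorem key_neq {h K : ℕ} (y V Z R R' : List T) (hy : y.length ≤ 2 * h)
    (hV : V.length ≤ y.length) (hne : V ≠ y) (hZ : 2 * K * h ≤ Z.length) (hno : NoPow h K Z)
    (he : V ++ (Z ++ R) = y ++ (Z ++ R')) : False := by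
  have h1 : V <+: y := by
    apply List.prefix_of_prefix_length_le (l₃ := y ++ (Z ++ R'))
    · rw [← he]; exact List.prefix_append _ _
    · exact List.prefix_append _ _
    · exact hV
  obtain ⟨p, rfl⟩ := h1
  rw [List.append_assoc, List.append_cancel_left_eq] at he
  have hp : p ≠ [] := by rintro rfl; simp at hne
  have hpl : p.length ≤ 2 * h := by rw [List.length_append] at hy; omega
  refine hno p hp hpl (pow_prefix p Z R R' K he ?_).isInfix
  calc K * p.length ≤ K * (2 * h) := Nat.mul_le_mul_left _ hpl
    _ = 2 * K * h := by ring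
    _ ≤ Z.length := hZ

theorem flat_inj {h K : ℕ} : ∀ (c d : List Bool) (bs : List (List T × List T × List T))
    (tl : List T), c.length = d.length → c.length * (2 * K + 1) ≤ bs.length →
    (∀ b ∈ bs, OKb h b) → NoPow h K (flat bs [] ++ tl) →
    flat bs (ex (2 * K + 1) c) ++ tl = flat bs (ex (2 * K + 1) d) ++ tl → c = d
  | [], d, bs, tl => by
    intro h1 _ _ _ _
    exact (List.length_eq_zero_iff.1 h1.symm).symm
  | b :: c, [], bs, tl => by
    intro h1; simp at h1
  | b :: c, b' :: d, bs, tl => by
    intro h1 h2 h3 h4 h5
    simp only [List.length_cons, Nat.add_right_cancel_iff] at h1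
    -- split the blocks
    have hlen : 2 * K + 1 ≤ bs.length := by
      have : (c.length + 1) * (2 * K + 1) = c.length * (2 * K + 1) + (2 * K + 1) := by ring
      simp only [List.length_cons] at h2
      omega
    obtain ⟨bs1, blk, bs2, rfl, hl1⟩ : ∃ bs1 blk bs2, bs = bs1 ++ blk :: bs2 ∧
        bs1.length = 2 * K := by
      refine ⟨bs.take (2 * K), bs[2 * K]'(by omega), bs.drop (2 * K + 1), ?_, ?_⟩
      · rw [List.cons_getElem_drop_succ, List.take_append_drop]
      · rw [List.length_take]; omega
    have hsplit : ∀ e (cc : List Bool), flat (bs1 ++ blk :: bs2) (ex (2 * K + 1) (e :: cc)) =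
        flat bs1 [] ++ (blk.1 ++ ((if e then blk.2.2 else blk.2.1) ++
          flat bs2 (ex (2 * K + 1) cc))) := by
      intro e cc
      rw [flat_append]
      have : ex (2 * K + 1) (e :: cc) = List.replicate (2 * K) false ++
          e :: ex (2 * K + 1) cc := by simp [ex]
      rw [this, flat_false bs1 (2 * K) (by omega), hl1]
      simp [flat]
    rw [hsplit, hsplit] at h5
    simp only [List.append_assoc, List.append_cancel_left_eq] at h5
    have hok2 : ∀ b ∈ bs2, OKb h b := fun b hb => h3 b (by simp [hb])
    have hokb : OKb h blk := h3 blk (by simp)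
    have hno2 : NoPow h K (flat bs2 [] ++ tl) := by
      intro p hp hpl hc
      refine h4 p hp hpl (hc.trans ?_)
      rw [flat_append]
      simp only [flat, List.drop_nil, List.tail_nil]
      refine List.IsSuffix.isInfix ?_
      refine ⟨flat bs1 [] ++ (blk.1 ++ (if (([] : List Bool).headD false) then blk.2.2
        else blk.2.1)), ?_⟩
      simp [List.append_assoc]
    have hl2 : c.length * (2 * K + 1) ≤ bs2.length := by
      simp only [List.length_append, List.length_cons, hl1] at h2
      have : (c.length + 1) * (2 * K + 1) = c.length * (2 * K + 1) + (2 * K + 1) := by ring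
      omega
    have hcont : ∀ (c d : List Bool), c.length = d.length →
        c.length * (2 * K + 1) ≤ bs2.length →
        blk.2.2 ++ (flat bs2 (ex (2 * K + 1) c) ++ tl) =
          blk.2.1 ++ (flat bs2 (ex (2 * K + 1) d) ++ tl) → False := by
      intro c d hcd hcl he
      obtain ⟨o1, o2, o3, o4⟩ := hokb
      cases c with
      | nil =>
        have : d = [] := List.length_eq_zero_iff.1 hcd.symm
        subst this
        rw [List.append_cancel_right_eq] at he
        exact o4 he
      | cons c0 c =>
        cases d with
        | nil => simp at hcd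
        | cons d0 d =>
          simp only [List.length_cons] at hcl
          have hge : 2 * K ≤ bs2.length := by
            have : (c.length + 1) * (2 * K + 1) = c.length * (2 * K + 1) + (2 * K + 1) := by
              ring
            omega
          have hs : ∀ e (cc : List Bool), ∃ R, flat bs2 (ex (2 * K + 1) (e :: cc)) ++ tl =
              flat (bs2.take (2 * K)) [] ++ R := by
            intro e cc
            refine ⟨flat (bs2.drop (2 * K)) (e :: ex (2 * K + 1) cc) ++ tl, ?_⟩
            have e1 : ex (2 * K + 1) (e :: cc) = List.replicate (2 * K) false ++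
                e :: ex (2 * K + 1) cc := by simp [ex]
            conv_lhs => rw [← List.take_append_drop (2 * K) bs2]
            rw [e1, flat_append]
            have hl : (bs2.take (2 * K)).length = 2 * K := by
              rw [List.length_take]; omega
            rw [flat_false _ _ (by omega), hl]
            simp [List.append_assoc]
          obtain ⟨R, hR⟩ := hs c0 c
          obtain ⟨R', hR'⟩ := hs d0 d
          rw [hR, hR'] at he
          refine key_neq (h := h) (K := K) _ _ _ _ _ o2 o3 o4 ?_ ?_ he
          · have := flat_long (h := h) (bs2.take (2 * K))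
              (fun b hb => hok2 b (List.mem_of_mem_take hb))
            rw [List.length_take, Nat.min_eq_left hge] at this
            exact this
          · intro p hp hpl hc
            refine hno2 p hp hpl (hc.trans ?_)
            conv_rhs => rw [← List.take_append_drop (2 * K) bs2]
            rw [flat_append, List.append_assoc]
            exact (List.prefix_append _ _).isInfix
    have hbb : b = b' := by
      cases b <;> cases b'
      · rfl
      · exact (hcont d c h1.symm (by rw [← h1]; exact hl2) (by simpa using h5.symm)).elim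
      · exact (hcont c d h1 hl2 (by simpa using h5)).elim
      · rfl
    subst hbb
    rw [List.append_cancel_left_eq] at h5
    rw [flat_inj c d bs2 tl h1 hl2 hok2 hno2 h5]

theorem pw_add (p : List T) (i j : ℕ) : pw p (i + j) = pw p i ++ pw p j := by
  unfold pw
  rw [List.replicate_add, List.flatten_append]

theorem exists_K [Finite T] {G : Gr T N F} {S : N} (hPB : PB G S) (h : ℕ) :
    ∃ K : ℕ, ∀ w, Der G S [] w → NoPow h K w := by
  classical
  have hP : ∀ p : List T, ∃ j : ℕ, p ≠ [] → ∀ w, Der G S [] w → ¬ pw p j <:+: w := by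
    intro p
    by_cases hp : p = []
    · exact ⟨0, fun h => absurd hp h⟩
    · obtain ⟨j, hj⟩ := hPB p hp
      exact ⟨j, fun _ => hj⟩
  choose j hj using hP
  have hfin : {p : List T | p.length ≤ 2 * h}.Finite := List.finite_length_le T (2 * h)
  obtain ⟨K, hK⟩ := (hfin.image j).bddAbove
  refine ⟨K, fun w hw p hp hpl hc => hj p hp w hw (List.IsInfix.trans ?_ hc)⟩
  have h1 : j p ≤ K := hK ⟨p, hpl, rfl⟩
  have h2 : K = j p + (K - j p) := by omega
  rw [h2, pw_add]
  exact (List.prefix_append _ _).isInfix

/-- The main lemma, with the bound on spines as a hypothesis. -/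
theorem min_factor_of_spine [Finite T] (G : Gr T N F) (S : N) (hPB : PB G S)
    (hspine : ∀ h : ℕ, ∃ H : ℕ, ∀ A σ A' σ' X Y, Live G S A σ → Chain G h A σ A' σ' X Y →
      (∃ z, Der G A' σ' z) → X.length + Y.length ≤ H)
    (hgrow : ∀ c : ℕ, 0 < c → ∃ n0 : ℕ, ∀ n, n0 ≤ n →
      {w | Der G S [] w ∧ w.length ≤ n}.ncard < 2 ^ (n / c))
    (M : Set (List T))
    (hM : ∀ A σ, Live G S A σ → (∃ y, Der G A σ y) →
        ∃ V ∈ M, Der G A σ V ∧ ∀ y, Der G A σ y → V.length ≤ y.length)
    (h : ℕ) (hh : 2 ≤ h) :
    ∃ n0 : ℕ, ∀ w, Der G S [] w → n0 ≤ w.length →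
      ∃ y ∈ M, h ≤ y.length ∧ y.length ≤ 2 * h ∧ y <:+: w := by
  classical
  obtain ⟨H, hH⟩ := hspine h
  obtain ⟨K, hK⟩ := exists_K hPB h
  obtain ⟨n0, hn0⟩ := hgrow ((2 * h + 2 * H) * (2 * K + 1)) (by positivity)
  refine ⟨max n0 h, fun w hw hwl => ?_⟩
  by_contra hcon
  push Not at hcon
  have hwh : h ≤ w.length := le_trans (le_max_right _ _) hwl
  have hwn : n0 ≤ w.length := le_trans (le_max_left _ _) hwl
  obtain ⟨A', σ', X, Y, bs, tl, hch, hwe, hder, hbs, hok, hlen⟩ :=
    blocks hh hH hM hw Live.root hwh (fun y hy a b c => hcon y hy a b c)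
  have hXY := hH _ _ _ _ _ _ Live.root hch ⟨_, hder []⟩
  have hwlen : w.length ≤ (2 * h + 2 * H) * bs.length := by
    have := congrArg List.length hwe
    simp only [List.length_append] at this hlen
    omega
  set q := bs.length / (2 * K + 1) with hq
  have hno : NoPow h K (flat bs [] ++ tl) := by
    intro p hp hpl hc
    refine hK w hw p hp hpl (hc.trans ?_)
    rw [hwe, List.append_assoc]
    exact ((List.prefix_append _ _).isInfix).trans (List.suffix_append _ _).isInfix
  -- the map
  let f : (Fin q → Bool) → List T := fun c =>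
    X ++ (flat bs (ex (2 * K + 1) (List.ofFn c)) ++ tl) ++ Y
  have hfinj : Function.Injective f := by
    intro c d hcd
    simp only [f] at hcd
    rw [List.append_cancel_right_eq, List.append_cancel_left_eq] at hcd
    apply List.ofFn_injective
    refine flat_inj (h := h) (K := K) _ _ bs tl (by simp) ?_ hok hno hcd
    rw [List.length_ofFn]
    exact Nat.div_mul_le_self _ _
  have hsub : Set.range f ⊆ {w' | Der G S [] w' ∧ w'.length ≤ w.length} := by
    rintro _ ⟨c, rfl⟩
    refine ⟨hch.der _ (hder _), ?_⟩
    have := flat_length_le bs hok (ex (2 * K + 1) (List.ofFn c))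
    have h2 := congrArg List.length hwe
    simp only [f, List.length_append] at this h2 ⊢
    omega
  have hfin : {w' | Der G S [] w' ∧ w'.length ≤ w.length}.Finite :=
    (List.finite_length_le T w.length).subset (fun x hx => hx.2)
  have hcard : 2 ^ q ≤ {w' | Der G S [] w' ∧ w'.length ≤ w.length}.ncard := by
    calc 2 ^ q = Nat.card (Fin q → Bool) := by simp
      _ = (Set.range f).ncard := by
          rw [← Set.image_univ, Set.ncard_image_of_injective _ hfinj, Set.ncard_univ]
      _ ≤ _ := Set.ncard_le_ncard hsub hfin
  have hlt := hn0 w.length hwn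
  have hqq : w.length / ((2 * h + 2 * H) * (2 * K + 1)) ≤ q := by
    rw [← Nat.div_div_eq_div_mul, hq]
    apply Nat.div_le_div_right
    apply Nat.div_le_of_le_mul
    exact hwlen
  have := Nat.pow_le_pow_right (n := 2) (by norm_num) hqq
  omega

end Pool.Agent.H51.IGN
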