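import Pool.Agent.H51.IGN.Defs

/-! M6: unique geodesics of the first Grigorchuk group. -/

namespace Pool.Agent.H51.IGN

open Pool.Agent.H57.EDT

namespace UGeo

/-- section of a letter -/
def secl : Bool → Gen → List Gen
  | _, .a => []
  | false, .b => [.a]
  | false, .c => [.a]
  | false, .d => []
  | true, .b => [.c]
  | true, .c => [.d]
  | true, .d => [.b]

/-- parity of the number of letters `a` -/
def par : List Gen → Bool
  | [] => false
  | .a :: w => !par w
  | .b :: w => par w
  | .c :: w => par w
  | .d :: w => par w

/-- section of a word -/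
def sec (x : Bool) : List Gen → List Gen
  | [] => []
  | s :: w => secl (xor x (par w)) s ++ sec x w

theorem act_cons (s : Gen) (x : Bool) (v : List Bool) :
    act s (x :: v) = (xor x (par [s])) :: pv (secl x s) v := by
  cases s <;> cases x <;> rfl

theorem par_cons (s : Gen) (w : List Gen) : par (s :: w) = xor (par w) (par [s]) := by
  cases s <;> simp [par]

theorem pv_sec (w : List Gen) (x : Bool) (v : List Bool) :
    pv w (x :: v) = (xor x (par w)) :: pv (sec x w) v := by
  induction w with
  | nil => simp [pv_nil, par, sec]
  | cons s w ih =>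
    rw [pv_cons, Equiv.Perm.mul_apply, ih]
    change act s _ = _
    rw [act_cons, sec, pv_append, Equiv.Perm.mul_apply, par_cons s w, Bool.xor_assoc]

theorem sec_eq {w w' : List Gen} (h : pv w' = pv w) (x : Bool) : pv (sec x w') = pv (sec x w) := by
  apply Equiv.ext
  intro v
  have h1 : pv w' (x :: v) = pv w (x :: v) := by rw [h]
  rw [pv_sec, pv_sec] at h1
  exact (List.cons.inj h1).2

theorem par_eq {w w' : List Gen} (h : pv w' = pv w) : par w' = par w := by
  have h1 : pv w' (false :: []) = pv w (false :: []) := by rw [h]
  rw [pv_sec, pv_sec] at h1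
  simpa using (List.cons.inj h1).1

/-- number of letters different from `a` -/
def nb : List Gen → ℕ
  | [] => 0
  | .a :: w => nb w
  | .b :: w => nb w + 1
  | .c :: w => nb w + 1
  | .d :: w => nb w + 1

/-- number of letters `a` -/
def na : List Gen → ℕ
  | [] => 0
  | .a :: w => na w + 1
  | .b :: w => na w
  | .c :: w => na w
  | .d :: w => na w

theorem na_nb (w : List Gen) : na w + nb w = w.length := by
  induction w with
  | nil => rfl
  | cons s w ih => cases s <;> simp only [na, nb, List.length_cons] <;> omega

theorem par_na (w : List Gen) : par w = (na w).bodd := by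
  induction w with
  | nil => rfl
  | cons s w ih => cases s <;> simp [par, na, ih]

theorem sec_le (x : Bool) (w : List Gen) : (sec x w).length ≤ nb w := by
  induction w with
  | nil => exact le_rfl
  | cons s w ih =>
    rw [sec, List.length_append]
    cases s <;> cases (xor x (par w)) <;> simp only [secl, nb, List.length_cons,
      List.length_nil] <;> omega

/-- alternating words -/
def Alt (w : List Gen) : Prop := List.IsChain (fun s t => ¬(s = Gen.a ↔ t = Gen.a)) w

/-- reduction of two letters -/
def red : Gen → Gen → List Gen
  | .a, .a => []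
  | .b, .b => []
  | .c, .c => []
  | .d, .d => []
  | .b, .c => [.d]
  | .c, .b => [.d]
  | .b, .d => [.c]
  | .d, .b => [.c]
  | .c, .d => [.b]
  | .d, .c => [.b]
  | s, t => [s, t]

theorem act_bcd (v : List Bool) :
    act .b (act .c v) = act .d v ∧ act .c (act .b v) = act .d v ∧ act .b (act .d v) = act .c v ∧
    act .d (act .b v) = act .c v ∧ act .c (act .d v) = act .b v ∧ act .d (act .c v) = act .b v := by
  induction v with
  | nil => simp [act]
  | cons x v ih =>
    obtain ⟨h1, h2, h3, h4, h5, h6⟩ := ih
    cases x
    · simp [act, act_act]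
    · simp [act, h1, h2, h3, h4, h5, h6]

theorem pv_red (s t : Gen) : pv (red s t) = pv [s, t] := by
  apply Equiv.ext
  intro v
  have h0 : pv [s, t] v = act s (act t v) := rfl
  obtain ⟨h1, h2, h3, h4, h5, h6⟩ := act_bcd v
  rw [h0]
  cases s <;> cases t <;> first | rfl | exact (act_act _ v).symm | skip
  · exact h1.symm
  · exact h3.symm
  · exact h2.symm
  · exact h5.symm
  · exact h4.symm
  · exact h6.symm

theorem red_lt {s t : Gen} (h : s = Gen.a ↔ t = Gen.a) : (red s t).length < 2 := by
  cases s <;> cases t <;> simp [red] at h ⊢

/-- geodesics are alternating -/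
theorem alt_of_min : ∀ (w u : List Gen), (∀ w', pv w' = pv (u ++ w) →
    (u ++ w).length ≤ w'.length) → Alt w
  | [], _, _ => List.IsChain.nil
  | [s], _, _ => List.IsChain.singleton s
  | s :: t :: w, u, h => by
    refine List.IsChain.cons_cons (fun hst => ?_) (alt_of_min (t :: w) (u ++ [s]) ?_)
    · have h1 := h (u ++ (red s t ++ w)) (by
        rw [pv_append, pv_append, pv_append, pv_red]
        congr 1)
      have h2 := red_lt hst
      simp only [List.length_append, List.length_cons] at h1
      omega
    · intro w' hw'
      have := h w' (by rw [hw']; congr 1; simp)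
      simpa using this

theorem alt_nb : ∀ w : List Gen, Alt w → 2 * nb w ≤ w.length + 1 ∧
    (w.head? = some Gen.a → 2 * nb w ≤ w.length)
  | [], _ => by simp [nb]
  | [s], _ => by cases s <;> simp [nb]
  | s :: t :: w, h => by
    have h1 := List.isChain_cons_cons.1 h
    have h2 : Alt w := (List.isChain_cons.1 h1.2).2
    obtain ⟨h3, h4⟩ := alt_nb w h2
    have h5 : ∀ z, w.head? = some z → ¬(t = Gen.a ↔ z = Gen.a) := fun z hz =>
      (List.isChain_cons.1 h1.2).1 z (by rw [hz]; rfl)
    by_cases hs : s = Gen.a
    · subst hs
      have ht : t ≠ Gen.a := fun e => h1.1 (by simp [e])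
      have hw : 2 * nb w ≤ w.length := by
        cases w with
        | nil => simp [nb]
        | cons z w =>
          have h6 := h5 z rfl
          have h7 : z = Gen.a := by
            by_contra h8
            exact h6 (by simp [ht, h8])
          exact h4 (by rw [h7]; rfl)
      refine ⟨?_, fun _ => ?_⟩ <;> cases t <;> simp_all [nb] <;> omega
    · have ht : t = Gen.a := by
        by_contra ht
        exact h1.1 (by simp [hs, ht])
      subst ht
      refine ⟨?_, fun e => absurd (Option.some.inj e) hs⟩
      cases s
      · exact absurd rfl hs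
      all_goals
        simp only [nb, List.length_cons]
        omega

/-- `a x₁ a x₂ …` for `true`, `x₁ a x₂ a …` for `false` -/
def T (τ : Bool) (xs : List Gen) : List Gen :=
  xs.flatMap fun x => if τ = true then [Gen.a, x] else [x, Gen.a]

theorem T_nil (τ : Bool) : T τ [] = [] := rfl

theorem T_cons (τ : Bool) (x : Gen) (xs : List Gen) :
    T τ (x :: xs) = (if τ = true then [Gen.a, x] else [x, Gen.a]) ++ T τ xs := by
  simp [T]

theorem T_length (τ : Bool) (xs : List Gen) : (T τ xs).length = 2 * xs.length := by
  induction xs with
  | nil => rfl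
  | cons x xs ih =>
    rw [T_cons, List.length_append, ih, List.length_cons]
    cases τ <;> simp <;> omega

/-- sections of the letters, alternately at the two vertices -/
def alt (y : Bool) : List Gen → List Gen
  | [] => []
  | x :: xs => secl y x ++ alt (!y) xs

theorem par_T (τ : Bool) (xs : List Gen) (h : ∀ x ∈ xs, x ≠ Gen.a) :
    par (T τ xs) = xs.length.bodd := by
  induction xs with
  | nil => rfl
  | cons x xs ih =>
    have hx := h x List.mem_cons_self
    have ih' := ih fun z hz => h z (List.mem_cons_of_mem _ hz)
    rw [T_cons, List.length_cons, Nat.bodd_succ, ← ih']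
    cases τ <;> cases x <;> first | exact absurd rfl hx | simp [par]

theorem sec_T (τ v : Bool) (xs : List Gen) (h : ∀ x ∈ xs, x ≠ Gen.a) :
    sec v (T τ xs) = alt (xor τ (xor v xs.length.bodd)) xs := by
  induction xs with
  | nil => rfl
  | cons x xs ih =>
    have hx := h x List.mem_cons_self
    have hp := par_T τ xs fun z hz => h z (List.mem_cons_of_mem _ hz)
    have ih' := ih fun z hz => h z (List.mem_cons_of_mem _ hz)
    rw [T_cons, alt, List.length_cons, Nat.bodd_succ]
    cases τ
    · have e : sec v ((if false = true then [Gen.a, x] else [x, Gen.a]) ++ T false xs)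
          = secl (xor v (!par (T false xs))) x ++ sec v (T false xs) := by
        simp [sec, secl, par]
      rw [e, ih', hp]
      cases v <;> cases xs.length.bodd <;> rfl
    · have e : sec v ((if true = true then [Gen.a, x] else [x, Gen.a]) ++ T true xs)
          = secl (xor v (par (T true xs))) x ++ sec v (T true xs) := by
        simp [sec, secl]
      rw [e, ih', hp]
      cases v <;> cases xs.length.bodd <;> rfl

theorem alt_T : ∀ (m : ℕ) (w : List Gen), Alt w → w.length = 2 * m →
    ∃ τ xs, xs.length = m ∧ (∀ x ∈ xs, x ≠ Gen.a) ∧ w = T τ xs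
  | 0, w, _, hl => ⟨true, [], rfl, by simp, by
      rw [T_nil]
      exact List.length_eq_zero_iff.1 (by omega)⟩
  | m + 1, w, h, hl => by
    match w, h, hl with
    | [], _, hl => simp at hl
    | [_], _, hl => simp at hl; omega
    | s :: t :: w, h, hl =>
      have h1 := List.isChain_cons_cons.1 h
      have h2 : Alt w := (List.isChain_cons.1 h1.2).2
      obtain ⟨τ, xs, h3, h4, h5⟩ := alt_T m w h2 (by simp at hl; omega)
      have h6 : ∀ z, w.head? = some z → ¬(t = Gen.a ↔ z = Gen.a) := fun z hz =>
        (List.isChain_cons.1 h1.2).1 z (by rw [hz]; rfl)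
      by_cases hs : s = Gen.a
      · subst hs
        have ht : t ≠ Gen.a := fun e => h1.1 (by simp [e])
        refine ⟨true, t :: xs, by simp [h3], ?_, ?_⟩
        · intro x hx
          rcases List.mem_cons.1 hx with rfl | hx
          · exact ht
          · exact h4 x hx
        · rw [T_cons, h5]
          cases τ
          · cases xs with
            | nil => rfl
            | cons x xs =>
              exfalso
              refine h6 x (by rw [h5, T_cons]; rfl) ?_
              simp [ht, h4 x List.mem_cons_self]
          · rfl
      · have ht : t = Gen.a := by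
          by_contra ht
          exact h1.1 (by simp [hs, ht])
        subst ht
        refine ⟨false, s :: xs, by simp [h3], ?_, ?_⟩
        · intro x hx
          rcases List.mem_cons.1 hx with rfl | hx
          · exact hs
          · exact h4 x hx
        · rw [T_cons, h5]
          cases τ
          · rfl
          · cases xs with
            | nil => rfl
            | cons x xs =>
              exfalso
              exact h6 Gen.a (by rw [h5, T_cons]; rfl) (by simp)

theorem alt_le (y : Bool) (xs : List Gen) : (alt y xs).length ≤ xs.length := by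
  induction xs generalizing y with
  | nil => exact le_rfl
  | cons x xs ih =>
    rw [alt, List.length_append, List.length_cons]
    have := ih (!y)
    have h2 : (secl y x).length ≤ 1 := by cases y <;> cases x <;> simp [secl]
    omega

/-- restricted unique geodesics -/
def UX (X : Gen → Prop) (w : List Gen) : Prop :=
  ∀ w', pv w' = pv w → w'.length ≤ w.length → w'.length = w.length ∧
    (w'.head? = some Gen.a ↔ w.head? = some Gen.a) ∧ ((∀ s ∈ w', X s ∨ s = Gen.a) → w' = w)

/-- competitors of an alternating word with a good section -/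
theorem compet {τ : Bool} {xs : List Gen} (hx : ∀ x ∈ xs, x ≠ Gen.a) {y : Bool}
    (hfull : (alt y xs).length = xs.length) {Y : Gen → Prop} (hU : UX Y (alt y xs))
    {w' : List Gen} (hw : pv w' = pv (T τ xs)) (hl : w'.length ≤ (T τ xs).length) :
    ∃ xs', xs'.length = xs.length ∧ (∀ x ∈ xs', x ≠ Gen.a) ∧ w' = T τ xs' ∧
      (∀ z, pv (alt z xs') = pv (alt z xs)) ∧ (alt y xs').length = xs.length := by
  have hv : ∃ v, xor τ (xor v xs.length.bodd) = y :=
    ⟨xor τ (xor y xs.length.bodd), by cases τ <;> cases y <;> cases xs.length.bodd <;> rfl⟩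
  obtain ⟨v, hv⟩ := hv
  -- every word with this value has many letters
  have hmany : ∀ w'', pv w'' = pv (T τ xs) → xs.length ≤ nb w'' := by
    intro w'' h
    by_contra hc
    have h1 := sec_eq h v
    rw [sec_T τ v xs hx, hv] at h1
    have h2 := sec_le v w''
    have h3 := (hU _ h1 (by omega)).1
    omega
  have hpar : ∀ w'', pv w'' = pv (T τ xs) → (na w'').bodd = xs.length.bodd := by
    intro w'' h
    rw [← par_na, par_eq h, par_T τ xs hx]
  rw [T_length] at hl
  -- minimal words
  have hmin : ∀ w'', pv w'' = pv (T τ xs) → w''.length ≤ 2 * xs.length → Alt w'' →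
      w''.length = 2 * xs.length := by
    intro w'' h1 h2 h3
    have h4 := hmany w'' h1
    have h5 := (alt_nb w'' h3).1
    have h6 := na_nb w''
    by_contra hne
    have h7 : na w'' + 1 = xs.length := by omega
    have h8 := hpar w'' h1
    rw [← h7, Nat.bodd_succ] at h8
    cases h9 : (na w'').bodd <;> rw [h9] at h8 <;> exact absurd h8 (by decide)
  have hmin' : ∀ n, ∀ w'', pv w'' = pv (T τ xs) → w''.length = n → 2 * xs.length ≤ n := by
    intro n
    induction n using Nat.strong_induction_on with
    | _ n ih =>
      intro w'' h1 h2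
      by_contra hc
      by_cases h3 : ∀ u, pv u = pv w'' → w''.length ≤ u.length
      · have h4 := alt_of_min w'' [] (by simpa using h3)
        have := hmin w'' h1 (by omega) h4
        omega
      · push Not at h3
        obtain ⟨u, h4, h5⟩ := h3
        have := ih u.length (by omega) u (h4.trans h1) rfl
        omega
  have halt : Alt w' := alt_of_min w' [] (by
    intro u hu
    simp only [List.nil_append] at hu ⊢
    have := hmin' _ u (hu.trans hw) rfl
    omega)
  have hlen := hmin w' hw hl halt
  obtain ⟨τ', xs', h1, h2, h3⟩ := alt_T _ w' halt hlen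
  subst h3
  have hsec : ∀ u, pv (alt (xor τ' (xor u xs.length.bodd)) xs')
      = pv (alt (xor τ (xor u xs.length.bodd)) xs) := by
    intro u
    have := sec_eq hw u
    rwa [sec_T _ _ _ h2, sec_T _ _ _ hx, h1] at this
  have hs1 := hsec v
  rw [hv] at hs1
  have h4 := hU _ hs1 ((alt_le _ _).trans (by omega))
  have hττ : xs' = [] ∨ τ' = τ := by
    rcases xs' with _ | ⟨x', xs'⟩
    · exact Or.inl rfl
    · right
      rcases xs with _ | ⟨x, xs⟩
      · simp at h1
      have h5 := h4.2.1
      have h6 := h4.1
      have hx1 := hx x List.mem_cons_self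
      have hx2 := h2 x' List.mem_cons_self
      have h7 := alt_le (!(xor τ' (xor v (x :: xs).length.bodd))) xs'
      have h8 := alt_le (!y) xs
      by_contra hne
      have h9 : xor τ' (xor v (x :: xs).length.bodd) = !y := by
        rw [← hv]
        revert hne
        cases τ' <;> cases τ <;> cases v <;> cases (x :: xs).length.bodd <;> simp
      rw [h9] at h5 h6 h7
      simp only [alt, List.length_append, List.length_cons] at h5 h6 hfull h1 h7 h8
      cases y <;> cases x <;> cases x' <;>
        simp [secl] at h5 h6 hfull h7 h8 hx1 hx2 <;> omega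
  rcases hττ with h5 | h5
  · subst h5
    have h6 : xs = [] := List.length_eq_zero_iff.1 h1.symm
    subst h6
    exact ⟨[], rfl, by simp, rfl, fun z => rfl, rfl⟩
  · subst h5
    refine ⟨xs', h1, h2, rfl, fun z => ?_, ?_⟩
    · have := hsec (xor τ' (xor z xs.length.bodd))
      have e : xor τ' (xor (xor τ' (xor z xs.length.bodd)) xs.length.bodd) = z := by
        cases τ' <;> cases z <;> cases xs.length.bodd <;> rfl
      rwa [e] at this
    · rw [hv] at h4
      rw [h4.1, hfull]

/-- the letters at the first vertex (`y = false`) satisfy `P` -/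
def AllA (P : Gen → Prop) : Bool → List Gen → Prop
  | _, [] => True
  | y, x :: xs => (y = false → P x) ∧ AllA P (!y) xs

theorem alt_inj {e : Gen} : ∀ (y : Bool) (xs xs' : List Gen), xs.length = xs'.length →
    (∀ x ∈ xs, x ≠ Gen.a) → (∀ x ∈ xs', x ≠ Gen.a) → AllA (· = e) y xs → AllA (· = e) y xs' →
    (alt y xs).length = xs.length → alt y xs = alt y xs' → xs = xs'
  | _, [], [], _, _, _, _, _, _, _ => rfl
  | _, [], _ :: _, h, _, _, _, _, _, _ => by simp at h
  | _, _ :: _, [], h, _, _, _, _, _, _ => by simp at h
  | y, x :: xs, x' :: xs', h, h1, h2, h3, h4, h5, h6 => by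
    have hx := h1 x List.mem_cons_self
    have hx' := h2 x' List.mem_cons_self
    have h7 := alt_le (!y) xs
    have h8 := congrArg List.length h6
    have h9 := alt_le (!y) xs'
    simp only [alt, List.length_append, List.length_cons] at h h5 h8
    have h10 : (secl y x).length ≤ 1 := by cases y <;> cases x <;> simp [secl]
    have h11 : (secl y x').length ≤ 1 := by cases y <;> cases x' <;> simp [secl]
    obtain ⟨h12, h13⟩ := List.append_inj h6 (by omega)
    have h14 : x = x' := by
      cases y
      · rw [h3.1 rfl, h4.1 rfl]
      · cases x <;> cases x' <;> first | rfl | exact absurd rfl hx | exact absurd rfl hx' |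
          exact absurd h12 (by decide)
    rw [h14, alt_inj (!y) xs xs' (by omega) (fun z hz => h1 z (List.mem_cons_of_mem _ hz))
      (fun z hz => h2 z (List.mem_cons_of_mem _ hz)) h3.2 h4.2 (by omega) h13]

theorem alt_letters {X Y : Gen → Prop} (hβ : ∀ x z, X x → z ∈ secl true x → Y z) :
    ∀ (y : Bool) (xs : List Gen), (∀ x ∈ xs, X x) → ∀ z ∈ alt y xs, Y z ∨ z = Gen.a
  | _, [], _, z, hz => by simp [alt] at hz
  | y, x :: xs, h, z, hz => by
    rw [alt, List.mem_append] at hz
    rcases hz with hz | hz
    · cases y
      · right
        cases x <;> simp_all [secl]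
      · exact Or.inl (hβ x z (h x List.mem_cons_self) hz)
    · exact alt_letters hβ (!y) xs (fun x hx => h x (List.mem_cons_of_mem _ hx)) z hz

theorem allA_of {X : Gen → Prop} {e : Gen} (he : ∀ x, X x → secl false x ≠ [] → x = e) :
    ∀ (y : Bool) (xs : List Gen), (∀ x ∈ xs, X x) → (alt y xs).length = xs.length →
      AllA (· = e) y xs
  | _, [], _, _ => trivial
  | y, x :: xs, h, h1 => by
    have h2 := alt_le (!y) xs
    simp only [alt, List.length_append, List.length_cons] at h1
    have h10 : (secl y x).length ≤ 1 := by cases y <;> cases x <;> simp [secl]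
    refine ⟨fun hy => ?_, allA_of he (!y) xs (fun x hx => h x (List.mem_cons_of_mem _ hx))
      (by omega)⟩
    subst hy
    refine he x (h x List.mem_cons_self) fun h3 => ?_
    rw [h3] at h1
    simp only [List.length_nil] at h1
    omega

/-- the step (S) -/
theorem stepS {X Y : Gen → Prop} {e : Gen} (he : ∀ x, X x → secl false x ≠ [] → x = e)
    (hβ : ∀ x z, X x → z ∈ secl true x → Y z) {τ : Bool} {xs : List Gen} {y : Bool}
    (hx : ∀ x ∈ xs, x ≠ Gen.a) (hA : AllA (· = e) y xs)
    (hfull : (alt y xs).length = xs.length) (hU : UX Y (alt y xs)) : UX X (T τ xs) := by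
  intro w' hw hl
  obtain ⟨xs', h1, h2, h3, h4, h5⟩ := compet hx hfull hU hw hl
  subst h3
  refine ⟨by rw [T_length, T_length, h1], ?_, fun h6 => ?_⟩
  · rcases xs' with _ | ⟨x', xs'⟩
    · have : xs = [] := List.length_eq_zero_iff.1 h1.symm
      rw [this]
    · rcases xs with _ | ⟨x, xs⟩
      · simp at h1
      have hx1 := hx x List.mem_cons_self
      have hx2 := h2 x' List.mem_cons_self
      cases τ <;> simp [T_cons, hx1, hx2]
  · have h7 : ∀ x ∈ xs', X x := by
      intro x hx'
      have h8 : x ∈ T τ xs' := by
        rw [T, List.mem_flatMap]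
        exact ⟨x, hx', by cases τ <;> simp⟩
      exact (h6 x h8).resolve_right (h2 x hx')
    have h8 : alt y xs' = alt y xs :=
      (hU _ (h4 y) (by omega)).2.2 (alt_letters hβ y xs' h7)
    rw [alt_inj y xs' xs h1 h2 hx (allA_of he y xs' h7 (by omega)) hA (by omega) h8]

theorem alt_inj2 : ∀ (xs xs' : List Gen), xs.length = xs'.length →
    (∀ x ∈ xs, x ≠ Gen.a) → (∀ x ∈ xs', x ≠ Gen.a) →
    (∀ y, (alt y xs).length = xs.length) → (∀ y, alt y xs = alt y xs') → xs = xs'
  | [], [], _, _, _, _, _ => rfl
  | [], _ :: _, h, _, _, _, _ => by simp at h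
  | _ :: _, [], h, _, _, _, _ => by simp at h
  | x :: xs, x' :: xs', h, h1, h2, h5, h6 => by
    have hx := h1 x List.mem_cons_self
    have hx' := h2 x' List.mem_cons_self
    have key : ∀ y, secl y x = secl y x' ∧ alt (!y) xs = alt (!y) xs' ∧
        (alt (!y) xs).length = xs.length := by
      intro y
      have h7 := alt_le (!y) xs
      have h8 := congrArg List.length (h6 y)
      have h9 := alt_le (!y) xs'
      have h5' := h5 y
      have h6' := h6 y
      simp only [alt, List.length_append, List.length_cons] at h h5' h8
      have h10 : (secl y x).length ≤ 1 := by cases y <;> cases x <;> simp [secl]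
      have h11 : (secl y x').length ≤ 1 := by cases y <;> cases x' <;> simp [secl]
      obtain ⟨h12, h13⟩ := List.append_inj h6' (by omega)
      exact ⟨h12, h13, by omega⟩
    have h14 : x = x' := by
      have h12 := (key true).1
      cases x <;> cases x' <;> first | rfl | exact absurd rfl hx | exact absurd rfl hx' |
          exact absurd h12 (by decide)
    rw [h14, alt_inj2 xs xs' (by simpa using h) (fun z hz => h1 z (List.mem_cons_of_mem _ hz))
      (fun z hz => h2 z (List.mem_cons_of_mem _ hz))
      (fun y => by simpa using (key (!y)).2.2) (fun y => by simpa using (key (!y)).2.1)]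

/-- letters `b`, `c` -/
def BC (x : Gen) : Prop := x = Gen.b ∨ x = Gen.c

/-- letters `c`, `d` -/
def CD (x : Gen) : Prop := x = Gen.c ∨ x = Gen.d

/-- letters `b`, `d` -/
def BD (x : Gen) : Prop := x = Gen.b ∨ x = Gen.d

theorem bc_full : ∀ (y : Bool) (xs : List Gen), (∀ x ∈ xs, BC x) →
    (alt y xs).length = xs.length
  | _, [], _ => rfl
  | y, x :: xs, h => by
    rw [alt, List.length_append, bc_full (!y) xs fun z hz => h z (List.mem_cons_of_mem _ hz),
      List.length_cons]
    rcases h x List.mem_cons_self with rfl | rfl <;> cases y <;> simp [secl] <;> omega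

theorem full_bc : ∀ (xs : List Gen), (∀ x ∈ xs, x ≠ Gen.a) →
    (∀ y, (alt y xs).length = xs.length) → ∀ x ∈ xs, BC x
  | [], _, _ => by simp
  | x :: xs, h1, h => by
    have key : ∀ y, (secl y x).length = 1 ∧ (alt (!y) xs).length = xs.length := by
      intro y
      have h7 := alt_le (!y) xs
      have h5' := h y
      simp only [alt, List.length_append, List.length_cons] at h5'
      have h10 : (secl y x).length ≤ 1 := by cases y <;> cases x <;> simp [secl]
      exact ⟨by omega, by omega⟩
    intro z hz
    rcases List.mem_cons.1 hz with rfl | hz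
    · have h12 := (key false).1
      cases z
      · exact absurd rfl (h1 _ List.mem_cons_self)
      · exact Or.inl rfl
      · exact Or.inr rfl
      · simp [secl] at h12
    · exact full_bc xs (fun z hz => h1 z (List.mem_cons_of_mem _ hz))
        (fun y => by simpa using (key (!y)).2) z hz

/-- the step (Z) -/
theorem stepZ {τ : Bool} {xs : List Gen} (hx : ∀ x ∈ xs, BC x)
    (hU : ∀ y, UX CD (alt y xs)) : UG (T τ xs) := by
  intro w' hw hl
  have hxa : ∀ x ∈ xs, x ≠ Gen.a := by
    intro x h
    rcases hx x h with rfl | rfl <;> decide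
  obtain ⟨xs', h1, h2, h3, h4, -⟩ := compet hxa (bc_full false xs hx) (hU false) hw hl
  subst h3
  have hf : ∀ y, (alt y xs').length = xs'.length := by
    intro y
    have h5 := bc_full y xs hx
    have h6 := alt_le y xs'
    have := (hU y _ (h4 y) (by omega)).1
    omega
  have hbc := full_bc xs' h2 hf
  have h7 : ∀ y, alt y xs' = alt y xs := by
    intro y
    refine (hU y _ (h4 y) ?_).2.2 (alt_letters (X := BC) ?_ y xs' hbc)
    · rw [hf y, bc_full y xs hx, h1]
    · rintro x z (rfl | rfl) hz
      · rw [secl, List.mem_singleton] at hz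
        exact Or.inl hz
      · rw [secl, List.mem_singleton] at hz
        exact Or.inr hz
  rw [alt_inj2 xs' xs h1 h2 hxa hf h7]

theorem UX_of_UG {X : Gen → Prop} {w : List Gen} (h : UG w) : UX X w := by
  intro w' h1 h2
  have := h w' h1 h2
  subst this
  exact ⟨rfl, Iff.rfl, fun _ => rfl⟩

/-- letters of `aw` -/
def g (x : Bool) : Gen := if x = true then Gen.b else Gen.c

theorem aw_eq (s : List Bool) : aw s = T true (s.map g) := by
  rw [aw, T, List.flatMap_map]
  rfl

/-- first section -/
def Ys (s : List Bool) : List Gen :=
  s.flatMap fun x => [Gen.c, Gen.d, Gen.c, if x = true then Gen.c else Gen.d]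

/-- second section -/
def Zs (s : List Bool) : List Gen :=
  s.flatMap fun x => [Gen.b, if x = true then Gen.d else Gen.b]

theorem FF_nil : FF [] [] = [] := rfl

theorem FF_cons (x x' : Bool) (s s' : List Bool) :
    FF (x :: s) (x' :: s') = [true, true, false, false, true, true, x, x'] ++ FF s s' := by
  simp [FF]

theorem alt_true_FF : ∀ (s s' : List Bool), s.length = s'.length →
    alt true ((FF s s').map g) = T false (Ys s)
  | [], [], _ => rfl
  | [], _ :: _, h => by simp at h
  | _ :: _, [], h => by simp at h
  | x :: s, x' :: s', h => by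
    rw [FF_cons]
    have ih := alt_true_FF s s' (by simpa using h)
    cases x <;> cases x' <;> simp [alt, g, secl, Ys, T] at ih ⊢ <;> exact ih

theorem alt_false_FF : ∀ (s s' : List Bool), s.length = s'.length →
    alt false ((FF s s').map g) = T true (Ys s')
  | [], [], _ => rfl
  | [], _ :: _, h => by simp at h
  | _ :: _, [], h => by simp at h
  | x :: s, x' :: s', h => by
    rw [FF_cons]
    have ih := alt_false_FF s s' (by simpa using h)
    cases x <;> cases x' <;> simp [alt, g, secl, Ys, T] at ih ⊢ <;> exact ih

theorem alt_Ys (s : List Bool) : alt false (Ys s) = T true (Zs s) := by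
  induction s with
  | nil => rfl
  | cons x s ih => cases x <;> simp [alt, secl, Ys, Zs, T] at ih ⊢ <;> exact ih

theorem alt_Zs (s : List Bool) : alt false (Zs s) = aw s := by
  induction s with
  | nil => rfl
  | cons x s ih => cases x <;> simp [alt, secl, aw, Zs] at ih ⊢ <;> exact ih

theorem Zs_length (s : List Bool) : (Zs s).length = 2 * s.length := by
  induction s with
  | nil => rfl
  | cons x s ih =>
    simp [Zs] at ih ⊢
    omega

theorem Ys_length (s : List Bool) : (Ys s).length = 4 * s.length := by
  induction s with
  | nil => rfl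
  | cons x s ih =>
    simp [Ys] at ih ⊢
    omega

theorem aw_length (s : List Bool) : (aw s).length = 2 * s.length := by
  rw [aw_eq, T_length, List.length_map]

theorem Zs_A (s : List Bool) : AllA (· = Gen.b) false (Zs s) := by
  induction s with
  | nil => trivial
  | cons x s ih =>
    rw [Zs, List.flatMap_cons]
    exact ⟨fun _ => rfl, fun h => absurd h (by decide), ih⟩

theorem Ys_A (s : List Bool) : AllA (· = Gen.c) false (Ys s) := by
  induction s with
  | nil => trivial
  | cons x s ih =>
    rw [Ys, List.flatMap_cons]
    exact ⟨fun _ => rfl, fun h => absurd h (by decide), fun _ => rfl,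
      fun h => absurd h (by decide), ih⟩

theorem good_Zs {s : List Bool} (hs : Good s) (τ : Bool) : UX BD (T τ (Zs s)) := by
  refine stepS (X := BD) (Y := BC) (e := Gen.b) (y := false) ?_ ?_ ?_ (Zs_A s) ?_ ?_
  · rintro x (rfl | rfl) h
    · rfl
    · exact absurd rfl h
  · rintro x z (rfl | rfl) hz
    · rw [secl, List.mem_singleton] at hz
      exact Or.inr hz
    · rw [secl, List.mem_singleton] at hz
      exact Or.inl hz
  · intro x hx
    rw [Zs, List.mem_flatMap] at hx
    obtain ⟨z, -, hz⟩ := hx
    cases z <;> simp at hz
    · subst hz; decide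
    · rcases hz with rfl | rfl <;> decide
  · rw [alt_Zs, aw_length, Zs_length]
  · rw [alt_Zs]
    exact UX_of_UG hs

theorem good_Ys {s : List Bool} (hs : Good s) (τ : Bool) : UX CD (T τ (Ys s)) := by
  refine stepS (X := CD) (Y := BD) (e := Gen.c) (y := false) ?_ ?_ ?_ (Ys_A s) ?_ ?_
  · rintro x (rfl | rfl) h
    · rfl
    · exact absurd rfl h
  · rintro x z (rfl | rfl) hz
    · rw [secl, List.mem_singleton] at hz
      exact Or.inr hz
    · rw [secl, List.mem_singleton] at hz
      exact Or.inl hz
  · intro x hx
    rw [Ys, List.mem_flatMap] at hx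
    obtain ⟨z, -, hz⟩ := hx
    cases z <;> simp at hz
    · rcases hz with rfl | rfl | rfl | rfl <;> decide
    · rcases hz with rfl | rfl | rfl | rfl <;> decide
  · rw [alt_Ys, T_length, Zs_length, Ys_length]
    omega
  · rw [alt_Ys]
    exact good_Zs hs true

/-- unique geodesics are closed under factors -/
theorem UG_infix {w w' : List Gen} (h : w <:+: w') (hw : UG w') : UG w := by
  obtain ⟨u, v, rfl⟩ := h
  intro z h1 h2
  have h3 := hw (u ++ z ++ v) (by rw [pv_append, pv_append, h1, pv_append, pv_append])
    (by simp only [List.length_append]; omega)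
  exact List.append_cancel_left (List.append_cancel_right h3)

end UGeo

open UGeo

theorem good_FF (s s' : List Bool) (hl : s.length = s'.length) (hs : Good s) (hs' : Good s') :
    Good (FF s s') := by
  rw [Good, aw_eq]
  refine stepZ ?_ fun y => ?_
  · intro x hx
    rw [List.mem_map] at hx
    obtain ⟨z, -, rfl⟩ := hx
    cases z
    · exact Or.inr rfl
    · exact Or.inl rfl
  · cases y
    · rw [alt_false_FF s s' hl]
      exact good_Ys hs' true
    · rw [alt_true_FF s s' hl]
      exact good_Ys hs false

theorem good_infix (s s' : List Bool) (h : s <:+: s') (hs : Good s') : Good s := by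
  refine UG_infix ?_ hs
  obtain ⟨u, v, rfl⟩ := h
  refine ⟨aw u, aw v, ?_⟩
  simp [aw]

theorem good_single : Good [true] := by
  intro w' h1 h2
  have e : ∀ v, pv w' v = pv (aw [true]) v := fun v => by rw [h1]
  have e1 := e [true, true, true, true]
  have e2 := e [false, true, true, true]
  have e3 := e [true, false, true, true]
  have e4 := e [true, true, false, true]
  have e5 := e [false, false, true, true]
  have e6 := e [false, true, false, true]
  clear h1 e
  match w', h2 with
  | [], _ => exact absurd e1 (by decide)
  | [s], _ =>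
    cases s <;> first
      | exact absurd e1 (by decide) | exact absurd e2 (by decide) | exact absurd e3 (by decide)
      | exact absurd e4 (by decide) | exact absurd e5 (by decide) | exact absurd e6 (by decide)
  | [s, t], _ =>
    cases s <;> cases t <;> first
      | rfl
      | exact absurd e1 (by decide) | exact absurd e2 (by decide) | exact absurd e3 (by decide)
      | exact absurd e4 (by decide) | exact absurd e5 (by decide) | exact absurd e6 (by decide)
  | _ :: _ :: _ :: _, h2 => simp [aw] at h2

end Pool.Agent.H51.IGN
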