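import Pool.Agent.H51.IGN.M6

/-! The family of `2 ^ 2 ^ l` infinite unique geodesics and the counting argument. -/

namespace Pool.Agent.H51.IGN

open Pool.Agent.H57.EDT

/-! ### infinite words -/

/-- interleaving of two infinite words in the pattern of `FF` -/
def Fi (s s' : ℕ → Bool) (n : ℕ) : Bool :=
  if n % 8 = 0 then true else if n % 8 = 1 then true else if n % 8 = 2 then false
  else if n % 8 = 3 then false else if n % 8 = 4 then true else if n % 8 = 5 then true
  else if n % 8 = 6 then s (n / 8) else s' (n / 8)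

theorem pre_succ (s : ℕ → Bool) (n : ℕ) : pre s (n + 1) = pre s n ++ [s n] := by
  simp [pre, List.range_succ]

theorem length_pre (s : ℕ → Bool) (n : ℕ) : (pre s n).length = n := by simp [pre]

theorem pre_prefix (s : ℕ → Bool) {m n : ℕ} (h : m ≤ n) : pre s m <+: pre s n := by
  induction h with
  | refl => exact List.prefix_refl _
  | step _ ih => rw [pre_succ]; exact ih.trans (List.prefix_append _ _)

theorem pre_Fi (s s' : ℕ → Bool) (n : ℕ) : pre (Fi s s') (8 * n) = FF (pre s n) (pre s' n) := by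
  induction n with
  | zero => simp [pre, FF]
  | succ n ih =>
    have e : FF (pre s (n + 1)) (pre s' (n + 1)) =
        FF (pre s n) (pre s' n) ++ [true, true, false, false, true, true, s n, s' n] := by
      unfold FF
      rw [pre_succ, pre_succ, List.zip_append (by rw [length_pre, length_pre])]
      simp
    rw [e, ← ih, show 8 * (n + 1) = 8 * n + 1 + 1 + 1 + 1 + 1 + 1 + 1 + 1 by ring]
    simp only [pre_succ]
    have h0 : Fi s s' (8 * n) = true := by
      unfold Fi; rw [if_pos (by omega)]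
    have h1 : Fi s s' (8 * n + 1) = true := by
      unfold Fi; rw [if_neg (by omega), if_pos (by omega)]
    have h2 : Fi s s' (8 * n + 1 + 1) = false := by
      unfold Fi; rw [if_neg (by omega), if_neg (by omega), if_pos (by omega)]
    have h3 : Fi s s' (8 * n + 1 + 1 + 1) = false := by
      unfold Fi; rw [if_neg (by omega), if_neg (by omega), if_neg (by omega), if_pos (by omega)]
    have h4 : Fi s s' (8 * n + 1 + 1 + 1 + 1) = true := by
      unfold Fi
      rw [if_neg (by omega), if_neg (by omega), if_neg (by omega), if_neg (by omega),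
        if_pos (by omega)]
    have h5 : Fi s s' (8 * n + 1 + 1 + 1 + 1 + 1) = true := by
      unfold Fi
      rw [if_neg (by omega), if_neg (by omega), if_neg (by omega), if_neg (by omega),
        if_neg (by omega), if_pos (by omega)]
    have h6 : Fi s s' (8 * n + 1 + 1 + 1 + 1 + 1 + 1) = s n := by
      unfold Fi
      rw [if_neg (by omega), if_neg (by omega), if_neg (by omega), if_neg (by omega),
        if_neg (by omega), if_neg (by omega), if_pos (by omega),
        show (8 * n + 1 + 1 + 1 + 1 + 1 + 1) / 8 = n by omega]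
    have h7 : Fi s s' (8 * n + 1 + 1 + 1 + 1 + 1 + 1 + 1) = s' n := by
      unfold Fi
      rw [if_neg (by omega), if_neg (by omega), if_neg (by omega), if_neg (by omega),
        if_neg (by omega), if_neg (by omega), if_neg (by omega),
        show (8 * n + 1 + 1 + 1 + 1 + 1 + 1 + 1) / 8 = n by omega]
    rw [h0, h1, h2, h3, h4, h5, h6, h7]
    simp

/-- all prefixes are good -/
def GoodI (s : ℕ → Bool) : Prop := ∀ n, Good (pre s n)

theorem GoodI.Fi {s s' : ℕ → Bool} (h : GoodI s) (h' : GoodI s') : GoodI (Fi s s') := by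
  intro n
  have hg : Good (pre (IGN.Fi s s') (8 * n)) := by
    rw [pre_Fi]
    exact good_FF _ _ (by rw [length_pre, length_pre]) (h n) (h' n)
  exact good_infix _ _ (pre_prefix _ (by omega)).isInfix hg

/-- the fixed point of the pattern -/
def T0 (n : ℕ) : Bool :=
  if h0 : n % 8 = 0 then true else if n % 8 = 1 then true else if n % 8 = 2 then false
  else if n % 8 = 3 then false else if n % 8 = 4 then true else if n % 8 = 5 then true
  else if n % 8 = 6 then T0 (n / 8) else T0 (n / 8)
termination_by n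
decreasing_by all_goals omega

theorem T0_eq : T0 = Fi T0 T0 := by
  funext n
  rw [T0]
  unfold Fi
  split_ifs <;> rfl

theorem goodI_T0 : GoodI T0 := by
  intro n
  induction n using Nat.strong_induction_on with
  | _ n ih =>
    by_cases h1 : n ≤ 1
    · have h2 : pre T0 1 = [true] := by
        have h3 : T0 0 = true := by rw [T0]; rfl
        simp [pre, h3]
      have h4 : Good (pre T0 1) := by rw [h2]; exact good_single
      exact good_infix _ _ (pre_prefix T0 h1).isInfix h4
    · have h5 : Good (pre T0 (8 * ((n + 7) / 8))) := by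
        rw [T0_eq, pre_Fi]
        exact good_FF _ _ rfl (ih _ (by omega)) (ih _ (by omega))
      exact good_infix _ _ (pre_prefix _ (by omega)).isInfix h5

/-- the word `T0` or its shift -/
def T1 (b : Bool) (n : ℕ) : Bool := T0 (n + b.toNat)

theorem goodI_T1 (b : Bool) : GoodI (T1 b) := by
  intro n
  cases b with
  | false => exact goodI_T0 n
  | true =>
    have h1 : pre T0 (n + 1) = [T0 0] ++ pre (T1 true) n := by
      unfold pre
      rw [List.range_succ_eq_map, List.map_cons, List.map_map]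
      rfl
    refine good_infix _ (pre T0 (n + 1)) ?_ (goodI_T0 (n + 1))
    rw [h1]
    exact (List.suffix_append _ _).isInfix

/-- the family -/
def W : ℕ → (ℕ → Bool) → ℕ → Bool
  | 0, ε => T1 (ε 0)
  | l + 1, ε => Fi (W l (fun i => ε (2 * i))) (W l (fun i => ε (2 * i + 1)))

theorem goodI_W (l : ℕ) : ∀ ε, GoodI (W l ε) := by
  induction l with
  | zero => intro ε; exact goodI_T1 _
  | succ l ih => intro ε; exact (ih _).Fi (ih _)

/-- positions -/
def pos : ℕ → ℕ → ℕ
  | 0, _ => 0
  | l + 1, r => 8 * pos l (r / 2) + 6 + r % 2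

theorem pos_lt (l : ℕ) : ∀ r, pos l r < 8 ^ l := by
  induction l with
  | zero => intro r; simp [pos]
  | succ l ih =>
    intro r
    have := ih (r / 2)
    rw [pos, pow_succ]
    omega

theorem W_pos (l : ℕ) : ∀ (ε : ℕ → Bool) (i r : ℕ), r < 2 ^ l →
    W l ε (8 ^ l * i + pos l r) = T0 (i + (ε r).toNat) := by
  induction l with
  | zero =>
    intro ε i r hr
    have : r = 0 := by simpa using hr
    subst this
    simp [W, pos, T1]
  | succ l ih =>
    intro ε i r hr
    rw [pow_succ] at hr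
    have e : 8 ^ (l + 1) * i + pos (l + 1) r = 8 * (8 ^ l * i + pos l (r / 2)) + (6 + r % 2) := by
      rw [pos, pow_succ]; ring
    rw [e, W]
    unfold Fi
    rcases Nat.mod_two_eq_zero_or_one r with h | h
    · rw [h, if_neg (by omega), if_neg (by omega), if_neg (by omega), if_neg (by omega),
        if_neg (by omega), if_neg (by omega), if_pos (by omega),
        show (8 * (8 ^ l * i + pos l (r / 2)) + (6 + 0)) / 8 = 8 ^ l * i + pos l (r / 2) by omega,
        ih _ _ _ (by omega), show 2 * (r / 2) = r by omega]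
    · rw [h, if_neg (by omega), if_neg (by omega), if_neg (by omega), if_neg (by omega),
        if_neg (by omega), if_neg (by omega), if_neg (by omega),
        show (8 * (8 ^ l * i + pos l (r / 2)) + (6 + 1)) / 8 = 8 ^ l * i + pos l (r / 2) by omega,
        ih _ _ _ (by omega), show 2 * (r / 2) + 1 = r by omega]

/-- no nine equal consecutive letters -/
theorem T0_not_const (a : ℕ) (h : ∀ j, j < 8 → T0 (a + j) = T0 (a + j + 1)) : False := by
  have hc : ∀ j, j ≤ 8 → T0 (a + j) = T0 a := by
    intro j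
    induction j with
    | zero => intro _; rfl
    | succ j ih =>
      intro hj
      rw [← ih (by omega), h j (by omega)]
      rfl
  have h0 : ∀ n, n % 8 = 0 → T0 n = true := by
    intro n hn; rw [T0, dif_pos hn]
  have h2 : ∀ n, n % 8 = 2 → T0 n = false := by
    intro n hn
    rw [T0, dif_neg (by omega), if_neg (by omega), if_pos hn]
  have e1 := h0 (a + (8 - a % 8)) (by omega)
  have e2 := h2 (a + (10 - a % 8) % 8) (by omega)
  rw [hc _ (by omega)] at e1 e2
  rw [e1] at e2
  exact absurd e2 (by decide)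

/-! ### factors of `aw (pre s n)` -/

theorem aw_pre_succ (s : ℕ → Bool) (n : ℕ) :
    aw (pre s (n + 1)) = aw (pre s n) ++ [Gen.a, if s n then Gen.b else Gen.c] := by
  rw [pre_succ]; simp [aw]

theorem length_aw_pre (s : ℕ → Bool) (n : ℕ) : (aw (pre s n)).length = 2 * n := by
  induction n with
  | zero => simp [pre, aw]
  | succ n ih => rw [aw_pre_succ, List.length_append, ih]; simp; ring

theorem aw_pre_get (s : ℕ → Bool) (n i : ℕ) (hi : i < n) :
    (aw (pre s n))[2 * i + 1]? = some (if s i then Gen.b else Gen.c) := by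
  induction n with
  | zero => omega
  | succ n ih =>
    rw [aw_pre_succ]
    by_cases h : i < n
    · rw [List.getElem?_append_left (by rw [length_aw_pre]; omega)]
      exact ih h
    · have : i = n := by omega
      subst this
      rw [List.getElem?_append_right (by rw [length_aw_pre]; omega), length_aw_pre,
        show 2 * i + 1 - 2 * i = 1 by omega]
      rfl

theorem letter_inj {x y : Bool}
    (h : (if x then Gen.b else Gen.c) = (if y then Gen.b else Gen.c)) : x = y := by
  cases x <;> cases y <;> simp_all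

/-- the letters of a factor -/
theorem factor_get {y : List Gen} {s : ℕ → Bool} {n : ℕ} (h : y <:+: aw (pre s n)) :
    ∃ q, ∀ i, q ≤ 2 * i + 1 → 2 * i + 1 < q + y.length →
      y[2 * i + 1 - q]? = some (if s i then Gen.b else Gen.c) := by
  obtain ⟨u, v, huv⟩ := h
  refine ⟨u.length, fun i h1 h2 => ?_⟩
  have hl : (u ++ y ++ v).length = 2 * n := by rw [huv, length_aw_pre]
  simp only [List.length_append] at hl
  have hg := aw_pre_get s n i (by omega)
  rw [← huv, List.append_assoc, List.getElem?_append_right h1,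
    List.getElem?_append_left (by omega)] at hg
  exact hg

/-- extension of a finite choice function -/
def ext (l : ℕ) (ε : Fin (2 ^ l) → Bool) (i : ℕ) : Bool := if h : i < 2 ^ l then ε ⟨i, h⟩ else false

/-- one long word is a factor of few members of the family -/
theorem card_bad (l : ℕ) (y : List Gen) (hy : 24 * 8 ^ l ≤ y.length) :
    {ε : Fin (2 ^ l) → Bool | ∃ n, y <:+: aw (pre (W l (ext l ε)) n)}.ncard ≤
      2 ^ (3 * l + 10) := by
  classical
  have hB : 0 < 8 ^ l := by positivity
  have hch : ∀ ε : Fin (2 ^ l) → Bool, (∃ n, y <:+: aw (pre (W l (ext l ε)) n)) →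
      ∃ q, ∀ i, q ≤ 2 * i + 1 → 2 * i + 1 < q + y.length →
        y[2 * i + 1 - q]? = some (if W l (ext l ε) i then Gen.b else Gen.c) := by
    rintro ε ⟨n, hn⟩
    exact factor_get hn
  choose! q hq using hch
  let f : (Fin (2 ^ l) → Bool) → Fin (2 * 8 ^ l) × (Fin 9 → Bool) := fun ε =>
    (⟨q ε % (2 * 8 ^ l), Nat.mod_lt _ (by positivity)⟩,
      fun j => T0 (q ε / (2 * 8 ^ l) + 1 + j.1))
  have hcard : (Set.univ : Set (Fin (2 * 8 ^ l) × (Fin 9 → Bool))).ncard = 2 ^ (3 * l + 10) := by
    rw [Set.ncard_univ, Nat.card_eq_fintype_card, Fintype.card_prod, Fintype.card_fin,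
      Fintype.card_fun, Fintype.card_bool, Fintype.card_fin, show (8 : ℕ) = 2 ^ 3 by norm_num,
      ← pow_mul]
    ring
  rw [← hcard]
  refine Set.ncard_le_ncard_of_injOn f (fun _ _ => Set.mem_univ _) ?_ Set.finite_univ
  intro ε hε ε' hε' hf
  have h1 : q ε % (2 * 8 ^ l) = q ε' % (2 * 8 ^ l) := by
    have := congrArg (fun z => z.1.1) hf
    exact this
  have h2 : ∀ j, j < 9 → T0 (q ε / (2 * 8 ^ l) + 1 + j) = T0 (q ε' / (2 * 8 ^ l) + 1 + j) := by
    intro j hj
    exact congrFun (congrArg Prod.snd hf) ⟨j, hj⟩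
  -- the letters
  have key : ∀ r, r < 2 ^ l → ∀ j, j < 8 →
      T0 (q ε / (2 * 8 ^ l) + 1 + j + (ext l ε r).toNat) =
        T0 (q ε' / (2 * 8 ^ l) + 1 + j + (ext l ε' r).toNat) := by
    intro r hr j hj
    have hp := pos_lt l r
    have gen : ∀ δ : Fin (2 ^ l) → Bool, (∃ n, y <:+: aw (pre (W l (ext l δ)) n)) →
        y[2 * 8 ^ l * (1 + j) + 2 * pos l r + 1 - q δ % (2 * 8 ^ l)]? =
          some (if T0 (q δ / (2 * 8 ^ l) + 1 + j + (ext l δ r).toNat) then Gen.b else Gen.c) := by
      intro δ hδ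
      have hd := Nat.div_add_mod (q δ) (2 * 8 ^ l)
      have hm := Nat.mod_lt (q δ) (show 0 < 2 * 8 ^ l by positivity)
      have h3 := hq δ hδ (8 ^ l * (q δ / (2 * 8 ^ l) + 1 + j) + pos l r)
      rw [W_pos l _ _ _ hr] at h3
      set Q := q δ / (2 * 8 ^ l) with hQ
      set R := q δ % (2 * 8 ^ l) with hR
      have e1 : 2 * (8 ^ l * (Q + 1 + j) + pos l r) + 1 =
          2 * 8 ^ l * Q + (2 * 8 ^ l * (1 + j) + 2 * pos l r + 1) := by ring
      have e2 : 2 * 8 ^ l * (1 + j) ≤ 2 * 8 ^ l * 8 := Nat.mul_le_mul_left _ (by omega)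
      have e3 : 2 * 8 ^ l ≤ 2 * 8 ^ l * (1 + j) := Nat.le_mul_of_pos_right _ (by omega)
      rw [e1] at h3
      have h4 := h3 (by omega) (by omega)
      rw [← h4]
      congr 1
      omega
    have g1 := gen ε hε
    have g2 := gen ε' hε'
    rw [h1, g2] at g1
    exact (letter_inj (Option.some.inj g1)).symm
  funext ⟨r, hr⟩
  have hx : ∀ δ : Fin (2 ^ l) → Bool, ext l δ r = δ ⟨r, hr⟩ := by
    intro δ; unfold ext; rw [dif_pos hr]
  rw [← hx ε, ← hx ε']
  by_contra hne
  have hk := key r hr
  cases h3 : ext l ε r <;> cases h4 : ext l ε' r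
  · rw [h3, h4] at hne; exact hne rfl
  · rw [h3, h4] at hk
    refine T0_not_const (q ε / (2 * 8 ^ l) + 1) (fun j hj => ?_)
    have h5 := hk j hj
    have h6 := h2 (j + 1) (by omega)
    simp only [Bool.toNat_false, Bool.toNat_true, add_zero] at h5
    rw [h5, add_assoc _ j 1, ← h6]
    rfl
  · rw [h3, h4] at hk
    refine T0_not_const (q ε' / (2 * 8 ^ l) + 1) (fun j hj => ?_)
    have h5 := hk j hj
    have h6 := h2 (j + 1) (by omega)
    simp only [Bool.toNat_false, Bool.toNat_true, add_zero] at h5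
    rw [← h5, add_assoc _ j 1, h6]
    rfl
  · rw [h3, h4] at hne; exact hne rfl

/-- polynomial against exponential -/
theorem exists_l (k D : ℕ) : ∃ l : ℕ, D * (3 * l + 6) ^ k + (3 * l + 10) < 2 ^ l := by
  have ht := tendsto_pow_const_div_const_pow_of_one_lt (k + 1) (show (1 : ℝ) < 2 by norm_num)
  have hpos : (0 : ℝ) < 1 / (D * 9 ^ k + 13) := by positivity
  have hev := (ht.eventually_lt_const hpos).and (Filter.eventually_ge_atTop 1)
  obtain ⟨l, hl, hl1⟩ := hev.exists
  refine ⟨l, ?_⟩
  rw [div_lt_div_iff₀ (by positivity) (by positivity), one_mul] at hl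
  have hl' : l ^ (k + 1) * (D * 9 ^ k + 13) < 2 ^ l := by exact_mod_cast hl
  refine lt_of_le_of_lt ?_ hl'
  have h1 : (3 * l + 6) ^ k ≤ 9 ^ k * l ^ (k + 1) := by
    calc (3 * l + 6) ^ k ≤ (9 * l) ^ k := Nat.pow_le_pow_left (by omega) k
      _ = 9 ^ k * l ^ k := mul_pow _ _ _
      _ ≤ 9 ^ k * l ^ (k + 1) := Nat.mul_le_mul_left _ (Nat.pow_le_pow_right hl1 (by omega))
  have h2 : l ≤ l ^ (k + 1) := Nat.le_self_pow (by omega) l
  calc D * (3 * l + 6) ^ k + (3 * l + 10) ≤ D * (9 ^ k * l ^ (k + 1)) + 13 * l ^ (k + 1) := by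
        have := Nat.mul_le_mul_left D h1
        omega
    _ = l ^ (k + 1) * (D * 9 ^ k + 13) := by ring

/-- some member of the family avoids all words of medium length in a thin set -/
theorem family (M : Set (List Gen)) (k D : ℕ)
    (hM : ∀ n : ℕ, {y | y ∈ M ∧ y.length ≤ n}.Finite ∧
        {y | y ∈ M ∧ y.length ≤ n}.ncard ≤ 2 ^ (D * (Nat.log 2 n + 1) ^ k)) :
    ∃ h : ℕ, 2 ≤ h ∧ ∃ s : ℕ → Bool, (∀ n, Good (pre s n)) ∧
      ∀ n, ∀ y ∈ M, h ≤ y.length → y.length ≤ 2 * h → ¬ y <:+: aw (pre s n) := by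
  classical
  obtain ⟨l, hl⟩ := exists_l k D
  have hB : 0 < 8 ^ l := by positivity
  refine ⟨24 * 8 ^ l, by omega, ?_⟩
  obtain ⟨hfin, hcard⟩ := hM (2 * (24 * 8 ^ l))
  have hlog : Nat.log 2 (2 * (24 * 8 ^ l)) ≤ 3 * l + 5 := by
    apply Nat.lt_succ_iff.mp
    apply Nat.log_lt_of_lt_pow (by omega)
    have : 2 ^ (3 * l + 5).succ = 64 * 8 ^ l := by
      rw [show (8 : ℕ) = 2 ^ 3 by norm_num, ← pow_mul, Nat.succ_eq_add_one, pow_succ, pow_add]
      ring
    omega
  have hcard2 : {y | y ∈ M ∧ y.length ≤ 2 * (24 * 8 ^ l)}.ncard ≤ 2 ^ (D * (3 * l + 6) ^ k) := by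
    refine hcard.trans (Nat.pow_le_pow_right (by norm_num) (Nat.mul_le_mul_left _ ?_))
    exact Nat.pow_le_pow_left (by omega) k
  set Y : Finset (List Gen) := hfin.toFinset.filter (fun y => 24 * 8 ^ l ≤ y.length) with hY
  have hYc : Y.card ≤ 2 ^ (D * (3 * l + 6) ^ k) := by
    refine (Finset.card_filter_le _ _).trans ?_
    rw [← Set.ncard_eq_toFinset_card _ hfin]
    exact hcard2
  let bad : List Gen → Finset (Fin (2 ^ l) → Bool) := fun y =>
    Finset.univ.filter (fun ε => ∃ n, y <:+: aw (pre (W l (ext l ε)) n))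
  have hbad : ∀ y ∈ Y, (bad y).card ≤ 2 ^ (3 * l + 10) := by
    intro y hy
    have h1 := card_bad l y (Finset.mem_filter.mp hy).2
    have h2 : {ε : Fin (2 ^ l) → Bool | ∃ n, y <:+: aw (pre (W l (ext l ε)) n)} =
        (bad y : Set (Fin (2 ^ l) → Bool)) := by
      ext ε; simp [bad]
    rw [h2, Set.ncard_coe_finset] at h1
    exact h1
  have htot : (Y.biUnion bad).card < (Finset.univ : Finset (Fin (2 ^ l) → Bool)).card := by
    calc (Y.biUnion bad).card ≤ Y.card * 2 ^ (3 * l + 10) := Finset.card_biUnion_le_card_mul _ _ _ hbad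
      _ ≤ 2 ^ (D * (3 * l + 6) ^ k) * 2 ^ (3 * l + 10) := Nat.mul_le_mul_right _ hYc
      _ = 2 ^ (D * (3 * l + 6) ^ k + (3 * l + 10)) := (pow_add _ _ _).symm
      _ < 2 ^ 2 ^ l := Nat.pow_lt_pow_right (by norm_num) hl
      _ = (Finset.univ : Finset (Fin (2 ^ l) → Bool)).card := by
        rw [Finset.card_univ, Fintype.card_fun, Fintype.card_bool, Fintype.card_fin]
  obtain ⟨ε, -, hε⟩ := Finset.exists_mem_notMem_of_card_lt_card htot
  refine ⟨W l (ext l ε), goodI_W l _, fun n y hyM h1 h2 hf => hε ?_⟩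
  refine Finset.mem_biUnion.mpr ⟨y, ?_, ?_⟩
  · refine Finset.mem_filter.mpr ⟨hfin.mem_toFinset.mpr ⟨hyM, h2⟩, h1⟩
  · exact Finset.mem_filter.mpr ⟨Finset.mem_univ _, n, hf⟩

end Pool.Agent.H51.IGN
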