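import Pool.Agent.H51.IGN.Defs

/-! Subexponential growth of the first Grigorchuk group, with the weights `5, 6, 4, 2`. -/

namespace Pool.Agent.H51.IGN

open Pool.Agent.H57.EDT

/-- weight of a letter -/
def wtl : Gen → ℕ
  | .a => 5
  | .b => 6
  | .c => 4
  | .d => 2

/-- weight of a word -/
def wt : List Gen → ℕ
  | [] => 0
  | s :: w => wtl s + wt w

theorem wt_append (u v : List Gen) : wt (u ++ v) = wt u + wt v := by
  induction u with
  | nil => simp [wt]
  | cons s u ih => rw [List.cons_append, wt, wt, ih]; ring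

theorem length_le_wt (w : List Gen) : w.length ≤ wt w := by
  induction w with
  | nil => simp [wt]
  | cons s w ih =>
    rw [List.length_cons, wt]
    have : 1 ≤ wtl s := by cases s <;> simp [wtl]
    omega

theorem wt_le_length (w : List Gen) : wt w ≤ 6 * w.length := by
  induction w with
  | nil => simp [wt]
  | cons s w ih =>
    rw [List.length_cons, wt]
    have : wtl s ≤ 6 := by cases s <;> simp [wtl]
    omega

/-- weight of the two sections of a letter -/
def sw : Gen → ℕ
  | .a => 0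
  | .b => 9
  | .c => 7
  | .d => 6

/-- weight of the two sections of a word -/
def SW (w : List Gen) : ℕ := wt (secw false w) + wt (secw true w)

theorem SW_cons (s : Gen) (w : List Gen) : SW (s :: w) = sw s + SW w := by
  unfold SW
  rw [secw, secw, wt_append, wt_append]
  have h := outw_not false w
  rw [Bool.not_false] at h
  rw [h]
  cases s <;> cases outw false w <;> simp [secl, wt, wtl, sw] <;> omega

theorem SW_nil : SW [] = 0 := rfl

theorem pair_wt (s t : Gen) (hs : s ≠ .a) (ht : t ≠ .a) :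
    ∃ z : List Gen, z.length ≤ 1 ∧ wt z ≤ wtl s + wtl t ∧ vg z = gen s * gen t := by
  have hx : ∀ x y : X3, ∃ z : List Gen, z.length ≤ 1 ∧ wt z ≤ wtl x.g + wtl y.g ∧
      vg z = gen x.g * gen y.g := by
    intro x y
    by_cases h : x = y
    · subst h
      exact ⟨[], by simp, by simp [wt], by rw [gen_sq]; rfl⟩
    · refine ⟨[(third x y).g], by simp, ?_, ?_⟩
      · cases x <;> cases y <;> simp_all [third, X3.g, wt, wtl]
      · apply Subtype.ext
        rw [coe_vg, pv_cons, pv_nil, mul_one]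
        exact (xp_mul x y h).symm
  have hg : ∀ s : Gen, s ≠ .a → ∃ x : X3, x.g = s := by
    intro s hs
    cases s
    · exact absurd rfl hs
    · exact ⟨.b, rfl⟩
    · exact ⟨.c, rfl⟩
    · exact ⟨.d, rfl⟩
  obtain ⟨x, rfl⟩ := hg s hs
  obtain ⟨y, rfl⟩ := hg t ht
  exact hx x y

theorem contract (n : ℕ) : ∀ w : List Gen, w.length = n →
    ∃ w', vg w' = vg w ∧ 7 * SW w' ≤ 6 * (wt w + 5) := by
  induction n using Nat.strong_induction_on with
  | _ n IH =>
    intro w hw
    match w, hw with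
    | [], hw => exact ⟨[], rfl, by rw [SW_nil]; omega⟩
    | [s], hw =>
      refine ⟨[s], rfl, ?_⟩
      rw [SW_cons, SW_nil, wt, wt]
      cases s <;> simp [sw, wtl]
    | s :: t :: r, hw =>
      simp only [List.length_cons] at hw
      by_cases hs : s = .a
      · subst hs
        obtain ⟨w', h1, h2⟩ := IH (t :: r).length (by simp only [List.length_cons]; omega)
          (t :: r) rfl
        refine ⟨.a :: w', by rw [vg_cons, vg_cons, h1], ?_⟩
        rw [SW_cons, wt]
        have : sw .a = 0 := rfl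
        omega
      · by_cases ht : t = .a
        · subst ht
          obtain ⟨w', h1, h2⟩ := IH r.length (by omega) r rfl
          refine ⟨s :: .a :: w', by rw [vg_cons, vg_cons, vg_cons, vg_cons, h1], ?_⟩
          rw [SW_cons, SW_cons, wt, wt]
          have e1 : sw .a = 0 := rfl
          have e2 : wtl .a = 5 := rfl
          have e3 : 7 * sw s ≤ 6 * (wtl s + 5) := by cases s <;> simp [sw, wtl]
          omega
        · obtain ⟨z, hz, hzw, hzv⟩ := pair_wt s t hs ht
          obtain ⟨w', h1, h2⟩ := IH (z ++ r).length (by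
            simp only [List.length_append]; omega) (z ++ r) rfl
          refine ⟨w', ?_, ?_⟩
          · rw [h1, vg_append, hzv, vg_cons, vg_cons, mul_assoc]
          · rw [wt_append] at h2
            rw [wt, wt]
            omega

/-- weighted norm -/
noncomputable def nrm (g : Grig) : ℕ := sInf {n : ℕ | ∃ w : List Gen, vg w = g ∧ wt w = n}

theorem nrm_le (w : List Gen) : nrm (vg w) ≤ wt w := Nat.sInf_le ⟨w, rfl, rfl⟩

theorem exists_nrm (g : Grig) : ∃ w, vg w = g ∧ wt w = nrm g := by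
  obtain ⟨w, hw⟩ := vg_surj g
  have : {n : ℕ | ∃ w : List Gen, vg w = g ∧ wt w = n}.Nonempty := ⟨wt w, w, hw, rfl⟩
  exact Nat.sInf_mem this

theorem nrm_le_wl (g : Grig) : nrm g ≤ 6 * wordLength g := by
  obtain ⟨w, hw, hwl⟩ := exists_word g
  rw [← hwl, ← hw]
  exact (nrm_le w).trans (wt_le_length w)

theorem wl_le_nrm (g : Grig) : wordLength g ≤ nrm g := by
  obtain ⟨w, hw, hwl⟩ := exists_nrm g
  rw [← hwl, ← hw]
  exact (wl_le w).trans (length_le_wt w)

/-- sections with contraction of the weighted norm -/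
theorem exists_secW (g : Grig) : ∃ p : Bool × Grig × Grig,
    (∀ v, (g : Equiv.Perm (List Bool)) (false :: v) =
      p.1 :: (p.2.1 : Equiv.Perm (List Bool)) v) ∧
    (∀ v, (g : Equiv.Perm (List Bool)) (true :: v) =
      (!p.1) :: (p.2.2 : Equiv.Perm (List Bool)) v) ∧
    7 * (nrm p.2.1 + nrm p.2.2) ≤ 6 * (nrm g + 5) := by
  obtain ⟨w, hw, hwl⟩ := exists_nrm g
  obtain ⟨w', h1, h2⟩ := contract w.length w rfl
  have hg : (g : Equiv.Perm (List Bool)) = pv w' := by rw [← hw, ← h1, coe_vg]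
  refine ⟨(outw false w', vg (secw false w'), vg (secw true w')), ?_, ?_, ?_⟩
  · intro v; rw [hg, pv_sec, coe_vg]
  · intro v
    rw [hg, pv_sec, coe_vg]
    have := outw_not false w'
    rw [Bool.not_false] at this
    rw [this]
  · have e1 := nrm_le (secw false w')
    have e2 := nrm_le (secw true w')
    unfold SW at h2
    simp only
    omega

/-- the three data of an element -/
noncomputable def dat (g : Grig) : Bool × Grig × Grig := (exists_secW g).choose

theorem dat_nrm (g : Grig) : 7 * (nrm (dat g).2.1 + nrm (dat g).2.2) ≤ 6 * (nrm g + 5) :=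
  (exists_secW g).choose_spec.2.2

theorem dat_inj : Function.Injective dat := by
  intro g h hgh
  have hg1 := (exists_secW g).choose_spec.1
  have hg2 := (exists_secW g).choose_spec.2.1
  have hh1 := (exists_secW h).choose_spec.1
  have hh2 := (exists_secW h).choose_spec.2.1
  have e : (exists_secW g).choose = (exists_secW h).choose := hgh
  apply Subtype.ext
  ext1 v
  match v with
  | [] => rw [Grig_nil, Grig_nil]
  | false :: v => rw [hg1, hh1, e]
  | true :: v => rw [hg2, hh2, e]

theorem finite_nrm (n : ℕ) : {g : Grig | nrm g ≤ n}.Finite := by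
  apply (finite_ball n).subset
  intro g hg
  rw [Set.mem_ofPred_eq] at hg ⊢
  exact (wl_le_nrm g).trans hg

/-- the balls of the weighted norm -/
noncomputable def BW (n : ℕ) : Finset Grig := (finite_nrm n).toFinset

theorem mem_BW {n : ℕ} {g : Grig} : g ∈ BW n ↔ nrm g ≤ n := by
  unfold BW
  rw [Set.Finite.mem_toFinset, Set.mem_ofPred_eq]

theorem card_rec (n : ℕ) : (BW n).card ≤
    ∑ i ∈ Finset.range (6 * (n + 5) / 7 + 1), 2 * ((BW i).card * (BW (6 * (n + 5) / 7 - i)).card) := by
  classical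
  set m := 6 * (n + 5) / 7 with hm
  have h1 : (BW n).image dat ⊆ (Finset.range (m + 1)).biUnion (fun i =>
      (Finset.univ : Finset Bool) ×ˢ (BW i ×ˢ BW (m - i))) := by
    intro p hp
    rw [Finset.mem_image] at hp
    obtain ⟨g, hg, rfl⟩ := hp
    rw [mem_BW] at hg
    have h2 := dat_nrm g
    have h3 : nrm (dat g).2.1 + nrm (dat g).2.2 ≤ m := by omega
    rw [Finset.mem_biUnion]
    refine ⟨nrm (dat g).2.1, ?_, ?_⟩
    · rw [Finset.mem_range]; omega
    · rw [Finset.mem_product, Finset.mem_product, mem_BW, mem_BW]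
      exact ⟨Finset.mem_univ _, le_rfl, by omega⟩
  calc (BW n).card = ((BW n).image dat).card :=
        (Finset.card_image_of_injective _ dat_inj).symm
    _ ≤ _ := Finset.card_le_card h1
    _ ≤ _ := Finset.card_biUnion_le
    _ = _ := by
      apply Finset.sum_congr rfl
      intro i _
      rw [Finset.card_product, Finset.card_product]
      rfl

/-- one step of the improvement of the exponent -/
theorem step_exp (θ : ℝ) (hθ : 0 < θ) (C : ℝ)
    (h : ∀ n : ℕ, ((BW n).card : ℝ) ≤ C * Real.exp (θ * n)) :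
    ∃ C' : ℝ, ∀ n : ℕ, ((BW n).card : ℝ) ≤ C' * Real.exp (13 / 14 * θ * n) := by
  have hC : 0 ≤ C := by
    have h0 := h 0
    have h1 : (0:ℝ) ≤ ((BW 0).card : ℝ) := Nat.cast_nonneg _
    have h2 := Real.exp_pos (θ * (0 : ℕ))
    by_contra hneg
    have := mul_neg_of_neg_of_pos (not_le.mp hneg) h2
    linarith
  set K : ℝ := 6 + 14 / θ with hK
  have hKpos : 0 < K := by positivity
  refine ⟨2 * K * C ^ 2 * Real.exp (30 / 7 * θ), fun n => ?_⟩
  set m := 6 * (n + 5) / 7 with hm
  have hmn : m ≤ n + 5 := by omega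
  have hm7 : 7 * m ≤ 6 * n + 30 := by omega
  have hmr : (m : ℝ) ≤ 6 / 7 * n + 30 / 7 := by
    have : ((7 * m : ℕ) : ℝ) ≤ ((6 * n + 30 : ℕ) : ℝ) := by exact_mod_cast hm7
    push_cast at this
    linarith
  have h1 : ((BW n).card : ℝ) ≤ ∑ i ∈ Finset.range (m + 1), 2 * (C ^ 2 * Real.exp (θ * m)) := by
    have h2 : ((BW n).card : ℝ) ≤ ((∑ i ∈ Finset.range (m + 1),
        2 * ((BW i).card * (BW (m - i)).card) : ℕ) : ℝ) := by
      exact_mod_cast card_rec n
    refine h2.trans ?_
    rw [Nat.cast_sum]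
    apply Finset.sum_le_sum
    intro i hi
    rw [Finset.mem_range] at hi
    rw [Nat.cast_mul, Nat.cast_mul]
    have e : θ * m = θ * i + θ * ((m - i : ℕ) : ℝ) := by
      rw [Nat.cast_sub (by omega)]; ring
    have h3 := mul_le_mul (h i) (h (m - i)) (Nat.cast_nonneg _)
      (mul_nonneg hC (Real.exp_pos _).le)
    rw [e, Real.exp_add]
    have e2 : ((2 : ℕ) : ℝ) = 2 := by norm_num
    rw [e2]
    have e3 : C * Real.exp (θ * i) * (C * Real.exp (θ * ((m - i : ℕ) : ℝ))) =
      C ^ 2 * (Real.exp (θ * i) * Real.exp (θ * ((m - i : ℕ) : ℝ))) := by ring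
    rw [e3] at h3
    linarith
  rw [Finset.sum_const, Finset.card_range, nsmul_eq_mul] at h1
  have h4 : ((m + 1 : ℕ) : ℝ) ≤ K * Real.exp (1 / 14 * θ * n) := by
    have h5 := Real.add_one_le_exp (1 / 14 * θ * n)
    have h6 : K * (1 / 14 * θ * n + 1) ≤ K * Real.exp (1 / 14 * θ * n) :=
      mul_le_mul_of_nonneg_left h5 hKpos.le
    refine le_trans ?_ h6
    have h7 : ((m + 1 : ℕ) : ℝ) ≤ n + 6 := by
      have : m + 1 ≤ n + 6 := by omega
      exact_mod_cast this
    have h8 : K * (1 / 14 * θ * n + 1) = n + 6 + (6 / 14 * θ * n + 14 / θ) := by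
      rw [hK]; field_simp; ring
    have h9 : (0:ℝ) ≤ 6 / 14 * θ * n + 14 / θ := by positivity
    linarith
  have h10 : Real.exp (θ * m) ≤ Real.exp (6 / 7 * θ * n) * Real.exp (30 / 7 * θ) := by
    rw [← Real.exp_add]
    apply Real.exp_le_exp.mpr
    have := mul_le_mul_of_nonneg_left hmr hθ.le
    linarith
  calc ((BW n).card : ℝ) ≤ ((m + 1 : ℕ) : ℝ) * (2 * (C ^ 2 * Real.exp (θ * m))) := h1
    _ ≤ (K * Real.exp (1 / 14 * θ * n)) *
        (2 * (C ^ 2 * (Real.exp (6 / 7 * θ * n) * Real.exp (30 / 7 * θ)))) := by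
        apply mul_le_mul h4 _ (by positivity) (by positivity)
        have := mul_le_mul_of_nonneg_left h10 (by positivity : (0:ℝ) ≤ C ^ 2)
        linarith
    _ = 2 * K * C ^ 2 * Real.exp (30 / 7 * θ) *
        (Real.exp (1 / 14 * θ * n) * Real.exp (6 / 7 * θ * n)) := by ring
    _ = 2 * K * C ^ 2 * Real.exp (30 / 7 * θ) * Real.exp (13 / 14 * θ * n) := by
        rw [← Real.exp_add]; congr 2; ring

theorem base_exp : ∀ n : ℕ, ((BW n).card : ℝ) ≤ 1 * Real.exp (2 * n) := by
  intro n
  obtain ⟨hf, hcard⟩ := card_lists_le n {w : List Gen | w.length ≤ n} (fun r hr => hr)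
  have h1 : (BW n : Set Grig) ⊆ vg '' {w : List Gen | w.length ≤ n} := by
    intro g hg
    rw [Finset.mem_coe, mem_BW] at hg
    obtain ⟨w, hw, hwl⟩ := exists_nrm g
    refine ⟨w, ?_, hw⟩
    rw [Set.mem_ofPred_eq]
    have := length_le_wt w
    omega
  have h2 : (BW n).card ≤ 5 ^ n := by
    rw [← Set.ncard_coe_finset]
    calc (BW n : Set Grig).ncard ≤ (vg '' {w : List Gen | w.length ≤ n}).ncard :=
          Set.ncard_le_ncard h1 (hf.image _)
      _ ≤ _ := Set.ncard_image_le hf
      _ ≤ _ := hcard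
      _ = 5 ^ n := by
        have : Fintype.card Gen = 4 := rfl
        rw [this]
  have h3 : ((BW n).card : ℝ) ≤ 5 ^ n := by exact_mod_cast h2
  refine h3.trans ?_
  rw [one_mul, mul_comm, Real.exp_nat_mul]
  apply pow_le_pow_left₀ (by norm_num)
  have h4 := Real.exp_one_gt_d9
  have h5 : Real.exp 2 = Real.exp 1 * Real.exp 1 := by rw [← Real.exp_add]; norm_num
  rw [h5]
  nlinarith

theorem all_exp (k : ℕ) : ∃ C : ℝ, ∀ n : ℕ,
    ((BW n).card : ℝ) ≤ C * Real.exp (2 * (13 / 14) ^ k * n) := by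
  induction k with
  | zero => exact ⟨1, fun n => by simpa using base_exp n⟩
  | succ k ih =>
    obtain ⟨C, hC⟩ := ih
    obtain ⟨C', hC'⟩ := step_exp (2 * (13 / 14) ^ k) (by positivity) C hC
    refine ⟨C', fun n => ?_⟩
    have e : (2 * (13 / 14 : ℝ) ^ (k + 1) * n) = 13 / 14 * (2 * (13 / 14) ^ k) * n := by
      rw [pow_succ]; ring
    rw [e]
    exact hC' n

/-- M8: subexponential growth. -/
theorem growth_Grig (c : ℕ) (hc : 0 < c) : ∃ n0 : ℕ, ∀ n, n0 ≤ n →
    {g : Grig | wordLength g ≤ n}.ncard < 2 ^ (n / c) := by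
  have hl2 : 0 < Real.log 2 := Real.log_pos (by norm_num)
  have hcr : (0:ℝ) < c := by exact_mod_cast hc
  set δ : ℝ := Real.log 2 / (2 * c) with hδ
  have hδ0 : 0 < δ := by positivity
  obtain ⟨k, hk⟩ := exists_pow_lt_of_lt_one (show (0:ℝ) < δ / 12 by positivity)
    (show (13 / 14 : ℝ) < 1 by norm_num)
  obtain ⟨C, hC⟩ := all_exp k
  obtain ⟨n0, hn0⟩ := exists_nat_gt (2 * |C| / δ)
  refine ⟨n0, fun n hn => ?_⟩
  have h1 : {g : Grig | wordLength g ≤ n} ⊆ (BW (6 * n) : Set Grig) := by
    intro g hg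
    rw [Set.mem_ofPred_eq] at hg
    rw [Finset.mem_coe, mem_BW]
    have := nrm_le_wl g
    omega
  have h2 : {g : Grig | wordLength g ≤ n}.ncard ≤ (BW (6 * n)).card := by
    rw [← Set.ncard_coe_finset]
    exact Set.ncard_le_ncard h1 (Finset.finite_toSet _)
  have hnr : 2 * |C| < δ * n := by
    have h3 : (n0 : ℝ) ≤ n := by exact_mod_cast hn
    have h4 : 2 * |C| / δ < n := lt_of_lt_of_le hn0 h3
    rw [div_lt_iff₀ hδ0] at h4
    linarith
  have h5 : ((BW (6 * n)).card : ℝ) ≤ |C| * Real.exp (δ * n) := by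
    refine (hC (6 * n)).trans ?_
    have e1 : Real.exp (2 * (13 / 14) ^ k * ((6 * n : ℕ) : ℝ)) ≤ Real.exp (δ * n) := by
      apply Real.exp_le_exp.mpr
      have e2 : 2 * (13 / 14 : ℝ) ^ k * ((6 * n : ℕ) : ℝ) = (12 * (13 / 14) ^ k) * n := by
        push_cast; ring
      rw [e2]
      apply mul_le_mul_of_nonneg_right _ (Nat.cast_nonneg _)
      linarith
    exact mul_le_mul (le_abs_self C) e1 (Real.exp_pos _).le (abs_nonneg C)
  have h6 : (2:ℝ) ^ (n / c) ≥ Real.exp (2 * δ * n) / 2 := by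
    have e1 : (2:ℝ) ^ (n / c) = Real.exp (Real.log 2 * ((n / c : ℕ) : ℝ)) := by
      rw [mul_comm, Real.exp_nat_mul, Real.exp_log (by norm_num)]
    have e2 : (n : ℝ) / c - 1 ≤ ((n / c : ℕ) : ℝ) := by
      have e3 : n < (n / c + 1) * c := by
        rw [mul_comm]; exact Nat.lt_mul_div_succ n hc
      have e4 : (n : ℝ) < (((n / c : ℕ) : ℝ) + 1) * c := by exact_mod_cast e3
      have e5 : (n : ℝ) / c < ((n / c : ℕ) : ℝ) + 1 := by
        rw [div_lt_iff₀ hcr]; exact e4
      linarith
    have e6 : Real.exp (2 * δ * n) / 2 = Real.exp (Real.log 2 * ((n : ℝ) / c - 1)) := by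
      have e7 : Real.log 2 * ((n : ℝ) / c - 1) = 2 * δ * n - Real.log 2 := by
        rw [hδ]; field_simp
      rw [e7, Real.exp_sub, Real.exp_log (by norm_num)]
    rw [e1, e6, ge_iff_le]
    apply Real.exp_le_exp.mpr
    exact mul_le_mul_of_nonneg_left e2 hl2.le
  have h7 : |C| * Real.exp (δ * n) < Real.exp (2 * δ * n) / 2 := by
    have e1 : Real.exp (2 * δ * n) = Real.exp (δ * n) * Real.exp (δ * n) := by
      rw [← Real.exp_add]; congr 1; ring
    have e2 := Real.add_one_le_exp (δ * n)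
    have e3 := Real.exp_pos (δ * n)
    rw [e1]
    have e4 : 2 * |C| < Real.exp (δ * n) := by linarith
    have e5 := mul_lt_mul_of_pos_right e4 e3
    linarith
  have h8 : ({g : Grig | wordLength g ≤ n}.ncard : ℝ) < (2:ℝ) ^ (n / c) := by
    have : ({g : Grig | wordLength g ≤ n}.ncard : ℝ) ≤ ((BW (6 * n)).card : ℝ) := by
      exact_mod_cast h2
    linarith
  exact_mod_cast h8

end Pool.Agent.H51.IGN
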