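import Pool.Agent.H51.IGN.M1
import Pool.Agent.H51.IGN.M3
import Pool.Agent.H51.IGN.M4
import Pool.Agent.H51.IGN.M5
import Pool.Agent.H51.IGN.M6
import Pool.Agent.H51.IGN.M7
import Pool.Agent.H51.IGN.M8

/-! The first Grigorchuk group has no indexed geodesic normal form: assembly. -/

namespace Pool.Agent.H51.IGN

open Pool.Agent.H57.EDT

/-- The first Grigorchuk group has no indexed geodesic normal form over `{a, b, c, d}`. -/
theorem no_indexed_geodesic_normal_form :
    ¬ ∃ L : Set (List Gen), IsGeodesicNormalForm L ∧ IsIndexed L := by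
  rintro ⟨L, ⟨hNF, hgeo⟩, hidx⟩
  obtain ⟨N, F, fN, fF, G, S, hG⟩ := exists_Gr L hidx
  -- uniqueness
  have huniq : ∀ w ∈ L, ∀ w' ∈ L, vg w = vg w' → w = w' := by
    intro w hw w' hw' h
    obtain ⟨w0, -, h0⟩ := hNF (vg w)
    have e1 := h0 w ⟨hw, rfl⟩
    have e2 := h0 w' ⟨hw', h.symm⟩
    rw [e1, e2]
  have hgeo' : ∀ w ∈ L, ∀ w', vg w' = vg w → w.length ≤ w'.length := by
    intro w hw w' h
    have h1 := hgeo w hw
    have h2 := wl_le w'
    rw [h] at h2
    exact h1 ▸ h2
  -- bounded powers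
  have hPB : PB G S := by
    intro p hp
    obtain ⟨j, hj, hj1⟩ := Grig_torsion (vg p)
    refine ⟨j, fun w hw hf => ?_⟩
    obtain ⟨x, y, rfl⟩ := hf
    have hval : vg (pw p j) = 1 := by
      have : ∀ i, vg (pw p i) = vg p ^ i := by
        intro i
        induction i with
        | zero => simp [pw, vg]
        | succ i ih =>
          have : pw p (i + 1) = p ++ pw p i := by simp [pw, List.replicate_succ]
          rw [this, vg_append, ih, pow_succ']
      rw [this, hj1]
    have h1 := hgeo' _ ((hG _).2 hw) (x ++ y) (by simp [vg_append, hval])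
    have hlen : (pw p j).length = j * p.length := by simp [pw]
    have hp0 : 0 < p.length := List.length_pos_iff.2 hp
    have : 0 < j * p.length := Nat.mul_pos hj hp0
    simp only [List.length_append, hlen] at h1
    omega
  -- growth
  have hgrow : ∀ c : ℕ, 0 < c → ∃ n0 : ℕ, ∀ n, n0 ≤ n →
      {w | Der G S [] w ∧ w.length ≤ n}.ncard < 2 ^ (n / c) := by
    intro c hc
    obtain ⟨n0, hn0⟩ := growth_Grig c hc
    refine ⟨n0, fun n hn => lt_of_le_of_lt ?_ (hn0 n hn)⟩
    refine Set.ncard_le_ncard_of_injOn vg ?_ ?_ (finite_ball n)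
    · rintro w ⟨hw, hwn⟩
      exact le_trans (wl_le w) hwn
    · rintro w ⟨hw, -⟩ w' ⟨hw', -⟩ h
      exact huniq w ((hG w).2 hw) w' ((hG w').2 hw') h
  -- minimal words
  have hfin : ∀ A : N, ∀ g : Grig,
      {y | (∃ σ, Live G S A σ ∧ Der G A σ y) ∧ (y.map gen).prod = g}.Finite := by
    intro A g
    apply Set.Finite.subset (List.finite_length_le Gen (wordLength g))
    rintro y ⟨⟨σ, hl, hd⟩, hy⟩
    obtain ⟨u, v, hc⟩ := hl.ctx
    obtain ⟨y', hy', hy'l⟩ := exists_word g
    have h1 := hgeo' _ ((hG _).2 (hc y hd)) (u ++ y' ++ v) (by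
      simp only [vg_append]
      rw [hy']
      congr 2
      exact hy.symm)
    simp only [List.length_append] at h1
    show y.length ≤ wordLength g
    omega
  obtain ⟨M, ⟨k, D, hMg⟩, hM⟩ := min_words Grig_torsion gen G S hfin
  obtain ⟨h, hh, s, hs, hav⟩ := family M k D hMg
  obtain ⟨n0, hn0⟩ := min_factor_of_spine G S hPB (fun h => spine G S hPB h) hgrow M hM h hh
  have hin : aw (pre s n0) ∈ L := by
    obtain ⟨w, ⟨hw, hwv⟩, -⟩ := hNF (vg (aw (pre s n0)))
    have hwl := hgeo' w hw (aw (pre s n0)) hwv.symm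
    have := hs n0 w (by rw [← coe_vg, ← coe_vg]; exact congrArg _ hwv) hwl
    rw [← this]
    exact hw
  have hlen : n0 ≤ (aw (pre s n0)).length := by
    have : ∀ t : List Bool, (aw t).length = 2 * t.length := by
      intro t
      induction t with
      | nil => rfl
      | cons x t ih =>
        have : aw (x :: t) = Gen.a :: (if x then Gen.b else Gen.c) :: aw t := by simp [aw]
        rw [this, List.length_cons, List.length_cons, ih, List.length_cons]
        ring
    rw [this]
    simp [pre]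
    omega
  obtain ⟨y, hyM, h1, h2, h3⟩ := hn0 _ ((hG _).1 hin) hlen
  exact hav n0 y hyM h1 h2 h3

end Pool.Agent.H51.IGN
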